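import Pool.Agent.Work.MP_a60482_kc.Defs

open CategoryTheory MonoidalCategory CartesianMonoidalCategory
open scoped TensorProduct

universe u v w x

namespace Pool.KC

namespace Cohomology

variable {V : Type u} [Category.{v} V] [CartesianMonoidalCategory V] {K : Type x} [Field K]
variable (T : Cohomology.{u, v, w, x} V K)

/-- projection to degree `i` -/
noncomputable def proj (X : V) (i : ℕ) : T.H X →ₗ[K] T.H X := GradedAlgebra.proj (T.deg X) i

theorem proj_mem {X : V} (i : ℕ) (a : T.H X) : T.proj X i a ∈ T.deg X i := by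
  unfold proj
  rw [GradedAlgebra.proj_apply]
  exact SetLike.coe_mem _

theorem proj_same {X : V} {i : ℕ} {a : T.H X} (h : a ∈ T.deg X i) : T.proj X i a = a := by
  unfold proj
  rw [GradedAlgebra.proj_apply]
  exact DirectSum.decompose_of_mem_same _ h

theorem proj_ne {X : V} {i j : ℕ} {a : T.H X} (h : a ∈ T.deg X i) (hij : i ≠ j) :
    T.proj X j a = 0 := by
  unfold proj
  rw [GradedAlgebra.proj_apply]
  exact DirectSum.decompose_of_mem_ne _ h hij

@[elab_as_elim]
theorem hind {X : V} {P : T.H X → Prop} (h0 : P 0)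
    (hh : ∀ (i : ℕ) (a : T.H X), a ∈ T.deg X i → P a)
    (ha : ∀ a b, P a → P b → P (a + b)) (a : T.H X) : P a :=
  DirectSum.Decomposition.inductionOn (T.deg X) h0 (fun {i} m => hh i m m.2) ha a

/-- an element is the sum of its components -/
theorem sum_proj {X : V} (a : T.H X) :
    ∃ s : Finset ℕ, ∀ t : Finset ℕ, s ⊆ t → ∑ i ∈ t, T.proj X i a = a := by
  classical
  refine T.hind (P := fun a => ∃ s : Finset ℕ, ∀ t : Finset ℕ, s ⊆ t →
    ∑ i ∈ t, T.proj X i a = a) ⟨∅, fun t _ => by simp⟩ ?_ ?_ a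
  · intro i a h
    refine ⟨{i}, fun t ht => ?_⟩
    rw [Finset.sum_eq_single i]
    · exact T.proj_same h
    · intro j _ hj
      exact T.proj_ne h (Ne.symm hj)
    · intro hi
      exact absurd (ht (Finset.mem_singleton_self i)) hi
  · rintro a b ⟨s, hs⟩ ⟨s', hs'⟩
    refine ⟨s ∪ s', fun t ht => ?_⟩
    simp only [map_add, Finset.sum_add_distrib]
    rw [hs t (Finset.union_subset_left ht), hs' t (Finset.union_subset_right ht)]

theorem ext_proj {X : V} {a b : T.H X} (h : ∀ i, T.proj X i a = T.proj X i b) : a = b := by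
  classical
  obtain ⟨s, hs⟩ := T.sum_proj a
  obtain ⟨s', hs'⟩ := T.sum_proj b
  rw [← hs (s ∪ s') Finset.subset_union_left, ← hs' (s ∪ s') Finset.subset_union_right]
  exact Finset.sum_congr rfl fun i _ => h i

theorem mem_deg_of {X : V} {i : ℕ} {a : T.H X} (h : ∀ j, j ≠ i → T.proj X j a = 0) :
    a ∈ T.deg X i := by
  have : a = T.proj X i a := by
    apply T.ext_proj
    intro j
    by_cases hj : j = i
    · subst hj
      rw [T.proj_same (T.proj_mem _ _)]
    · rw [h j hj, T.proj_ne (T.proj_mem _ _) (Ne.symm hj)]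
  rw [this]
  exact T.proj_mem _ _

theorem mul_deg {X : V} {i j : ℕ} {a b : T.H X} (ha : a ∈ T.deg X i) (hb : b ∈ T.deg X j) :
    a * b ∈ T.deg X (i + j) :=
  SetLike.GradedMonoid.toGradedMul.mul_mem ha hb

theorem one_deg {X : V} : (1 : T.H X) ∈ T.deg X 0 :=
  SetLike.GradedMonoid.toGradedOne.one_mem

/-- classes of even degree are central -/
theorem even_comm {X : V} {i : ℕ} {a : T.H X} (ha : a ∈ T.deg X (2 * i)) (b : T.H X) :
    a * b = b * a := by
  refine T.hind (P := fun b => a * b = b * a) (by simp) ?_ ?_ b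
  · intro j b hb
    rw [T.comm ha hb, mul_assoc, pow_mul]
    simp
  · intro b c hb hc
    rw [mul_add, add_mul, hb, hc]

/-- `tr (a * b)` for homogeneous elements of complementary degrees -/
theorem tr_mul_ne {X : V} {i j : ℕ} {a b : T.H X} (ha : a ∈ T.deg X i) (hb : b ∈ T.deg X j)
    (h : i + j ≠ 2 * T.dim X) : T.tr X (a * b) = 0 :=
  T.tr_deg (T.mul_deg ha hb) h

theorem tr_mul_proj {X : V} {i j : ℕ} (a : T.H X) {b : T.H X} (hb : b ∈ T.deg X j)
    (h : i + j = 2 * T.dim X) : T.tr X (T.proj X i a * b) = T.tr X (a * b) := by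
  refine T.hind (P := fun a => T.tr X (T.proj X i a * b) = T.tr X (a * b)) (by simp) ?_ ?_ a
  · intro k a ha
    by_cases hk : k = i
    · subst hk
      rw [T.proj_same ha]
    · rw [T.proj_ne ha hk, T.tr_mul_ne ha hb (by omega)]
      simp
  · intro a c h1 h2
    simp only [map_add, add_mul, h1, h2]

theorem tr_proj_mul {X : V} {i j : ℕ} {a : T.H X} (b : T.H X) (ha : a ∈ T.deg X i)
    (h : i + j = 2 * T.dim X) : T.tr X (a * T.proj X j b) = T.tr X (a * b) := by
  refine T.hind (P := fun b => T.tr X (a * T.proj X j b) = T.tr X (a * b)) (by simp) ?_ ?_ b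
  · intro k b hb
    by_cases hk : k = j
    · subst hk
      rw [T.proj_same hb]
    · rw [T.proj_ne hb hk, T.tr_mul_ne ha hb (by omega)]
      simp
  · intro a c h1 h2
    simp only [map_add, mul_add, h1, h2]

theorem eq_zero_of_deg {X : V} {i : ℕ} {a : T.H X} (ha : a ∈ T.deg X i)
    (h : ∀ j, i + j = 2 * T.dim X → ∀ b ∈ T.deg X j, T.tr X (b * a) = 0) : a = 0 := by
  apply T.nondeg
  intro b
  refine T.hind (P := fun b => T.tr X (b * a) = 0) (by simp) ?_ ?_ b
  · intro j b hb
    by_cases hj : i + j = 2 * T.dim X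
    · exact h j hj b hb
    · exact T.tr_mul_ne hb ha (by omega)
  · intro b c h1 h2
    rw [add_mul, map_add, h1, h2, add_zero]

theorem deg_eq_zero {X : V} {i : ℕ} {a : T.H X} (ha : a ∈ T.deg X i) (h : 2 * T.dim X < i) :
    a = 0 :=
  T.eq_zero_of_deg ha fun j hj => by omega

theorem kun_tmul {X Y : V} (a : T.H X) (b : T.H Y) :
    T.kun X Y (a ⊗ₜ b) = T.pull (fst X Y) a * T.pull (snd X Y) b := by
  simp [kun, LinearEquiv.ofBijective_apply]

@[elab_as_elim]
theorem kind {X Y : V} {P : T.H (X ⊗ Y) → Prop} (h0 : P 0)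
    (hh : ∀ (a : T.H X) (b : T.H Y), P (T.pull (fst X Y) a * T.pull (snd X Y) b))
    (ha : ∀ a b, P a → P b → P (a + b)) (z : T.H (X ⊗ Y)) : P z := by
  obtain ⟨t, rfl⟩ := (T.kun X Y).surjective z
  induction t using TensorProduct.induction_on with
  | zero => simpa using h0
  | tmul a b => rw [T.kun_tmul]; exact hh a b
  | add s t hs ht => rw [map_add]; exact ha _ _ hs ht

/-- homogeneous version -/
@[elab_as_elim]
theorem kind' {X Y : V} {P : T.H (X ⊗ Y) → Prop} (h0 : P 0)
    (hh : ∀ (i j : ℕ) (a : T.H X) (b : T.H Y), a ∈ T.deg X i → b ∈ T.deg Y j →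
      P (T.pull (fst X Y) a * T.pull (snd X Y) b))
    (ha : ∀ a b, P a → P b → P (a + b)) (z : T.H (X ⊗ Y)) : P z := by
  refine T.kind h0 ?_ ha z
  intro a b
  refine T.hind (P := fun a => P (T.pull (fst X Y) a * T.pull (snd X Y) b)) (by simpa) ?_ ?_ a
  · intro i a hai
    refine T.hind (P := fun b => P (T.pull (fst X Y) a * T.pull (snd X Y) b)) (by simpa) ?_ ?_ b
    · intro j b hb
      exact hh i j a b hai hb
    · intro b c h1 h2
      rw [map_add, mul_add]
      exact ha _ _ h1 h2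
  · intro a c h1 h2
    rw [map_add, add_mul]
    exact ha _ _ h1 h2

theorem push_pure {X Y : V} (a : T.H X) (b : T.H Y) :
    T.push X Y (T.pull (fst X Y) a * T.pull (snd X Y) b) = T.tr X a • b := by
  rw [← T.kun_tmul]
  simp [push]

theorem tr_push {X Y : V} (z : T.H (X ⊗ Y)) : T.tr Y (T.push X Y z) = T.tr (X ⊗ Y) z := by
  refine T.kind (P := fun z => T.tr Y (T.push X Y z) = T.tr (X ⊗ Y) z) (by simp) ?_ ?_ z
  · intro a b
    rw [T.push_pure, T.tr_prod]
    simp
  · intro a b h1 h2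
    simp only [map_add, h1, h2]

/-- projection formula (right) -/
theorem push_mul_snd {X Y : V} (z : T.H (X ⊗ Y)) (c : T.H Y) :
    T.push X Y (z * T.pull (snd X Y) c) = T.push X Y z * c := by
  refine T.kind (P := fun z => T.push X Y (z * T.pull (snd X Y) c) = T.push X Y z * c)
    (by simp) ?_ ?_ z
  · intro a b
    rw [mul_assoc, ← map_mul, T.push_pure, T.push_pure, smul_mul_assoc]
  · intro a b h1 h2
    simp only [map_add, add_mul, h1, h2]

theorem fst_deg {X Y : V} {i : ℕ} {a : T.H X} (ha : a ∈ T.deg X i) :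
    T.pull (fst X Y) a ∈ T.deg (X ⊗ Y) i := T.pull_deg _ ha

theorem snd_deg {X Y : V} {i : ℕ} {a : T.H Y} (ha : a ∈ T.deg Y i) :
    T.pull (snd X Y) a ∈ T.deg (X ⊗ Y) i := T.pull_deg _ ha

/-- projection formula (left) -/
theorem push_snd_mul {X Y : V} (z : T.H (X ⊗ Y)) (c : T.H Y) :
    T.push X Y (T.pull (snd X Y) c * z) = c * T.push X Y z := by
  refine T.hind (P := fun c => T.push X Y (T.pull (snd X Y) c * z) = c * T.push X Y z)
    (by simp) ?_ ?_ c
  · intro k c hc
    refine T.kind' (P := fun z => T.push X Y (T.pull (snd X Y) c * z) = c * T.push X Y z)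
      (by simp) ?_ ?_ z
    · intro i j a b ha hb
      have h1 := T.comm (T.snd_deg (X := X) hc) (T.fst_deg (Y := Y) ha)
      rw [← mul_assoc, h1, mul_assoc, mul_assoc, ← map_mul, T.push_pure]
      rw [← Int.cast_one, ← Int.cast_neg, ← Int.cast_pow, ← zsmul_eq_mul, map_zsmul, T.push_pure]
      by_cases hi : i = 2 * T.dim X
      · subst hi
        rw [show k * (2 * T.dim X) = 2 * (k * T.dim X) by ring, pow_mul]
        simp
      · rw [T.tr_deg ha hi]
        simp
    · intro a b h1 h2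
      simp only [map_add, mul_add, h1, h2]
  · intro a b h1 h2
    simp only [map_add, add_mul, h1, h2]

theorem act_apply {X Y : V} (z : T.H (X ⊗ Y)) (a : T.H X) :
    T.act z a = T.push X Y (T.pull (fst X Y) a * z) := by
  simp [act]

theorem act_add {X Y : V} (z z' : T.H (X ⊗ Y)) : T.act (z + z') = T.act z + T.act z' := by
  ext a
  simp [act_apply, mul_add]

theorem act_zero {X Y : V} : T.act (0 : T.H (X ⊗ Y)) = 0 := by
  ext a
  simp [act_apply]

theorem act_smul {X Y : V} (c : K) (z : T.H (X ⊗ Y)) : T.act (c • z) = c • T.act z := by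
  ext a
  simp [act_apply]

theorem act_pure {X Y : V} (p : T.H X) (q : T.H Y) (a : T.H X) :
    T.act (T.pull (fst X Y) p * T.pull (snd X Y) q) a = T.tr X (a * p) • q := by
  rw [T.act_apply, ← mul_assoc, ← map_mul, T.push_pure]

/-- `tr (z_* a * b) = tr (pr₁^* a * z * pr₂^* b)` -/
theorem tr_act {X Y : V} (z : T.H (X ⊗ Y)) (a : T.H X) (b : T.H Y) :
    T.tr Y (T.act z a * b) =
      T.tr (X ⊗ Y) (T.pull (fst X Y) a * z * T.pull (snd X Y) b) := by
  rw [T.act_apply, ← T.push_mul_snd, T.tr_push]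

/-- Poincare duality as an isomorphism to the dual -/
noncomputable def dualMap (X : V) : T.H X →ₗ[K] Module.Dual K (T.H X) where
  toFun x := T.tr X ∘ₗ LinearMap.mulRight K x
  map_add' x y := by ext a; simp [mul_add]
  map_smul' c x := by ext a; simp

theorem dualMap_apply {X : V} (x a : T.H X) : T.dualMap X x a = T.tr X (a * x) := rfl

theorem dualMap_injective (X : V) : Function.Injective (T.dualMap X) := by
  rw [injective_iff_map_eq_zero]
  intro x hx
  apply T.nondeg
  intro b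
  rw [← T.dualMap_apply, hx]
  rfl

noncomputable def dualEquiv (X : V) : T.H X ≃ₗ[K] Module.Dual K (T.H X) :=
  LinearEquiv.ofInjectiveOfFinrankEq _ (T.dualMap_injective X)
    (Subspace.dual_finrank_eq).symm

theorem dualEquiv_apply {X : V} (x a : T.H X) : T.dualEquiv X x a = T.tr X (a * x) := rfl

/-- classes on `X × Y` are the same as linear maps `H(X) → H(Y)` -/
noncomputable def actEquiv (X Y : V) : T.H (X ⊗ Y) ≃ₗ[K] (T.H X →ₗ[K] T.H Y) :=
  (T.kun X Y).symm ≪≫ₗ (TensorProduct.congr (T.dualEquiv X) (LinearEquiv.refl K (T.H Y))) ≪≫ₗ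
    dualTensorHomEquiv K (T.H X) (T.H Y)

theorem actEquiv_apply {X Y : V} (z : T.H (X ⊗ Y)) : T.actEquiv X Y z = T.act z := by
  refine T.kind (P := fun z => T.actEquiv X Y z = T.act z) (by simp [act_zero]) ?_ ?_ z
  · intro a b
    ext c
    rw [T.act_pure, ← T.kun_tmul]
    simp [actEquiv, dualEquiv_apply]
  · intro a b h1 h2
    rw [map_add, T.act_add, h1, h2]

theorem act_injective {X Y : V} : Function.Injective (T.act (X := X) (Y := Y)) := by
  intro z z' h
  apply (T.actEquiv X Y).injective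
  rw [T.actEquiv_apply, T.actEquiv_apply, h]

theorem act_surjective {X Y : V} : Function.Surjective (T.act (X := X) (Y := Y)) := by
  intro f
  refine ⟨(T.actEquiv X Y).symm f, ?_⟩
  rw [← T.actEquiv_apply, LinearEquiv.apply_symm_apply]

theorem push_deg {X Y : V} {k l : ℕ} {z : T.H (X ⊗ Y)} (hz : z ∈ T.deg (X ⊗ Y) k)
    (h : k = 2 * T.dim X + l) : T.push X Y z ∈ T.deg Y l := by
  apply T.mem_deg_of
  intro m hm
  apply T.eq_zero_of_deg (T.proj_mem _ _)
  intro j hj b hb
  rw [T.tr_proj_mul _ hb (by omega), ← T.push_snd_mul, T.tr_push]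
  exact T.tr_mul_ne (T.snd_deg hb) hz (by rw [T.dim_prod]; omega)

theorem act_deg {X Y : V} {i k l : ℕ} {z : T.H (X ⊗ Y)} (hz : z ∈ T.deg (X ⊗ Y) k)
    (h : i + k = 2 * T.dim X + l) {a : T.H X} (ha : a ∈ T.deg X i) :
    T.act z a ∈ T.deg Y l := by
  rw [T.act_apply]
  exact T.push_deg (T.mul_deg (T.fst_deg ha) hz) h

theorem act_component {X Y : V} {i j : ℕ} (hi : i ≤ 2 * T.dim X) (z : T.H (X ⊗ Y)) :
    T.act (T.component X Y i j z) =
      T.proj Y j ∘ₗ T.act z ∘ₗ T.proj X (2 * T.dim X - i) := by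
  refine T.kind (P := fun z => T.act (T.component X Y i j z) =
      T.proj Y j ∘ₗ T.act z ∘ₗ T.proj X (2 * T.dim X - i)) (by simp [act_zero]) ?_ ?_ z
  · intro p q
    ext a
    have h1 : T.component X Y i j (T.pull (fst X Y) p * T.pull (snd X Y) q) =
        T.pull (fst X Y) (T.proj X i p) * T.pull (snd X Y) (T.proj Y j q) := by
      rw [← T.kun_tmul, ← T.kun_tmul]
      simp [component, proj]
    rw [h1, T.act_pure]
    simp only [LinearMap.comp_apply]
    rw [T.act_pure, map_smul]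
    congr 1
    rw [← T.tr_mul_proj (i := 2 * T.dim X - i) a (T.proj_mem i p) (by omega),
      T.tr_proj_mul (j := i) p (T.proj_mem _ a) (by omega)]
  · intro a b h1 h2
    rw [map_add, T.act_add, h1, h2, T.act_add]
    ext c
    simp

/-- composition of correspondences -/
noncomputable def comp {X Y Z : V} (z : T.H (X ⊗ Y)) (y : T.H (Y ⊗ Z)) : T.H (X ⊗ Z) :=
  T.push Y (X ⊗ Z)
    (T.pull (lift (snd Y (X ⊗ Z) ≫ fst X Z) (fst Y (X ⊗ Z))) z *
      T.pull (lift (fst Y (X ⊗ Z)) (snd Y (X ⊗ Z) ≫ snd X Z)) y)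

theorem comp_add_left {X Y Z : V} (z z' : T.H (X ⊗ Y)) (y : T.H (Y ⊗ Z)) :
    T.comp (z + z') y = T.comp z y + T.comp z' y := by
  simp [comp, add_mul]

theorem comp_add_right {X Y Z : V} (z : T.H (X ⊗ Y)) (y y' : T.H (Y ⊗ Z)) :
    T.comp z (y + y') = T.comp z y + T.comp z y' := by
  simp [comp, mul_add]

theorem pull_comp' {X Y Z : V} (f : X ⟶ Y) (g : Y ⟶ Z) (a : T.H Z) :
    T.pull f (T.pull g a) = T.pull (f ≫ g) a := (T.pull_comp f g a).symm

theorem act_comp {X Y Z : V} (z : T.H (X ⊗ Y)) (y : T.H (Y ⊗ Z)) :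
    T.act (T.comp z y) = T.act y ∘ₗ T.act z := by
  refine T.kind (P := fun z => T.act (T.comp z y) = T.act y ∘ₗ T.act z)
    (by simp [comp, act_zero]) ?_ ?_ z
  · intro p q
    refine T.kind (P := fun y => T.act (T.comp (T.pull (fst X Y) p * T.pull (snd X Y) q) y) =
      T.act y ∘ₗ T.act (T.pull (fst X Y) p * T.pull (snd X Y) q))
      (by simp [comp, act_zero]) ?_ ?_ y
    · intro r s
      have h1 : T.comp (T.pull (fst X Y) p * T.pull (snd X Y) q)
          (T.pull (fst Y Z) r * T.pull (snd Y Z) s) =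
          T.tr Y (q * r) • (T.pull (fst X Z) p * T.pull (snd X Z) s) := by
        unfold comp
        simp only [map_mul, T.pull_comp', lift_fst, lift_snd]
        rw [T.pull_comp, T.pull_comp]
        rw [mul_assoc, T.push_snd_mul, ← mul_assoc (T.pull (fst Y (X ⊗ Z)) q), T.push_mul_snd,
          ← map_mul]
        rw [show T.push Y (X ⊗ Z) (T.pull (fst Y (X ⊗ Z)) (q * r)) = T.tr Y (q * r) • 1 by
          rw [← T.push_pure, map_one, mul_one]]
        simp
      ext a
      rw [h1, T.act_smul]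
      simp only [LinearMap.comp_apply, LinearMap.smul_apply]
      rw [T.act_pure, T.act_pure, T.act_pure, smul_mul_assoc, map_smul, smul_smul,
        smul_eq_mul, mul_comm]
    · intro y y' h1 h2
      rw [T.comp_add_right, T.act_add, T.act_add, h1, h2]
      ext a
      simp
  · intro z z' h1 h2
    rw [T.comp_add_left, T.act_add, T.act_add, h1, h2]
    ext a
    simp

end Cohomology

namespace WeilTheory

variable {V : Type u} [Category.{v} V] [CartesianMonoidalCategory V] {K : Type x} [Field K]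
variable (T : WeilTheory.{u, v, w, x} V K)

theorem diag_deg (X : V) : T.diag X ∈ T.deg (X ⊗ X) (2 * T.dim X) :=
  T.C_deg _ _ (T.C_diag X)

theorem act_diag (X : V) : T.act (T.diag X) = LinearMap.id := by
  ext a
  rw [LinearMap.id_apply]
  apply sub_eq_zero.mp
  apply T.nondeg
  intro b
  have key : ∀ b, T.tr X (T.act (T.diag X) a * b) = T.tr X (a * b) := by
    intro b
    rw [T.tr_act, mul_assoc, T.even_comm (T.diag_deg X), ← mul_assoc, T.diag_spec, map_mul,
      T.pull_comp', T.pull_comp', lift_fst, lift_snd, T.pull_id, T.pull_id]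
  revert key
  generalize T.act (T.diag X) a = c
  intro key
  -- pass from `tr ((c - a) * b) = 0` to `tr (b * (c - a)) = 0`
  have key' : ∀ b, T.tr X ((c - a) * b) = 0 := by
    intro b
    rw [sub_mul, map_sub, key, sub_self]
  revert key'
  generalize c - a = d
  intro key'
  refine T.hind (P := fun b => T.tr X (b * d) = 0) (by simp) ?_ ?_ b
  · intro i b hb
    by_cases hi : i ≤ 2 * T.dim X
    · have h1 := T.tr_proj_mul (j := 2 * T.dim X - i) d hb (by omega)
      have h2 := T.tr_mul_proj (i := 2 * T.dim X - i) d hb (by omega)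
      have h3 := T.comm hb (T.proj_mem (2 * T.dim X - i) d)
      rw [← h1, h3]
      rw [← Int.cast_one, ← Int.cast_neg, ← Int.cast_pow, ← zsmul_eq_mul, map_zsmul, h2, key',
        smul_zero]
    · rw [T.deg_eq_zero hb (by omega)]
      simp
  · intro b c h1 h2
    rw [add_mul, map_add, h1, h2, add_zero]

theorem act_kunneth {X : V} {i : ℕ} (hi : i ≤ 2 * T.dim X) :
    T.act (T.kunnethComponent X i) = T.proj X i := by
  unfold kunnethComponent
  rw [T.act_component (by omega), T.act_diag]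
  ext a
  simp only [LinearMap.comp_apply, LinearMap.id_apply]
  rw [show 2 * T.dim X - (2 * T.dim X - i) = i by omega]
  exact T.proj_same (T.proj_mem _ _)

theorem comp_mem {X Y Z : V} {i j : ℕ} {z : T.H (X ⊗ Y)} {y : T.H (Y ⊗ Z)}
    (hz : z ∈ T.C (X ⊗ Y) (T.dim X + i)) (hy : y ∈ T.C (Y ⊗ Z) (T.dim Y + j)) :
    T.comp z y ∈ T.C (X ⊗ Z) (T.dim X + i + j) := by
  unfold Cohomology.comp
  apply T.C_push
  have := T.C_mul (T.C_pull (lift (snd Y (X ⊗ Z) ≫ fst X Z) (fst Y (X ⊗ Z))) hz)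
    (T.C_pull (lift (fst Y (X ⊗ Z)) (snd Y (X ⊗ Z) ≫ snd X Z)) hy)
  convert this using 2
  omega

/-- the algebra of algebraic correspondences of degree `0` acting on `H(X)` -/
noncomputable def ops (X : V) : Subalgebra K (Module.End K (T.H X)) where
  carrier := {f | ∃ z ∈ T.C (X ⊗ X) (T.dim X), T.act z = f}
  mul_mem' := by
    rintro f g ⟨z, hz, rfl⟩ ⟨y, hy, rfl⟩
    exact ⟨T.comp y z, T.comp_mem (i := 0) (j := 0) hy hz, T.act_comp _ _⟩
  add_mem' := by
    rintro f g ⟨z, hz, rfl⟩ ⟨y, hy, rfl⟩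
    exact ⟨z + y, add_mem hz hy, T.act_add _ _⟩
  algebraMap_mem' c := by
    refine ⟨c • T.diag X, Submodule.smul_mem _ _ (T.C_diag X), ?_⟩
    rw [T.act_smul, T.act_diag]
    rfl

theorem mem_ops {X : V} {f : Module.End K (T.H X)} :
    f ∈ T.ops X ↔ ∃ z ∈ T.C (X ⊗ X) (T.dim X), T.act z = f := Iff.rfl

theorem act_mem_ops {X : V} {z : T.H (X ⊗ X)} :
    T.act z ∈ T.ops X ↔ z ∈ T.C (X ⊗ X) (T.dim X) := by
  constructor
  · rintro ⟨y, hy, h⟩
    rwa [← T.act_injective h]
  · intro h
    exact ⟨z, h, rfl⟩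

theorem ops_deg {X : V} {f : Module.End K (T.H X)} (hf : f ∈ T.ops X) {i : ℕ} {a : T.H X}
    (ha : a ∈ T.deg X i) : f a ∈ T.deg X i := by
  obtain ⟨z, hz, rfl⟩ := hf
  exact T.act_deg (T.C_deg _ _ hz) (by omega) ha

theorem proj_eq_zero {X : V} {i : ℕ} (hi : 2 * T.dim X < i) : T.proj X i = 0 := by
  ext a
  exact T.deg_eq_zero (T.proj_mem i a) hi

theorem conjC_iff {X : V} : T.ConjC X ↔ ∀ i, T.proj X i ∈ T.ops X := by
  constructor
  · intro h i
    by_cases hi : i ≤ 2 * T.dim X
    · rw [← T.act_kunneth hi, T.act_mem_ops]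
      exact h i hi
    · rw [T.proj_eq_zero (by omega)]
      exact zero_mem _
  · intro h i hi
    rw [← T.act_mem_ops, T.act_kunneth hi]
    exact h i

end WeilTheory

end Pool.KC
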