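import Pool.Agent.Work.MP_a60482_kc.Api
import Pool.Agent.Work.MP_a60482_kc.Base

open CategoryTheory MonoidalCategory CartesianMonoidalCategory
open scoped TensorProduct

universe u v w x

namespace Pool.KC

namespace WeilData

variable {V : Type u} [Category.{v} V] [CartesianMonoidalCategory V] {K : Type x} [Field K]
variable {D : WeilData.{u, v, w, x} V K}

theorem kun_bij (h : D.IsWeil) (X Y : V) : Function.Bijective
    (TensorProduct.lift ((LinearMap.mul K (D.H (X ⊗ Y))).compl₁₂
      (D.pull (fst X Y)).toLinearMap (D.pull (snd X Y)).toLinearMap)) := by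
  have hs : Function.Surjective
    (TensorProduct.lift ((LinearMap.mul K (D.H (X ⊗ Y))).compl₁₂
      (D.pull (fst X Y)).toLinearMap (D.pull (snd X Y)).toLinearMap)) := by
    rw [← LinearMap.range_eq_top, eq_top_iff, ← h.kunneth.span X Y, Submodule.span_le]
    rintro _ ⟨a, b, rfl⟩
    exact ⟨a ⊗ₜ b, by simp [cross, pb]⟩
  refine ⟨?_, hs⟩
  rw [LinearMap.injective_iff_surjective_of_finrank_eq_finrank]
  · exact hs
  · rw [Module.finrank_tensorProduct, h.kunneth.finrank]

/-- the associated cohomology theory -/
@[reducible] def toCoh (h : D.IsWeil) : Cohomology.{u, v, w, x} V K where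
  dim := D.dim
  H := D.H
  ringH X := (D.R X).ring
  algH X := (D.R X).alg
  finH X := (D.R X).fin
  deg := fun X => (D.R X).deg
  gradH X := (D.R X).grad
  comm := fun ha hb => (D.R _).comm _ _ _ _ ha hb
  pull := D.pull
  pull_id := h.pull.id
  pull_comp := fun f g a => h.pull.comp _ _ _ f g a
  pull_deg := fun f _ _ ha => h.pull.deg _ _ f _ _ ha
  kunneth := kun_bij h
  dim_prod := h.kunneth.dim
  tr := D.tr
  tr_deg := fun ha hi => h.trace.deg _ _ _ ha hi
  nondeg := fun hb => h.trace.duality _ _ hb
  tr_prod := fun a b => h.trace.cross _ _ a b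
  tr_iso := fun f a => h.trace.iso _ _ f a

theorem push_eq (h : D.IsWeil) {X Y : V} (z : D.H (X ⊗ Y)) :
    (toCoh h).push X Y z = D.push X Y z := by
  refine (toCoh h).kind (P := fun z => (toCoh h).push X Y z = D.push X Y z) ?_ ?_ ?_ z
  · rw [map_zero]
    exact (map_zero (D.push X Y)).symm
  · intro a b
    rw [(toCoh h).push_pure]
    exact (h.kunneth.push X Y a b).symm
  · intro a b h1 h2
    rw [map_add, h1, h2]
    exact (map_add (D.push X Y) a b).symm

/-- the associated Weil theory -/
@[reducible] def toWeil (h : D.IsWeil) : WeilTheory.{u, v, w, x} V K where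
  toCohomology := toCoh h
  C := D.C
  C_deg := h.cycle.deg
  C_one := h.cycle.one
  C_mul := fun ha hb => h.cycle.mul _ _ _ _ ha _ hb
  C_pull := fun f _ _ ha => h.functor.pull _ _ f _ _ ha
  C_push := by
    intro X Y i a ha
    rw [push_eq h]
    exact h.functor.push _ _ _ _ ha
  diag := D.diag
  diag_spec := h.diagonal.spec
  C_diag := h.diagonal.mem

theorem act_eq (h : D.IsWeil) {X Y : V} (z : D.H (X ⊗ Y)) (a : D.H X) :
    (toWeil h).act z a = D.act z a := by
  rw [(toWeil h).act_apply]
  exact push_eq h _

theorem comp_eq (h : D.IsWeil) {X Y Z : V} (z : D.H (X ⊗ Y)) (y : D.H (Y ⊗ Z)) :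
    (toWeil h).comp z y = D.comp z y := push_eq h _

theorem act_bideg (h : D.IsWeil) {X Y : V} {i j : ℕ} (hi : i ≤ 2 * D.dim X) {z : D.H (X ⊗ Y)}
    (hz : z ∈ D.bideg X Y (2 * D.dim X - i) j) {k : ℕ} (hk : k ≠ i) {a : D.H X}
    (ha : a ∈ D.deg X k) : (toWeil h).act z a = 0 := by
  unfold bideg at hz
  induction hz using Submodule.span_induction with
  | mem z hz =>
    obtain ⟨p, hp, q, _, rfl⟩ := hz
    have h1 : (toWeil h).act (D.cross p q) a = _ := (toWeil h).act_pure p q a
    rw [h1, (toWeil h).tr_mul_ne (i := k) (j := 2 * D.dim X - i) ha hp, zero_smul]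
    change _ ≠ 2 * D.dim X
    omega
  | zero => rw [(toWeil h).act_apply, mul_zero, map_zero]
  | add x y _ _ hx hy =>
    have := (toWeil h).act_add x y
    have h2 : (toWeil h).act (x + y) a = (toWeil h).act x a + (toWeil h).act y a := by
      rw [this]
      rfl
    exact h2.trans (by rw [hx, hy, add_zero])
  | smul c x _ hx =>
    have h2 : (toWeil h).act (c • x) a = c • (toWeil h).act x a := by
      rw [(toWeil h).act_smul c x]
      rfl
    exact h2.trans (by rw [hx, smul_zero])

/-- uniqueness of the Kuenneth components -/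
theorem IsKunneth.eq (h : D.IsWeil) {X : V} {p : ℕ → D.H (X ⊗ X)} (hp : D.IsKunneth X p)
    {i : ℕ} (hi : i ≤ 2 * D.dim X) : p i = (toWeil h).kunnethComponent X i := by
  apply (toWeil h).act_injective
  rw [(toWeil h).act_kunneth hi]
  ext a
  refine (toWeil h).hind (P := fun a => (toWeil h).act (p i) a = (toWeil h).proj X i a)
    (by simp) ?_ ?_ a
  · intro j a ha
    by_cases hj : j = i
    · subst hj
      rw [(toWeil h).proj_same ha]
      have h1 : (toWeil h).act (∑ k ∈ Finset.range (2 * D.dim X + 1), p k) a = a := by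
        rw [hp.2]
        have : (toWeil h).act (D.diag X) = LinearMap.id := (toWeil h).act_diag X
        rw [this]
        rfl
      have h2 : (toWeil h).act (∑ k ∈ Finset.range (2 * D.dim X + 1), p k) a =
          ∑ k ∈ Finset.range (2 * D.dim X + 1), (toWeil h).act (p k) a := by
        rw [(toWeil h).act_apply, Finset.mul_sum, map_sum]
        rfl
      rw [h2, Finset.sum_eq_single j] at h1
      · exact h1
      · intro k hk hkj
        exact act_bideg h (by rw [Finset.mem_range] at hk; omega)
          (hp.1 k (by rw [Finset.mem_range] at hk; omega)) (Ne.symm hkj) ha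
      · intro hj
        exact absurd (Finset.mem_range.mpr (by omega)) hj
    · rw [(toWeil h).proj_ne ha hj]
      exact act_bideg h hi (hp.1 i hi) hj ha
  · intro a b h1 h2
    rw [map_add, map_add, h1, h2]

theorem component_mem (h : D.IsWeil) {X Y : V} (i j : ℕ) (z : D.H (X ⊗ Y)) :
    (toWeil h).component X Y i j z ∈ D.bideg X Y i j := by
  refine (toWeil h).kind (P := fun z => (toWeil h).component X Y i j z ∈ D.bideg X Y i j)
    ?_ ?_ ?_ z
  · rw [map_zero]
    exact zero_mem _
  · intro a b
    have h1 : (toWeil h).component X Y i j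
        ((toWeil h).pull (fst X Y) a * (toWeil h).pull (snd X Y) b) =
        (toWeil h).pull (fst X Y) ((toWeil h).proj X i a) *
          (toWeil h).pull (snd X Y) ((toWeil h).proj Y j b) := by
      rw [← (toWeil h).kun_tmul, ← (toWeil h).kun_tmul]
      simp [Cohomology.component, Cohomology.proj]
    rw [h1]
    exact Submodule.subset_span ⟨_, (toWeil h).proj_mem i a, _, (toWeil h).proj_mem j b, rfl⟩
  · intro a b h1 h2
    rw [map_add]
    exact add_mem h1 h2

/-- existence of the Kuenneth components -/
theorem isKunneth (h : D.IsWeil) (X : V) :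
    D.IsKunneth X fun i => (toWeil h).kunnethComponent X i := by
  constructor
  · intro i hi
    exact component_mem h _ _ _
  · apply (toWeil h).act_injective
    have h0 : (toWeil h).act (D.diag X) = LinearMap.id := (toWeil h).act_diag X
    rw [h0]
    ext a
    have h2 : (toWeil h).act (∑ k ∈ Finset.range (2 * D.dim X + 1),
        (toWeil h).kunnethComponent X k) a =
        ∑ k ∈ Finset.range (2 * D.dim X + 1), (toWeil h).proj X k a := by
      rw [(toWeil h).act_apply, Finset.mul_sum, map_sum]
      apply Finset.sum_congr rfl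
      intro k hk
      rw [← (toWeil h).act_apply, (toWeil h).act_kunneth]
      change k ≤ 2 * D.dim X
      rw [Finset.mem_range] at hk
      omega
    refine h2.trans ?_
    refine (toWeil h).hind (P := fun a => ∑ k ∈ Finset.range (2 * D.dim X + 1),
      (toWeil h).proj X k a = LinearMap.id a) (by simp) ?_ ?_ a
    · intro i a ha
      rw [LinearMap.id_apply]
      by_cases hi : i ≤ 2 * D.dim X
      · rw [Finset.sum_eq_single i]
        · exact (toWeil h).proj_same ha
        · intro k _ hk
          exact (toWeil h).proj_ne ha (Ne.symm hk)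
        · intro h3
          exact absurd (Finset.mem_range.mpr (by omega)) h3
      · have : a = 0 := (toWeil h).deg_eq_zero ha (by
          change 2 * D.dim X < i
          omega)
        rw [this]
        simp
    · intro a b h1 h2
      simp only [map_add, Finset.sum_add_distrib, h1, h2]

theorem conjC_iff' (h : D.IsWeil) (X : V) : D.ConjC X ↔ (toWeil h).ConjC X := by
  constructor
  · rintro ⟨p, hp, hC⟩ i hi
    rw [← hp.eq h hi]
    exact hC i hi
  · intro hC
    exact ⟨_, isKunneth h X, fun i hi => hC i hi⟩

end WeilData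

end Pool.KC
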