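import Mathlib

/-!
# Weil cohomology theories

`GrAlg K`: finite-dimensional graded-commutative graded algebras over the field `K`.

`WeilData V K`: the data of a Weil cohomology theory with coefficients in `K` on a category `V`
with finite products (the category of smooth projective varieties over an algebraically closed
field).

`WeilData.IsWeil`: the axioms.
-/

open CategoryTheory MonoidalCategory CartesianMonoidalCategory

universe u v w x y

namespace Pool.KC

/-- A finite-dimensional graded algebra over `K`, graded-commutative. -/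
structure GrAlg (K : Type x) [Field K] where
  A : Type w
  [ring : Ring A]
  [alg : Algebra K A]
  [fin : FiniteDimensional K A]
  /-- the elements of degree `i` -/
  deg : ℕ → Submodule K A
  [grad : GradedAlgebra deg]
  comm : ∀ (i j : ℕ) (a b : A), a ∈ deg i → b ∈ deg j → a * b = (-1) ^ (i * j) * (b * a)

namespace GrAlg

variable {K : Type x} [Field K] (R : GrAlg.{w, x} K)

instance instRing : Ring R.A := R.ring
instance instSemiring : Semiring R.A := inferInstance
instance instAlgebra : Algebra K R.A := R.alg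
instance instAddCommMonoid : AddCommMonoid R.A := inferInstance
instance instModule : Module K R.A := inferInstance
instance instZero : Zero R.A := inferInstance
instance instOne : One R.A := inferInstance
instance instMul : Mul R.A := inferInstance
instance instFinite : FiniteDimensional K R.A := R.fin
instance instGraded : GradedAlgebra R.deg := R.grad

end GrAlg

section

variable {V : Type u} [Category.{v} V] [CartesianMonoidalCategory V]

/-- the power `X^m` -/
def pw (X : V) : ℕ → V
  | 0 => 𝟙_ V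
  | m + 1 => X ⊗ pw X m

/-- the projections `X^m → X` -/
def pr (X : V) : (m : ℕ) → Fin m → (pw X m ⟶ X)
  | m + 1, i => Fin.cases (fst X (pw X m)) (fun j => snd X (pw X m) ≫ pr X m j) i

end

/-- The data of a Weil cohomology theory: `R X` is the cohomology algebra `H(X)`, `tr` the
trace (orientation), `push X Y` the push-forward along the projection `X × Y → Y`, `C X i`
the `K`-span of the classes of algebraic cycles of codimension `i` on `X`, and `diag X` the
class of the diagonal. -/
structure WeilData (V : Type u) [Category.{v} V] [CartesianMonoidalCategory V]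
    (K : Type x) [Field K] where
  dim : V → ℕ
  R : V → GrAlg.{w, x} K
  pull : ∀ {X Y : V}, (X ⟶ Y) → ((R Y).A →ₐ[K] (R X).A)
  tr : ∀ X : V, (R X).A →ₗ[K] K
  push : ∀ X Y : V, (R (X ⊗ Y)).A →ₗ[K] (R Y).A
  C : ∀ X : V, ℕ → Submodule K (R X).A
  diag : ∀ X : V, (R (X ⊗ X)).A

namespace WeilData

variable {V : Type u} [Category.{v} V] [CartesianMonoidalCategory V] {K : Type x} [Field K]
variable (D : WeilData.{u, v, w, x} V K)

/-- the cohomology `H(X)` -/
abbrev H (X : V) : Type w := (D.R X).A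

/-- the cohomology `H^i(X)` -/
abbrev deg (X : V) (i : ℕ) : Submodule K (D.H X) := (D.R X).deg i

/-- pull-back of classes -/
def pb {X Y : V} (f : X ⟶ Y) (a : D.H Y) : D.H X := D.pull f a

/-- push-forward of classes along the projection `X × Y → Y` -/
def pf {X Y : V} (z : D.H (X ⊗ Y)) : D.H Y := D.push X Y z

/-- the trace (degree) of a class -/
def int {X : V} (a : D.H X) : K := D.tr X a

/-- The product class `a × b = pr₁^* a * pr₂^* b` on `X × Y`. -/
def cross {X Y : V} (a : D.H X) (b : D.H Y) : D.H (X ⊗ Y) :=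
  D.pb (fst X Y) a * D.pb (snd X Y) b

/-- The span `H^i(X) ⊗ H^j(Y)` of the classes `a × b`, for `a` of degree `i` and `b` of
degree `j`. -/
def bideg (X Y : V) (i j : ℕ) : Submodule K (D.H (X ⊗ Y)) :=
  Submodule.span K {t | ∃ a ∈ D.deg X i, ∃ b ∈ D.deg Y j, D.cross a b = t}

/-- `H` is a contravariant functor to graded algebras. -/
structure PullAxioms : Prop where
  id : ∀ (X : V) (a : D.H X), D.pb (𝟙 X) a = a
  comp : ∀ (X Y Z : V) (f : X ⟶ Y) (g : Y ⟶ Z) (a : D.H Z), D.pb (f ≫ g) a = D.pb f (D.pb g a)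
  deg : ∀ (X Y : V) (f : X ⟶ Y) (i : ℕ) (a : D.H Y), a ∈ D.deg Y i → D.pb f a ∈ D.deg X i

/-- The Kuenneth formula: `H(X) ⊗ H(Y) → H(X × Y)` is surjective and both sides have the same
dimension; and `push` is `tr ⊗ id`. -/
structure KunnethAxioms : Prop where
  dim : ∀ X Y : V, D.dim (X ⊗ Y) = D.dim X + D.dim Y
  span : ∀ X Y : V, Submodule.span K {t | ∃ (a : D.H X) (b : D.H Y), D.cross a b = t} = ⊤
  finrank : ∀ X Y : V,
    Module.finrank K (D.H (X ⊗ Y)) = Module.finrank K (D.H X) * Module.finrank K (D.H Y)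
  push : ∀ (X Y : V) (a : D.H X) (b : D.H Y), D.pf (D.cross a b) = D.int a • b

/-- The trace lives in the top degree, satisfies Poincare duality, is compatible with
products and invariant under isomorphisms. -/
structure TraceAxioms : Prop where
  deg : ∀ (X : V) (i : ℕ) (a : D.H X), a ∈ D.deg X i → i ≠ 2 * D.dim X → D.int a = 0
  duality : ∀ (X : V) (a : D.H X), (∀ b : D.H X, D.int (b * a) = 0) → a = 0
  cross : ∀ (X Y : V) (a : D.H X) (b : D.H Y), D.int (D.cross a b) = D.int a * D.int b
  iso : ∀ (X Y : V) (f : X ≅ Y) (a : D.H Y), D.int (D.pb f.hom a) = D.int a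

/-- The algebraic classes of codimension `i` have degree `2 i` and are stable under
products. -/
structure CycleAxioms : Prop where
  deg : ∀ (X : V) (i : ℕ), D.C X i ≤ D.deg X (2 * i)
  one : ∀ X : V, 1 ∈ D.C X 0
  mul : ∀ (X : V) (i j : ℕ), ∀ a ∈ D.C X i, ∀ b ∈ D.C X j, a * b ∈ D.C X (i + j)

/-- Pull-backs, and push-forwards along projections, of algebraic classes are algebraic. -/
structure FunctorAxioms : Prop where
  pull : ∀ (X Y : V) (f : X ⟶ Y) (i : ℕ), ∀ a ∈ D.C Y i, D.pb f a ∈ D.C X i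
  push : ∀ (X Y : V) (i : ℕ), ∀ z ∈ D.C (X ⊗ Y) (D.dim X + i), D.pf z ∈ D.C Y i

/-- The class of the diagonal is algebraic and is the push-forward of `1` along the diagonal
map. -/
structure DiagonalAxioms : Prop where
  mem : ∀ X : V, D.diag X ∈ D.C (X ⊗ X) (D.dim X)
  spec : ∀ (X : V) (z : D.H (X ⊗ X)), D.int (z * D.diag X) = D.int (D.pb (lift (𝟙 X) (𝟙 X)) z)

/-- The axioms of a Weil cohomology theory. -/
structure IsWeil : Prop where
  pull : D.PullAxioms
  kunneth : D.KunnethAxioms
  trace : D.TraceAxioms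
  cycle : D.CycleAxioms
  functor : D.FunctorAxioms
  diagonal : D.DiagonalAxioms

/-- The action `a ↦ pr₂_* (pr₁^* a * z)` of a class `z` on `X × Y` as a correspondence. -/
def act {X Y : V} (z : D.H (X ⊗ Y)) (a : D.H X) : D.H Y :=
  D.pf (D.pb (fst X Y) a * z)

/-- Composition of correspondences. -/
def comp {X Y Z : V} (z : D.H (X ⊗ Y)) (y : D.H (Y ⊗ Z)) : D.H (X ⊗ Z) :=
  D.pf (D.pb (lift (snd Y (X ⊗ Z) ≫ fst X Z) (fst Y (X ⊗ Z))) z *
    D.pb (lift (fst Y (X ⊗ Z)) (snd Y (X ⊗ Z) ≫ snd X Z)) y)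

/-- `p i`, for `i ≤ 2 dim X`, are the Kuenneth components of the diagonal of `X`. -/
def IsKunneth (X : V) (p : ℕ → D.H (X ⊗ X)) : Prop :=
  (∀ i ≤ 2 * D.dim X, p i ∈ D.bideg X X (2 * D.dim X - i) i) ∧
    ∑ i ∈ Finset.range (2 * D.dim X + 1), p i = D.diag X

/-- The Kuenneth standard conjecture `C(X)`: the Kuenneth components of the diagonal of `X`
are algebraic. -/
def ConjC (X : V) : Prop :=
  ∃ p : ℕ → D.H (X ⊗ X), D.IsKunneth X p ∧ ∀ i ≤ 2 * D.dim X, p i ∈ D.C (X ⊗ X) (D.dim X)

/-- The class `a_1 × ... × a_m = pr_1^* a_1 * ... * pr_m^* a_m` on `X^m`. -/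
def tens {X : V} {m : ℕ} (a : Fin m → D.H X) : D.H (pw X m) :=
  (List.ofFn fun j => D.pb (pr X m j) (a j)).prod

/-- The class `a_1 ∧ ... ∧ a_m = ∑ sign(σ) a_σ(1) × ... × a_σ(m)` on `X^m`. -/
def wedge {X : V} {m : ℕ} (a : Fin m → D.H X) : D.H (pw X m) :=
  ∑ σ : Equiv.Perm (Fin m), (Equiv.Perm.sign σ : ℤ) • D.tens fun j => a (σ j)

/-- The dimension of `H^i(X)`. -/
noncomputable def betti (X : V) (i : ℕ) : ℕ := Module.finrank K (D.deg X i)

/-- Some power `(det H^n(X))^{⊗ m}`, `m ≥ 1`, of the determinant line of `H^n(X)` is spanned by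
an algebraic class: with `b = dim H^n(X)`, there are classes `a_1, ..., a_b` in `H^n(X)` such
that `a_1 ∧ ... ∧ a_b` is a nonzero class on `X^b` whose `m`-th exterior tensor power is an
algebraic class on `(X^b)^m`. -/
def DetPowerAlgebraic (X : V) (n : ℕ) : Prop :=
  ∃ m ≥ 1, ∃ a : Fin (D.betti X n) → D.H X,
    (∀ j, a j ∈ D.deg X n) ∧ D.wedge a ≠ 0 ∧
      ∃ k, D.tens (fun _ : Fin m => D.wedge a) ∈ D.C (pw (pw X (D.betti X n)) m) k

/-- `z` and `z'` have the same intersection numbers with all algebraic classes of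
codimension `i` -/
def NumEq {X : V} (i : ℕ) (z z' : D.H X) : Prop :=
  ∀ y ∈ D.C X i, D.int (z * y) = D.int (z' * y)

/-- The action of a correspondence, as a linear map. -/
def actHom {X Y : V} (z : D.H (X ⊗ Y)) : D.H X →ₗ[K] D.H Y :=
  D.push X Y ∘ₗ LinearMap.mulRight K z ∘ₗ (D.pull (fst X Y)).toLinearMap

/-- The trace on `H^i(X)` of a self-correspondence of `X`. -/
noncomputable def traceOn {X : V} (i : ℕ) (z : D.H (X ⊗ X)) : K :=
  LinearMap.trace K (D.H X) (D.actHom z ∘ₗ GradedAlgebra.proj (D.R X).deg i)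

end WeilData

/-- Groups of cycles with rational coefficients (for instance Chow groups) with intersection
product, pull-back, push-forward along projections, and the diagonals.  No axioms are
needed. -/
structure CycleTheory (V : Type u) [Category.{v} V] [CartesianMonoidalCategory V] where
  dim : V → ℕ
  /-- cycles of codimension `i` with rational coefficients -/
  Z : V → ℕ → Type y
  [addZ : ∀ X i, AddCommGroup (Z X i)]
  [modZ : ∀ X i, Module ℚ (Z X i)]
  mul : ∀ {X : V} {i j : ℕ}, Z X i → Z X j → Z X (i + j)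
  pull : ∀ {X Y : V} (_ : X ⟶ Y) {i : ℕ}, Z Y i → Z X i
  push : ∀ (X Y : V) (i : ℕ), Z (X ⊗ Y) (dim X + i) → Z Y i
  diag : ∀ X : V, Z (X ⊗ X) (dim X)

attribute [instance] CycleTheory.addZ CycleTheory.modZ

section

variable {V : Type u} [Category.{v} V] [CartesianMonoidalCategory V]
  (Z : CycleTheory.{u, v, y} V) {K : Type x} [Field K] (D : WeilData.{u, v, w, x} V K)

/-- The maps `cl X i : Z^i(X) → H(X)` are `ℚ`-linear, with `K`-span `C X i`. -/
structure ClassSpan (cl : ∀ (X : V) (i : ℕ), Z.Z X i → D.H X) : Prop where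
  dim : ∀ X, Z.dim X = D.dim X
  add : ∀ (X : V) (i : ℕ) (a b : Z.Z X i), cl X i (a + b) = cl X i a + cl X i b
  smul : ∀ (X : V) (i : ℕ) (q : ℚ) (a : Z.Z X i), cl X i (q • a) = (q : K) • cl X i a
  span : ∀ (X : V) (i : ℕ), Submodule.span K (Set.range (cl X i)) = D.C X i

/-- The maps `cl X i : Z^i(X) → H(X)` are compatible with products, pull-backs, push-forwards
along projections and diagonals. -/
structure ClassCompat (cl : ∀ (X : V) (i : ℕ), Z.Z X i → D.H X) : Prop where
  mul : ∀ (X : V) (i j : ℕ) (a : Z.Z X i) (b : Z.Z X j),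
    cl X (i + j) (Z.mul a b) = cl X i a * cl X j b
  pull : ∀ (X Y : V) (f : X ⟶ Y) (i : ℕ) (a : Z.Z Y i), cl X i (Z.pull f a) = D.pb f (cl Y i a)
  push : ∀ (X Y : V) (i : ℕ) (a : Z.Z (X ⊗ Y) (Z.dim X + i)),
    cl Y i (Z.push X Y i a) = D.pf (cl (X ⊗ Y) (Z.dim X + i) a)
  diag : ∀ X : V, cl (X ⊗ X) (Z.dim X) (Z.diag X) = D.diag X

/-- A cycle class map from `Z` to `D`. -/
structure CycleClassMap where
  cl : ∀ (X : V) (i : ℕ), Z.Z X i → D.H X
  span : ClassSpan Z D cl
  compat : ClassCompat Z D cl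

end

end Pool.KC
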