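import Pool.Agent.Work.MP_a60482_kc.Indep

/-!
Families of representations of one ring of correspondences: uniform exponents and rational
projectors.
-/

namespace Pool.KC

section Single

variable {K H : Type*} [Field K] [AddCommGroup H] [Module K H] [FiniteDimensional K H]

theorem pow_eq_zero_of_nilpotent {g : Module.End K H} (h : IsNilpotent g) {d : ℕ}
    (hd : Module.finrank K H ≤ d) : g ^ d = 0 := by
  have h1 : g ^ Module.finrank K H = 0 := by
    have h2 := LinearMap.aeval_self_charpoly g
    rw [IsNilpotent.charpoly_eq_X_pow_finrank h, map_pow, Polynomial.aeval_X] at h2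
    exact h2
  exact pow_eq_zero_of_le hd h1

variable {p : ℕ → Module.End K H} {M : ℕ}

/-- the polynomial `1 - (1 - z ^ d) ^ d` in `z` is the projector `p j` as soon as `d` is
larger than the dimension -/
theorem pow_eq_proj [CharZero K] (hp : Projs p M) (A : Subalgebra K (Module.End K H))
    (hc : ∀ f ∈ A, ∀ i, f * p i = p i * f) {z : Module.End K H} (hz : z ∈ A) (j : ℕ)
    (h : ∀ i < M, ∀ f ∈ A, LinearMap.trace K H (z * f * p i) =
      if i = j then LinearMap.trace K H (f * p i) else 0) (hj : j < M) {d : ℕ}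
    (hd : Module.finrank K H < d) : 1 - (1 - z ^ d) ^ d = p j := by
  classical
  have hgA : ∀ i : ℕ, (z - if i = j then 1 else 0) ∈ A := by
    intro i
    split_ifs
    · exact sub_mem hz (one_mem _)
    · exact sub_mem hz (zero_mem _)
  have hnil : ∀ i < M, IsNilpotent ((z - if i = j then 1 else 0) * p i) := by
    intro i hi
    set g : Module.End K H := z - if i = j then 1 else 0 with hg
    have hgA : g ∈ A := hgA i
    apply isNilpotent_of_trace
    intro k hk
    rw [commute_pow_proj (hc g hgA i) (hp.idem i) k hk]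
    obtain ⟨l, rfl⟩ : ∃ l, k = l + 1 := ⟨k - 1, by omega⟩
    rw [pow_succ']
    have h1 := h i hi (g ^ l) (pow_mem hgA l)
    rw [hg, sub_mul, sub_mul, map_sub, ← hg, h1]
    split_ifs with hij
    · rw [one_mul, sub_self]
    · simp
  have hd1 : 1 ≤ d := by omega
  have hnd : ∀ i < M, (z - if i = j then 1 else 0) ^ d * p i = 0 := by
    intro i hi
    rw [← commute_pow_proj (hc _ (hgA i) i) (hp.idem i) d hd1]
    exact pow_eq_zero_of_nilpotent (hnil i hi) hd.le
  have hFp : ∀ i < M, (1 - (1 - z ^ d) ^ d) * p i = if i = j then p i else 0 := by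
    intro i hi
    by_cases hij : i = j
    · have h1 := hnd i hi
      rw [if_pos hij] at h1
      rw [if_pos hij, sub_mul, one_mul]
      have h2 : (1 - z ^ d) ^ d * p i = 0 := by
        have h3 : ∃ w : Module.End K H, 1 - z ^ d = w * (z - 1) ∧ Commute w (z - 1) := by
          refine ⟨- ∑ k ∈ Finset.range d, z ^ k, ?_, ?_⟩
          · rw [neg_mul, geom_sum_mul]
            abel
          · apply Commute.neg_left
            apply Commute.sub_right
            · exact Commute.sum_left _ _ _ fun k _ => (Commute.refl z).pow_left k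
            · exact Commute.one_right _
        obtain ⟨w, hw, hcomm⟩ := h3
        rw [hw, hcomm.mul_pow, mul_assoc, h1, mul_zero]
      rw [h2, sub_zero]
    · have h1 := hnd i hi
      rw [if_neg hij, sub_zero] at h1
      rw [if_neg hij, sub_mul, one_mul]
      have h2 : ∀ k : ℕ, (1 - z ^ d) ^ k * p i = p i := by
        intro k
        induction k with
        | zero => simp
        | succ k ih =>
          rw [pow_succ, mul_assoc, sub_mul, one_mul, h1, sub_zero, ih]
      rw [h2, sub_self]
  calc 1 - (1 - z ^ d) ^ d = (1 - (1 - z ^ d) ^ d) * ∑ i ∈ Finset.range M, p i := by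
        rw [hp.sum, mul_one]
    _ = ∑ i ∈ Finset.range M, if i = j then p i else 0 := by
        rw [Finset.mul_sum]
        exact Finset.sum_congr rfl fun i hi => hFp i (Finset.mem_range.mp hi)
    _ = p j := by
        rw [Finset.sum_ite_eq' (Finset.range M) j p, if_pos (Finset.mem_range.mpr hj)]

/-- the same for a multiplicatively closed set -/
theorem pow_eq_of_span [CharZero K] (hp : Projs p M)
    (S : Set (Module.End K H)) (h1 : 1 ∈ S) (hm : ∀ a ∈ S, ∀ b ∈ S, a * b ∈ S)
    (hc : ∀ r ∈ S, ∀ i, r * p i = p i * r) {z : Module.End K H} (hz : z ∈ S) (j : ℕ)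
    (hj : j < M) (h : ∀ i < M, ∀ f ∈ S, LinearMap.trace K H (z * f * p i) =
      if i = j then LinearMap.trace K H (f * p i) else 0) {d : ℕ}
    (hd : Module.finrank K H < d) : 1 - (1 - z ^ d) ^ d = p j := by
  apply pow_eq_proj hp (spanAlg (K := K) S h1 hm) _ _ j _ hj hd
  · intro f hf i
    rw [mem_spanAlg] at hf
    induction hf using Submodule.span_induction with
    | mem f hf => exact hc f hf i
    | zero => simp
    | add b c _ _ h1 h2 => rw [add_mul, mul_add, h1, h2]
    | smul k b _ h => rw [smul_mul_assoc, mul_smul_comm, h]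
  · exact Submodule.subset_span hz
  · intro i hi f hf
    rw [mem_spanAlg] at hf
    induction hf using Submodule.span_induction with
    | mem f hf => exact h i hi f hf
    | zero => simp
    | add b c _ _ h1 h2 =>
      rw [mul_add, add_mul, map_add, h1, h2, add_mul, map_add]
      split_ifs <;> simp
    | smul k b _ h =>
      rw [mul_smul_comm, smul_mul_assoc, map_smul, h, smul_mul_assoc, map_smul]
      split_ifs <;> simp

/-- the coarser system `∑ i ∈ S, p i`, `1 - ∑ i ∈ S, p i` -/
def coarse (p : ℕ → Module.End K H) (S : Finset ℕ) (k : ℕ) : Module.End K H :=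
  if k = 0 then ∑ i ∈ S, p i else if k = 1 then 1 - ∑ i ∈ S, p i else 0

omit [FiniteDimensional K H] in
theorem Projs.sum_mul_sum (hp : Projs p M) (S : Finset ℕ) :
    (∑ i ∈ S, p i) * ∑ i ∈ S, p i = ∑ i ∈ S, p i := by
  classical
  rw [Finset.sum_mul]
  refine Finset.sum_congr rfl fun i hi => ?_
  rw [Finset.mul_sum, Finset.sum_eq_single i]
  · exact hp.idem i
  · intro j _ hj
    exact hp.orth i j (Ne.symm hj)
  · intro h
    exact absurd hi h

omit [FiniteDimensional K H] in
theorem Projs.coarse (hp : Projs p M) (S : Finset ℕ) : Projs (coarse p S) 2 where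
  idem i := by
    unfold Pool.KC.coarse
    split_ifs
    · exact hp.sum_mul_sum S
    · rw [mul_sub, sub_mul, sub_mul, hp.sum_mul_sum S]
      simp
    · simp
  orth i j hij := by
    unfold Pool.KC.coarse
    split_ifs
    · omega
    · rw [mul_sub, hp.sum_mul_sum S]
      simp
    · simp
    · rw [sub_mul, hp.sum_mul_sum S]
      simp
    · omega
    · simp
    · simp
    · simp
    · simp
  sum := by
    rw [Finset.sum_range_succ, Finset.sum_range_one]
    unfold Pool.KC.coarse
    rw [if_pos rfl, if_neg one_ne_zero, if_pos rfl]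
    abel

end Single

section Family

universe z x w

variable {ι : Type z} {K : ι → Type x} {H : ι → Type w} [∀ l, Field (K l)]
  [∀ l, AddCommGroup (H l)] [∀ l, Module (K l) (H l)] [∀ l, FiniteDimensional (K l) (H l)]
  [∀ l, CharZero (K l)] {p : ∀ l, ℕ → Module.End (K l) (H l)} {M : ℕ}

/-- the dimension does not depend on the member of the family -/
theorem finrank_eq_of_traces (hp : ∀ l, Projs (p l) M)
    (htr : ∀ i < M, ∃ q : ℚ, ∀ l, LinearMap.trace (K l) (H l) (p l i) = (q : K l)) (l o : ι) :
    Module.finrank (K l) (H l) = Module.finrank (K o) (H o) := by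
  have hex : ∀ i : ℕ, ∃ q : ℚ, i < M → ∀ l, LinearMap.trace (K l) (H l) (p l i) = (q : K l) := by
    intro i
    by_cases hi : i < M
    · obtain ⟨q, hq⟩ := htr i hi
      exact ⟨q, fun _ => hq⟩
    · exact ⟨0, fun h => absurd h hi⟩
  choose q hq using hex
  have h1 : ∀ l, ((Module.finrank (K l) (H l) : ℚ)) = ∑ i ∈ Finset.range M, q i := by
    intro l
    have h2 : ((Module.finrank (K l) (H l) : ℕ) : K l) =
        ∑ i ∈ Finset.range M, ((q i : ℚ) : K l) := by
      rw [← LinearMap.trace_one (R := K l) (M := H l), ← (hp l).sum, map_sum]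
      exact Finset.sum_congr rfl fun i hi => hq i (Finset.mem_range.mp hi) l
    have h3 : (((Module.finrank (K l) (H l) : ℚ)) : K l) =
        ((∑ i ∈ Finset.range M, q i : ℚ) : K l) := by
      push_cast
      exact h2
    exact Rat.cast_injective h3
  have h4 := (h1 l).trans (h1 o).symm
  exact_mod_cast h4

/-- Let `R` be a ring of families of endomorphisms, closed under multiplication by rational
numbers, with rational traces, independent of the member, on the pieces of the gradings.  If
for one member `o` the projector `p o j` lies in the span of the components of the elements of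
`R`, then the family of the projectors `p l j` lies in `R`. -/
theorem fam_mem (hp : ∀ l, Projs (p l) M) (R : Subring (∀ l, Module.End (K l) (H l)))
    (hRq : ∀ (q : ℚ), ∀ r ∈ R, (fun l => (q : K l) • r l) ∈ R)
    (hc : ∀ r ∈ R, ∀ l i, r l * p l i = p l i * r l)
    (htr : ∀ r ∈ R, ∀ i < M, ∃ q : ℚ, ∀ l,
      LinearMap.trace (K l) (H l) (r l * p l i) = (q : K l))
    (j : ℕ) (hj : j < M) (o : ι) (h : p o j ∈ Submodule.span (K o)
      ((fun r : ∀ l, Module.End (K l) (H l) => r o) '' (R : Set (∀ l, Module.End (K l) (H l))))) :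
    (fun l => p l j) ∈ R := by
  classical
  obtain ⟨ρ, hρ⟩ := exists_retraction (K o)
  have hρm : ∀ (k : K o) (q : ℚ), ρ (k * (q : K o)) = ρ k * q := by
    intro k q
    have : k * (q : K o) = q • k := by
      rw [Rat.smul_def, mul_comm]
    rw [this, map_smul, smul_eq_mul, mul_comm]
  rw [Finsupp.mem_span_image_iff_linearCombination] at h
  obtain ⟨c, hcR, hcp⟩ := h
  have hlR : ∀ m ∈ c.support, m ∈ R := fun m hm => hcR hm
  -- the rational element
  set x : ∀ l, Module.End (K l) (H l) :=
    ∑ m ∈ c.support, (fun l => ((ρ (c m) : ℚ) : K l) • m l) with hx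
  have hxR : x ∈ R := sum_mem fun m hm => hRq _ m (hlR m hm)
  have hxl : ∀ l, x l = ∑ m ∈ c.support, ((ρ (c m) : ℚ) : K l) • m l := by
    intro l
    rw [hx, Finset.sum_apply]
  have hpj : p o j = ∑ m ∈ c.support, c m • m o := by
    rw [← hcp, Finsupp.linearCombination_apply]
    rfl
  have hkey : ∀ i < M, ∀ s ∈ R, ∀ l, LinearMap.trace (K l) (H l) (x l * s l * p l i) =
      if i = j then LinearMap.trace (K l) (H l) (s l * p l i) else 0 := by
    intro i hi s hs
    obtain ⟨q, hq⟩ := htr s hs i hi
    have hex : ∀ m : (∀ l, Module.End (K l) (H l)), ∃ t : ℚ, m ∈ c.support →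
        ∀ l, LinearMap.trace (K l) (H l) (m l * s l * p l i) = (t : K l) := by
      intro m
      by_cases hm : m ∈ c.support
      · obtain ⟨t, ht⟩ := htr (m * s) (mul_mem (hlR m hm) hs) i hi
        exact ⟨t, fun _ => ht⟩
      · exact ⟨0, fun h => absurd h hm⟩
    choose t ht using hex
    have h1 : ∑ m ∈ c.support, c m * (t m : K o) = if i = j then (q : K o) else 0 := by
      have h2 : LinearMap.trace (K o) (H o) (p o j * s o * p o i) =
          if i = j then (q : K o) else 0 := by
        rw [mul_assoc, hc s hs o i, ← mul_assoc]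
        by_cases hij : i = j
        · subst hij
          rw [(hp o).idem, ← hc s hs o i, hq, if_pos rfl]
        · rw [(hp o).orth j i (Ne.symm hij), zero_mul, map_zero, if_neg hij]
      rw [← h2, hpj, Finset.sum_mul, Finset.sum_mul, map_sum]
      apply Finset.sum_congr rfl
      intro m hm
      rw [smul_mul_assoc, smul_mul_assoc, map_smul, ht m hm o, smul_eq_mul]
    have h3 : ∑ m ∈ c.support, ρ (c m) * t m = if i = j then q else 0 := by
      have := congrArg ρ h1
      rw [map_sum] at this
      rw [Finset.sum_congr rfl fun m _ => (hρm (c m) (t m)).symm, this]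
      split_ifs
      · exact hρ q
      · exact map_zero ρ
    intro l
    rw [hxl, Finset.sum_mul, Finset.sum_mul, map_sum, hq l]
    have : ∀ m ∈ c.support, LinearMap.trace (K l) (H l)
        (((ρ (c m) : ℚ) : K l) • m l * s l * p l i) = ((ρ (c m) * t m : ℚ) : K l) := by
      intro m hm
      rw [smul_mul_assoc, smul_mul_assoc, map_smul, ht m hm l, smul_eq_mul]
      push_cast
      rfl
    rw [Finset.sum_congr rfl this, ← Rat.cast_sum, h3]
    split_ifs <;> simp
  have hfin : ∀ l, Module.finrank (K l) (H l) < Module.finrank (K o) (H o) + 1 := by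
    intro l
    rw [finrank_eq_of_traces hp (fun i hi => ?_) l o]
    · omega
    · obtain ⟨q, hq⟩ := htr 1 (one_mem R) i hi
      refine ⟨q, fun l => ?_⟩
      rw [← hq l, Pi.one_apply, one_mul]
  have hpow : ∀ l, 1 - (1 - x l ^ (Module.finrank (K o) (H o) + 1)) ^
      (Module.finrank (K o) (H o) + 1) = p l j := by
    intro l
    refine pow_eq_of_span (hp l)
      ((fun r : ∀ l, Module.End (K l) (H l) => r l) '' (R : Set (∀ l, Module.End (K l) (H l))))
      ⟨1, one_mem R, rfl⟩ ?_ ?_ ⟨x, hxR, rfl⟩ j hj ?_ (hfin l)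
    · rintro _ ⟨a, ha, rfl⟩ _ ⟨b, hb, rfl⟩
      exact ⟨a * b, mul_mem ha hb, rfl⟩
    · rintro _ ⟨a, ha, rfl⟩ i
      exact hc a ha l i
    · rintro i hi _ ⟨s, hs, rfl⟩
      exact hkey i hi s hs l
  have hF : 1 - (1 - x ^ (Module.finrank (K o) (H o) + 1)) ^ (Module.finrank (K o) (H o) + 1) ∈ R :=
    sub_mem (one_mem _) (pow_mem (sub_mem (one_mem _) (pow_mem hxR _)) _)
  have hfun : 1 - (1 - x ^ (Module.finrank (K o) (H o) + 1)) ^
      (Module.finrank (K o) (H o) + 1) = fun l => p l j := by
    funext l
    exact hpow l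
  rwa [hfun] at hF

/-- The same for partial sums of the projectors. -/
theorem fam_sum_mem (hp : ∀ l, Projs (p l) M) (R : Subring (∀ l, Module.End (K l) (H l)))
    (hRq : ∀ (q : ℚ), ∀ r ∈ R, (fun l => (q : K l) • r l) ∈ R)
    (hc : ∀ r ∈ R, ∀ l i, r l * p l i = p l i * r l)
    (htr : ∀ r ∈ R, ∀ i < M, ∃ q : ℚ, ∀ l,
      LinearMap.trace (K l) (H l) (r l * p l i) = (q : K l))
    (S : Finset ℕ) (hS : S ⊆ Finset.range M) (o : ι) (h : ∑ i ∈ S, p o i ∈ Submodule.span (K o)
      ((fun r : ∀ l, Module.End (K l) (H l) => r o) '' (R : Set (∀ l, Module.End (K l) (H l))))) :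
    (fun l => ∑ i ∈ S, p l i) ∈ R := by
  classical
  have hsumtr : ∀ (A : Finset ℕ), A ⊆ Finset.range M → ∀ r ∈ R, ∃ q : ℚ, ∀ l,
      LinearMap.trace (K l) (H l) (r l * ∑ i ∈ A, p l i) = (q : K l) := by
    intro A hA r hr
    have hex : ∀ i : ℕ, ∃ q : ℚ, i ∈ A → ∀ l,
        LinearMap.trace (K l) (H l) (r l * p l i) = (q : K l) := by
      intro i
      by_cases hi : i ∈ A
      · obtain ⟨q, hq⟩ := htr r hr i (Finset.mem_range.mp (hA hi))
        exact ⟨q, fun _ => hq⟩
      · exact ⟨0, fun h => absurd h hi⟩
    choose q hq using hex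
    refine ⟨∑ i ∈ A, q i, fun l => ?_⟩
    rw [Finset.mul_sum, map_sum, Rat.cast_sum]
    exact Finset.sum_congr rfl fun i hi => hq i hi l
  have hcS : ∀ r ∈ R, ∀ l, r l * ∑ i ∈ S, p l i = (∑ i ∈ S, p l i) * r l := by
    intro r hr l
    rw [Finset.mul_sum, Finset.sum_mul]
    exact Finset.sum_congr rfl fun i _ => hc r hr l i
  have h1 := fam_mem (p := fun l => coarse (p l) S) (M := 2) (fun l => (hp l).coarse S) R hRq
    (by
      intro r hr l i
      simp only [coarse]
      split_ifs
      · exact hcS r hr l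
      · rw [mul_sub, sub_mul, hcS r hr l, mul_one, one_mul]
      · simp) (by
      intro r hr i hi
      obtain ⟨q, hq⟩ := hsumtr S hS r hr
      obtain ⟨t, ht⟩ := hsumtr (Finset.range M) subset_rfl r hr
      simp only [coarse]
      by_cases h0 : i = 0
      · refine ⟨q, fun l => ?_⟩
        rw [if_pos h0, hq l]
      · refine ⟨t - q, fun l => ?_⟩
        rw [if_neg h0, if_pos (by omega), mul_sub, map_sub, hq l]
        have := ht l
        rw [(hp l).sum] at this
        rw [this]
        push_cast
        rfl) 0 (by norm_num) o (by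
      simp only [coarse, if_true]
      exact h)
  simpa only [coarse, if_true] using h1

end Family

end Pool.KC
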