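import Pool.Agent.Work.MP_a60482_kc.Final
import Pool.Agent.Work.MP_a60482_kc.FamAlg

/-!
One rational cycle for a family of Weil cohomology theories.
-/

open CategoryTheory MonoidalCategory CartesianMonoidalCategory

universe u v w x y z

namespace Pool.KC

section

variable {V : Type u} [Category.{v} V] [CartesianMonoidalCategory V] {Z : CycleTheory.{u, v, y} V}
  {ι : Type z} {K : ι → Type x} [∀ l, Field (K l)] {T : ∀ l, WeilTheory.{u, v, w, x} V (K l)}
  (c : ∀ l, CycleClass Z (T l))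

/-- families of actions of cycles -/
def fams (X : V) : Subring (∀ l, Module.End (K l) ((T l).H X)) where
  carrier := {r | ∃ a : Z.Z (X ⊗ X) (Z.dim X), r = fun l => (T l).act ((c l).cl _ _ a)}
  mul_mem' := by
    rintro _ _ ⟨a, rfl⟩ ⟨b, rfl⟩
    refine ⟨Z.comp b a, ?_⟩
    funext l
    rw [Pi.mul_apply, (c l).cl_comp, (T l).act_comp]
    rfl
  one_mem' := by
    refine ⟨Z.diag X, ?_⟩
    funext l
    rw [(c l).cl_diag, (T l).act_diag]
    rfl
  add_mem' := by
    rintro _ _ ⟨a, rfl⟩ ⟨b, rfl⟩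
    refine ⟨a + b, ?_⟩
    funext l
    rw [Pi.add_apply, map_add, (T l).act_add]
  zero_mem' := by
    refine ⟨0, ?_⟩
    funext l
    rw [map_zero, (T l).act_zero]
    rfl
  neg_mem' := by
    rintro _ ⟨a, rfl⟩
    refine ⟨-a, ?_⟩
    funext l
    rw [Pi.neg_apply, map_neg]
    ext b
    simp [Cohomology.act_apply]

/-- if a sum of Kuenneth components is algebraic for one member of the family, then it is the
class of one rational cycle for all members -/
theorem exists_cycle_of_traces [∀ l, CharZero (K l)] (X : V)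
    (h : ∀ (a : Z.Z (X ⊗ X) (Z.dim X)) (i : ℕ), ∃ q : ℚ, ∀ l,
      (T l).traceOn i ((c l).cl _ _ a) = (q : K l)) {S : Finset ℕ}
    (hS : S ⊆ Finset.range (2 * Z.dim X + 1)) (o : ι)
    (hC : ∑ i ∈ S, (T o).kunnethComponent X i ∈ (T o).C (X ⊗ X) (Z.dim X)) :
    ∃ a : Z.Z (X ⊗ X) (Z.dim X), ∀ l,
      (c l).cl _ _ a = ∑ i ∈ S, (T l).kunnethComponent X i := by
  have hact : ∀ l, (T l).act (∑ i ∈ S, (T l).kunnethComponent X i) =
      ∑ i ∈ S, (T l).proj X i := by
    intro l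
    have h1 : ∀ (A : Finset ℕ), A ⊆ Finset.range (2 * Z.dim X + 1) →
        (T l).act (∑ i ∈ A, (T l).kunnethComponent X i) = ∑ i ∈ A, (T l).proj X i := by
      classical
      intro A
      induction A using Finset.induction_on with
      | empty => intro _; rw [Finset.sum_empty, Finset.sum_empty, (T l).act_zero]
      | insert i A hi ih =>
        intro hA
        rw [Finset.sum_insert hi, Finset.sum_insert hi, (T l).act_add,
          ih ((Finset.subset_insert i A).trans hA), (T l).act_kunneth]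
        have := Finset.mem_range.mp (hA (Finset.mem_insert_self i A))
        rw [← (c l).dim_eq]
        omega
    exact h1 S hS
  have hmem : (fun l => ∑ i ∈ S, (T l).proj X i) ∈ fams c X := by
    refine fam_sum_mem (p := fun l => (T l).proj X) (M := 2 * Z.dim X + 1)
      (fun l => by rw [(c l).dim_eq]; exact (T l).projs X) (fams c X) ?_ ?_ ?_ S hS o ?_
    · rintro q _ ⟨a, rfl⟩
      refine ⟨q • a, ?_⟩
      funext l
      rw [(c l).cl_smul, (T l).act_smul]
    · rintro _ ⟨a, rfl⟩ l i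
      exact (T l).ops_mul_proj ((T l).act_mem_ops.mpr ((c l).mem_C a)) i
    · rintro _ ⟨a, rfl⟩ i _
      exact h a i
    · rw [← hact o]
      rw [← (c o).span_cl] at hC
      generalize ∑ i ∈ S, (T o).kunnethComponent X i = t at hC
      induction hC using Submodule.span_induction with
      | mem z hz =>
        obtain ⟨a, rfl⟩ := hz
        exact Submodule.subset_span ⟨_, ⟨a, rfl⟩, rfl⟩
      | zero => rw [(T o).act_zero]; exact zero_mem _
      | add z z' _ _ h1 h2 => rw [(T o).act_add]; exact add_mem h1 h2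
      | smul k z _ h => rw [(T o).act_smul]; exact Submodule.smul_mem _ _ h
  obtain ⟨a, ha⟩ := hmem
  refine ⟨a, fun l => ?_⟩
  apply (T l).act_injective
  rw [hact l]
  exact (congrFun ha l).symm

end

section

variable {V : Type u} [Category.{v} V] [CartesianMonoidalCategory V]
  {Z : CycleTheory.{u, v, y} V} {ι : Type z} {K : ι → Type x} [∀ l, Field (K l)]
  [∀ l, CharZero (K l)] {D : ∀ l, WeilData.{u, v, w, x} V (K l)}

theorem exists_cycle (hD : ∀ l, (D l).IsWeil) (c : ∀ l, CycleClassMap Z (D l)) (X : V)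
    (hT : ∀ (a : Z.Z (X ⊗ X) (Z.dim X)) (i : ℕ), ∃ q : ℚ, ∀ l,
      (D l).traceOn i ((c l).cl _ _ a) = (q : K l))
    (p : ∀ l, ℕ → (D l).H (X ⊗ X)) (hp : ∀ l, (D l).IsKunneth X (p l))
    (S : Finset ℕ) (hS : S ⊆ Finset.range (2 * Z.dim X + 1)) (o : ι)
    (hC : ∑ i ∈ S, p o i ∈ (D o).C (X ⊗ X) (Z.dim X)) :
    ∃ a : Z.Z (X ⊗ X) (Z.dim X), ∀ l, (c l).cl _ _ a = ∑ i ∈ S, p l i := by
  have hi' : ∀ l, ∀ i ∈ S, i ≤ 2 * (D l).dim X := fun l i hi => by
    have := Finset.mem_range.mp (hS hi)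
    rw [← (c l).span.dim]
    omega
  have hsum : ∀ l, ∑ i ∈ S, p l i =
      ∑ i ∈ S, (WeilData.toWeil (hD l)).kunnethComponent X i := fun l =>
    Finset.sum_congr rfl fun i hi => (hp l).eq (hD l) (hi' l i hi)
  obtain ⟨a, ha⟩ := exists_cycle_of_traces (T := fun l => WeilData.toWeil (hD l))
    (fun l => (c l).conv (hD l)) X (by
      intro a i
      obtain ⟨q, hq⟩ := hT a i
      refine ⟨q, fun l => ?_⟩
      rw [← hq l, WeilData.traceOn_eq (hD l)]
      rfl) hS o (by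
      rw [← hsum o]
      exact hC)
  refine ⟨a, fun l => ?_⟩
  rw [hsum l, ← ha l]
  rfl

theorem one_cycle_tfae [Nonempty ι] (hD : ∀ l, (D l).IsWeil) (c : ∀ l, CycleClassMap Z (D l))
    (X : V) (hT : ∀ (a : Z.Z (X ⊗ X) (Z.dim X)) (i : ℕ), ∃ q : ℚ, ∀ l,
      (D l).traceOn i ((c l).cl _ _ a) = (q : K l))
    (p : ∀ l, ℕ → (D l).H (X ⊗ X)) (hp : ∀ l, (D l).IsKunneth X (p l)) :
    List.TFAE [
      ∃ l, (D l).ConjC X,
      ∀ l, (D l).ConjC X,
      ∃ a : ℕ → Z.Z (X ⊗ X) (Z.dim X), ∀ l, ∀ i ≤ 2 * Z.dim X, (c l).cl _ _ (a i) = p l i,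
      ∃ a : ℕ → Z.Z (X ⊗ X) (Z.dim X), ∀ l, ∀ i ≤ 2 * Z.dim X,
        (D l).NumEq (Z.dim X) ((c l).cl _ _ (a i)) (p l i) ∧
        (D l).NumEq (Z.dim X) ((D l).comp ((c l).cl _ _ (a i)) ((c l).cl _ _ (a i)))
          ((c l).cl _ _ (a i)),
      ∃ l, ∃ b : ℕ → (D l).H (X ⊗ X), ∀ i ≤ 2 * Z.dim X,
        b i ∈ (D l).C (X ⊗ X) (Z.dim X) ∧ (D l).NumEq (Z.dim X) (b i) (p l i) ∧
          (D l).NumEq (Z.dim X) ((D l).comp (b i) (b i)) (b i)] := by
  have hdim : ∀ l, Z.dim X = (D l).dim X := fun l => (c l).span.dim X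
  have hmemC : ∀ l (a : Z.Z (X ⊗ X) (Z.dim X)),
      (c l).cl _ _ a ∈ (D l).C (X ⊗ X) (Z.dim X) := by
    intro l a
    rw [← (c l).span.span]
    exact Submodule.subset_span ⟨a, rfl⟩
  tfae_have 1 → 3 := by
    rintro ⟨o, hC⟩
    have h1 : ∀ i ≤ 2 * Z.dim X, ∃ a : Z.Z (X ⊗ X) (Z.dim X), ∀ l, (c l).cl _ _ a = p l i := by
      intro i hi
      obtain ⟨a, ha⟩ := exists_cycle hD c X hT p hp {i} (by
        rw [Finset.singleton_subset_iff, Finset.mem_range]
        omega) o (by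
        rw [Finset.sum_singleton]
        obtain ⟨p', hp', hC'⟩ := hC
        rw [(hp o).eq (hD o) (by rw [← hdim o]; exact hi),
          ← hp'.eq (hD o) (by rw [← hdim o]; exact hi), hdim o]
        exact hC' i (by rw [← hdim o]; exact hi))
      refine ⟨a, fun l => ?_⟩
      rw [ha l, Finset.sum_singleton]
    choose a ha using h1
    refine ⟨fun i => if hi : i ≤ 2 * Z.dim X then a i hi else 0, fun l i hi => ?_⟩
    simp only [dif_pos hi]
    exact ha i hi l
  tfae_have 3 → 2 := by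
    rintro ⟨a, ha⟩ l
    refine ⟨p l, hp l, fun i hi => ?_⟩
    rw [← hdim l] at hi ⊢
    rw [← ha l i hi]
    exact hmemC l _
  tfae_have 2 → 1 := fun h => ⟨Classical.arbitrary ι, h _⟩
  tfae_have 3 → 4 := by
    rintro ⟨a, ha⟩
    refine ⟨a, fun l i hi => ?_⟩
    rw [ha l i hi]
    refine ⟨fun y _ => rfl, fun y _ => ?_⟩
    have hi' : i ≤ 2 * (D l).dim X := by rw [← hdim l]; exact hi
    have h1 : (D l).comp (p l i) (p l i) = p l i := by
      rw [← WeilData.comp_eq (hD l), (hp l).eq (hD l) hi']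
      apply (WeilData.toWeil (hD l)).act_injective
      rw [(WeilData.toWeil (hD l)).act_comp, (WeilData.toWeil (hD l)).act_kunneth hi']
      ext a
      exact (WeilData.toWeil (hD l)).proj_same ((WeilData.toWeil (hD l)).proj_mem _ _)
    rw [h1]
  tfae_have 4 → 5 := by
    rintro ⟨a, ha⟩
    refine ⟨Classical.arbitrary ι, fun i => (c _).cl _ _ (a i), fun i hi => ⟨hmemC _ _, ?_⟩⟩
    exact ha _ i hi
  tfae_have 5 → 1 := by
    rintro ⟨l, b, hb⟩
    refine ⟨l, (WeilData.conjC_iff_num (hD l) (hp l)).mpr ⟨b, fun i hi => ?_⟩⟩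
    have h2 := hb i (by rw [hdim l]; exact hi)
    rw [hdim l] at h2
    exact h2
  tfae_finish

end

end Pool.KC
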