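import Mathlib

/-!
Linear algebra: traces, projectors, and subalgebras of endomorphism algebras.
-/

namespace Pool.KC

open Polynomial

section

variable {K H : Type*} [Field K] [AddCommGroup H] [Module K H] [FiniteDimensional K H]

/-- an endomorphism all of whose powers have trace zero is nilpotent (characteristic zero) -/
theorem isNilpotent_of_trace [CharZero K] (g : Module.End K H)
    (h : ∀ k : ℕ, 1 ≤ k → LinearMap.trace K H (g ^ k) = 0) : IsNilpotent g := by
  classical
  have hP : minpoly K g ≠ 0 := minpoly.ne_zero (Algebra.IsIntegral.isIntegral g)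
  obtain ⟨Q, hPQ, hQ⟩ := exists_eq_pow_rootMultiplicity_mul_and_not_dvd (minpoly K g) hP 0
  rw [map_zero, sub_zero] at hPQ hQ
  set k := rootMultiplicity 0 (minpoly K g) with hk
  have hcop : IsCoprime (X ^ (k + 1)) Q := by
    apply IsCoprime.pow_left
    exact (irreducible_X.coprime_iff_not_dvd).mpr hQ
  obtain ⟨u, v, huv⟩ := hcop
  -- `e`
  have hzero : aeval g (X ^ k * Q) = 0 := by rw [← hPQ, minpoly.aeval]
  set e : Module.End K H := aeval g (u * X ^ (k + 1)) with he
  have he1 : e * (1 - e) = 0 := by
    have h1 : (1 : Module.End K H) - e = aeval g (v * Q) := by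
      have h0 : (1 : Module.End K H) = aeval g (1 : K[X]) := (map_one _).symm
      rw [h0, he, ← map_sub, ← huv]
      congr 1
      ring
    rw [h1, he, ← map_mul]
    have : u * X ^ (k + 1) * (v * Q) = (u * v * X) * (X ^ k * Q) := by ring
    rw [this, map_mul, hzero, mul_zero]
  have hidem : IsIdempotentElem e := by
    unfold IsIdempotentElem
    rw [mul_sub, mul_one, sub_eq_zero] at he1
    exact he1.symm
  have htr : LinearMap.trace K H e = 0 := by
    have h1 : u * X ^ (k + 1) = (u * X ^ k) * X := by ring
    rw [he, h1]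
    generalize u * X ^ k = w
    induction w using Polynomial.induction_on' with
    | add p q hp hq => rw [add_mul, map_add, map_add, hp, hq, add_zero]
    | monomial n a =>
      rw [monomial_mul_X, aeval_monomial, ← Algebra.smul_def, map_smul, h (n + 1) (by omega),
        smul_zero]
  have h0 : e = 0 := LinearMap.IsIdempotentElem.eq_zero_of_trace_eq_zero hidem htr
  refine ⟨k, ?_⟩
  have h2 : aeval g (X ^ k : K[X]) = aeval g (X ^ k * (u * X ^ (k + 1)) : K[X]) +
      aeval g (v * (X ^ k * Q) : K[X]) := by
    rw [← map_add]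
    congr 1
    calc (X : K[X]) ^ k = X ^ k * (u * X ^ (k + 1) + v * Q) := by rw [huv, mul_one]
      _ = _ := by ring
  rw [map_mul, ← he, h0, mul_zero, zero_add, map_mul, hzero, mul_zero, map_pow, aeval_X] at h2
  exact h2

/-- A complete system of orthogonal projectors. -/
structure Projs (p : ℕ → Module.End K H) (M : ℕ) : Prop where
  idem : ∀ i, p i * p i = p i
  orth : ∀ i j, i ≠ j → p i * p j = 0
  sum : ∑ i ∈ Finset.range M, p i = 1

variable {p : ℕ → Module.End K H} {M : ℕ}

theorem commute_pow_proj {g q : Module.End K H} (hc : g * q = q * g) (hq : q * q = q) (k : ℕ)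
    (hk : 1 ≤ k) : (g * q) ^ k = g ^ k * q := by
  induction k, hk using Nat.le_induction with
  | base => simp
  | succ k _ ih =>
    rw [pow_succ, ih, pow_succ, mul_assoc, mul_assoc, ← mul_assoc q g q, ← hc, mul_assoc g q q, hq]

/-- If `z ∈ A` has the traces of the projector `p j` (tested against `A`), then the polynomial
`1 - (1 - z ^ d) ^ d` in `z` is `p j`, for all large `d`. -/
theorem exists_pow_eq [CharZero K] (hp : Projs p M) (A : Subalgebra K (Module.End K H))
    (hc : ∀ f ∈ A, ∀ i, f * p i = p i * f) {z : Module.End K H} (hz : z ∈ A) (j : ℕ)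
    (h : ∀ i < M, ∀ f ∈ A, LinearMap.trace K H (z * f * p i) =
      if i = j then LinearMap.trace K H (f * p i) else 0) (hj : j < M) :
    ∃ d0, ∀ d, d0 ≤ d → 1 - (1 - z ^ d) ^ d = p j := by
  classical
  -- the nilpotent parts
  have hnil : ∀ i < M, IsNilpotent ((z - if i = j then 1 else 0) * p i) := by
    intro i hi
    set g : Module.End K H := z - if i = j then 1 else 0 with hg
    have hgA : g ∈ A := by
      rw [hg]
      split_ifs
      · exact sub_mem hz (one_mem _)
      · exact sub_mem hz (zero_mem _)
    apply isNilpotent_of_trace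
    intro k hk
    rw [commute_pow_proj (hc g hgA i) (hp.idem i) k hk]
    obtain ⟨l, rfl⟩ : ∃ l, k = l + 1 := ⟨k - 1, by omega⟩
    rw [pow_succ']
    have h1 := h i hi (g ^ l) (pow_mem hgA l)
    rw [hg, sub_mul, sub_mul, map_sub, ← hg, h1]
    split_ifs with hij
    · rw [one_mul, sub_self]
    · simp
  -- uniform exponent
  have hex : ∀ i : ℕ, ∃ n, i < M → ((z - if i = j then 1 else 0) * p i) ^ n = 0 := by
    intro i
    by_cases hi : i < M
    · obtain ⟨n, hn⟩ := hnil i hi
      exact ⟨n, fun _ => hn⟩
    · exact ⟨0, fun h => absurd h hi⟩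
  choose n hn using hex
  refine ⟨(Finset.range M).sup n + 1, fun d hd => ?_⟩
  have hd1 : 1 ≤ d := by omega
  have hnd : ∀ i < M, (z - if i = j then 1 else 0) ^ d * p i = 0 := by
    intro i hi
    have hgA : (z - if i = j then 1 else 0) ∈ A := by
      split_ifs
      · exact sub_mem hz (one_mem _)
      · exact sub_mem hz (zero_mem _)
    rw [← commute_pow_proj (hc _ hgA i) (hp.idem i) d hd1]
    have : n i ≤ d := by
      have := Finset.le_sup (f := n) (Finset.mem_range.mpr hi)
      omega
    exact pow_eq_zero_of_le this (hn i hi)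
  have hFp : ∀ i < M, (1 - (1 - z ^ d) ^ d) * p i = if i = j then p i else 0 := by
    intro i hi
    by_cases hij : i = j
    · have h1 := hnd i hi
      rw [if_pos hij] at h1
      rw [if_pos hij, sub_mul, one_mul]
      have h2 : (1 - z ^ d) ^ d * p i = 0 := by
        have h3 : ∃ w : Module.End K H, 1 - z ^ d = w * (z - 1) ∧ Commute w (z - 1) := by
          refine ⟨- ∑ k ∈ Finset.range d, z ^ k, ?_, ?_⟩
          · rw [neg_mul, geom_sum_mul]
            abel
          · apply Commute.neg_left
            apply Commute.sub_right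
            · exact Commute.sum_left _ _ _ fun k _ => (Commute.refl z).pow_left k
            · exact Commute.one_right _
        obtain ⟨w, hw, hcomm⟩ := h3
        rw [hw, hcomm.mul_pow, mul_assoc, h1, mul_zero]
      rw [h2, sub_zero]
    · have h1 := hnd i hi
      rw [if_neg hij, sub_zero] at h1
      rw [if_neg hij, sub_mul, one_mul]
      have h2 : ∀ k : ℕ, (1 - z ^ d) ^ k * p i = p i := by
        intro k
        induction k with
        | zero => simp
        | succ k ih =>
          rw [pow_succ, mul_assoc, sub_mul, one_mul, h1, sub_zero, ih]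
      rw [h2, sub_self]
  calc 1 - (1 - z ^ d) ^ d = (1 - (1 - z ^ d) ^ d) * ∑ i ∈ Finset.range M, p i := by
        rw [hp.sum, mul_one]
    _ = ∑ i ∈ Finset.range M, if i = j then p i else 0 := by
        rw [Finset.mul_sum]
        exact Finset.sum_congr rfl fun i hi => hFp i (Finset.mem_range.mp hi)
    _ = p j := by
        rw [Finset.sum_ite_eq' (Finset.range M) j p, if_pos (Finset.mem_range.mpr hj)]

theorem proj_mem_of_trace [CharZero K] (hp : Projs p M) (A : Subalgebra K (Module.End K H))
    (hc : ∀ f ∈ A, ∀ i, f * p i = p i * f) {z : Module.End K H} (hz : z ∈ A) (j : ℕ)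
    (h : ∀ i < M, ∀ f ∈ A, LinearMap.trace K H (z * f * p i) =
      if i = j then LinearMap.trace K H (f * p i) else 0) (hj : j < M) : p j ∈ A := by
  obtain ⟨d0, hd⟩ := exists_pow_eq hp A hc hz j h hj
  rw [← hd d0 le_rfl]
  exact sub_mem (one_mem _) (pow_mem (sub_mem (one_mem _) (pow_mem hz _)) _)

/-- the supertrace -/
noncomputable def str (p : ℕ → Module.End K H) (M : ℕ) : Module.End K H →ₗ[K] K :=
  ∑ i ∈ Finset.range M, (-1 : K) ^ i • (LinearMap.trace K H ∘ₗ LinearMap.mulRight K (p i))

theorem str_apply (f : Module.End K H) :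
    str p M f = ∑ i ∈ Finset.range M, (-1 : K) ^ i * LinearMap.trace K H (f * p i) := by
  simp [str, LinearMap.sum_apply]

theorem trace_comm_proj (A : Subalgebra K (Module.End K H))
    (hc : ∀ f ∈ A, ∀ i, f * p i = p i * f) {f g : Module.End K H} (hf : f ∈ A) (hg : g ∈ A)
    (i : ℕ) : LinearMap.trace K H (f * g * p i) = LinearMap.trace K H (g * f * p i) := by
  rw [mul_assoc, LinearMap.trace_mul_comm, mul_assoc, ← hc f hf i, ← mul_assoc]

theorem str_comm (A : Subalgebra K (Module.End K H))
    (hc : ∀ f ∈ A, ∀ i, f * p i = p i * f) {f g : Module.End K H} (hf : f ∈ A) (hg : g ∈ A) :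
    str p M (f * g) = str p M (g * f) := by
  rw [str_apply, str_apply]
  exact Finset.sum_congr rfl fun i _ => by rw [trace_comm_proj A hc hf hg]

/-- **Numerical version.** If `z i ∈ A` has the same supertraces as `p i` (tested against `A`)
and is idempotent up to supertraces, for all `i`, then all `p i` lie in `A`. -/
theorem proj_mem_of_str [CharZero K] (hp : Projs p M) (A : Subalgebra K (Module.End K H))
    (hc : ∀ f ∈ A, ∀ i, f * p i = p i * f) (z : ℕ → Module.End K H) (hz : ∀ i < M, z i ∈ A)
    (h1 : ∀ i < M, ∀ f ∈ A, str p M (z i * f) = (-1) ^ i * LinearMap.trace K H (f * p i))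
    (h2 : ∀ i < M, ∀ f ∈ A, str p M (z i * z i * f) = str p M (z i * f)) :
    ∀ j < M, p j ∈ A := by
  classical
  have hsgn : ∀ i : ℕ, ((-1 : K) ^ i) * (-1) ^ i = 1 := by
    intro i
    rw [← mul_pow]
    simp
  have hcancel : ∀ (i : ℕ) (a b : K), (-1) ^ i * a = (-1) ^ i * b → a = b := by
    intro i a b h
    have := congrArg (fun t => (-1 : K) ^ i * t) h
    simpa [← mul_assoc, hsgn] using this
  -- z i is central up to supertraces
  have hcen : ∀ i < M, ∀ f ∈ A, ∀ g ∈ A, str p M (f * z i * g) = str p M (z i * f * g) := by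
    intro i hi f hf g hg
    have e1 : str p M (f * z i * g) = str p M (z i * (g * f)) := by
      rw [mul_assoc f, str_comm A hc hf (mul_mem (hz i hi) hg), mul_assoc]
    rw [e1, mul_assoc (z i), h1 i hi _ (mul_mem hg hf), h1 i hi _ (mul_mem hf hg),
      trace_comm_proj A hc hg hf]
  -- trace of z i on degree i
  have hii : ∀ i < M, ∀ f ∈ A,
      LinearMap.trace K H (z i * f * p i) = LinearMap.trace K H (f * p i) := by
    intro i hi f hf
    apply hcancel i
    rw [← h1 i hi _ (mul_mem (hz i hi) hf), ← mul_assoc, h2 i hi f hf, h1 i hi f hf]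
  -- the radical of the supertrace form on `A`
  let N : Submodule K A :=
    { carrier := {a | ∀ f ∈ A, str p M (a.1 * f) = 0}
      add_mem' := by
        intro a b ha hb f hf
        have : (a + b).1 * f = a.1 * f + b.1 * f := add_mul _ _ _
        rw [this, map_add, ha f hf, hb f hf, add_zero]
      zero_mem' := by
        intro f _
        have : (0 : A).1 * f = 0 := zero_mul _
        rw [this, map_zero]
      smul_mem' := by
        intro c a ha f hf
        have : (c • a).1 * f = c • (a.1 * f) := smul_mul_assoc _ _ _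
        rw [this, map_smul, ha f hf, smul_zero] }
  have hNl : ∀ (a : A) (b : A), b ∈ N → a * b ∈ N := by
    intro a b hb f hf
    have : (a * b).1 * f = a.1 * (b.1 * f) := mul_assoc _ _ _
    rw [this, str_comm A hc a.2 (mul_mem b.2 hf), mul_assoc]
    exact hb _ (mul_mem hf a.2)
  -- left multiplication on the quotient
  let lm : A → (A ⧸ N) →ₗ[K] (A ⧸ N) := fun a =>
    N.mapQ N (LinearMap.mulLeft K a) (fun b hb => hNl a b hb)
  have hlm : ∀ a b : A, lm a (N.mkQ b) = N.mkQ (a * b) := by
    intro a b
    rfl
  have key : ∀ i (hi : i < M), ∀ j (hj : j < M), i ≠ j →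
      ∀ f ∈ A, str p M (z i * z j * f) = 0 := by
    intro i hi
    let e : ℕ → A := fun j => if hj : j < M then ⟨z i * z j, mul_mem (hz i hi) (hz j hj)⟩ else 0
    have he : ∀ j (hj : j < M), (e j).1 = z i * z j := by
      intro j hj
      simp only [e, dif_pos hj]
    -- idempotent
    have hidem : ∀ j, j < M → IsIdempotentElem (lm (e j)) := by
      intro j hj
      apply LinearMap.ext
      intro q
      obtain ⟨b, rfl⟩ := N.mkQ_surjective q
      change lm (e j) (lm (e j) (N.mkQ b)) = lm (e j) (N.mkQ b)
      rw [hlm, hlm]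
      simp only [Submodule.mkQ_apply]
      rw [Submodule.Quotient.eq]
      intro f hf
      have h3 : (e j * (e j * b) - e j * b).1 * f =
          z i * z j * z i * (z j * b.1 * f) - z i * z j * b.1 * f := by
        have : (e j * (e j * b) - e j * b).1 = (e j).1 * ((e j).1 * b.1) - (e j).1 * b.1 := rfl
        rw [this, he j hj, sub_mul]
        simp only [mul_assoc]
      have hzi := hz i hi
      have hzj := hz j hj
      have hb := b.2
      rw [h3, map_sub, sub_eq_zero]
      rw [hcen i hi _ (mul_mem hzi hzj) _ (mul_mem (mul_mem hzj hb) hf)]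
      have h4 : z i * (z i * z j) * (z j * b.1 * f) = z i * z i * (z j * z j * b.1 * f) := by
        simp only [mul_assoc]
      rw [h4, h2 i hi _ (mul_mem (mul_mem (mul_mem hzj hzj) hb) hf)]
      have h5 : z i * (z j * z j * b.1 * f) = z i * (z j * (z j * b.1 * f)) := by
        simp only [mul_assoc]
      rw [h5, str_comm A hc hzi (mul_mem hzj (mul_mem (mul_mem hzj hb) hf))]
      have h6 : z j * (z j * b.1 * f) * z i = z j * z j * (b.1 * f * z i) := by
        simp only [mul_assoc]
      rw [h6, h2 j hj _ (mul_mem (mul_mem hb hf) hzi)]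
      have h7 : z j * (b.1 * f * z i) = (z j * b.1 * f) * z i := by
        simp only [mul_assoc]
      rw [h7, str_comm A hc (mul_mem (mul_mem hzj hb) hf) hzi]
      simp only [mul_assoc]
    -- sum of all is z i
    have hsum : ∑ j ∈ (Finset.range M).erase i, lm (e j) = 0 := by
      apply LinearMap.ext
      intro q
      obtain ⟨b, rfl⟩ := N.mkQ_surjective q
      rw [LinearMap.sum_apply, LinearMap.zero_apply]
      have : ∀ j, lm (e j) (N.mkQ b) = N.mkQ (e j * b) := fun j => hlm _ _
      rw [Finset.sum_congr rfl fun j _ => this j, ← map_sum]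
      rw [Submodule.mkQ_apply, Submodule.Quotient.mk_eq_zero]
      intro f hf
      have h3 : (∑ j ∈ (Finset.range M).erase i, e j * b).1 * f =
          ∑ j ∈ (Finset.range M).erase i, z i * z j * (b.1 * f) := by
        have : (∑ j ∈ (Finset.range M).erase i, e j * b).1 =
            ∑ j ∈ (Finset.range M).erase i, (e j).1 * b.1 := by
          rw [AddSubmonoidClass.coe_finset_sum]
          rfl
        rw [this, Finset.sum_mul]
        apply Finset.sum_congr rfl
        intro j hj
        rw [he j (Finset.mem_range.mp (Finset.mem_of_mem_erase hj)), mul_assoc]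
      rw [h3, map_sum]
      have h4 : ∑ j ∈ Finset.range M, str p M (z i * z j * (b.1 * f)) =
          str p M (z i * (b.1 * f)) := by
        have h5 : ∀ j ∈ Finset.range M, str p M (z i * z j * (b.1 * f)) =
            (-1) ^ j * LinearMap.trace K H (b.1 * f * z i * p j) := by
          intro j hj
          rw [Finset.mem_range] at hj
          rw [← h1 j hj _ (mul_mem (mul_mem b.2 hf) (hz i hi)), mul_assoc,
            str_comm A hc (hz i hi) (mul_mem (hz j hj) (mul_mem b.2 hf)), mul_assoc]
        rw [Finset.sum_congr rfl h5, ← str_apply, str_comm A hc (mul_mem b.2 hf) (hz i hi)]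
      rw [← Finset.add_sum_erase _ _ (Finset.mem_range.mpr hi),
        h2 i hi _ (mul_mem b.2 hf)] at h4
      exact add_eq_left.mp h4
    -- ranks
    have htr : ∀ j ∈ (Finset.range M).erase i, LinearMap.trace K (A ⧸ N) (lm (e j)) = 0 := by
      have h3 := congrArg (LinearMap.trace K (A ⧸ N)) hsum
      rw [map_sum, map_zero] at h3
      have h4 : ∀ j ∈ (Finset.range M).erase i, LinearMap.trace K (A ⧸ N) (lm (e j)) =
          ((Module.finrank K (LinearMap.range (lm (e j))) : ℕ) : K) := by
        intro j hj
        exact (LinearMap.IsIdempotentElem.isProj_range _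
          (hidem j (Finset.mem_range.mp (Finset.mem_of_mem_erase hj)))).trace
      rw [Finset.sum_congr rfl h4, ← Nat.cast_sum, Nat.cast_eq_zero, Finset.sum_eq_zero_iff] at h3
      intro j hj
      rw [h4 j hj, h3 j hj, Nat.cast_zero]
    intro j hj hij f hf
    have h3 : lm (e j) = 0 :=
      LinearMap.IsIdempotentElem.eq_zero_of_trace_eq_zero (hidem j hj)
        (htr j (Finset.mem_erase.mpr ⟨Ne.symm hij, Finset.mem_range.mpr hj⟩))
    have h4 : lm (e j) (N.mkQ 1) = 0 := by rw [h3]; rfl
    rw [hlm, mul_one, Submodule.mkQ_apply, Submodule.Quotient.mk_eq_zero] at h4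
    have := h4 f hf
    rwa [he j hj] at this
  intro j hj
  refine proj_mem_of_trace hp A hc (hz j hj) j ?_ hj
  intro i hi f hf
  by_cases hij : i = j
  · subst hij
    rw [if_pos rfl, hii i hi f hf]
  · rw [if_neg hij]
    have h3 := key i hi j hj hij f hf
    rw [mul_assoc, h1 i hi _ (mul_mem (hz j hj) hf)] at h3
    exact hcancel i _ _ (by rw [h3, mul_zero])

end

end Pool.KC
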