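import Mathlib

/-!
# Weil cohomology theories (abstract form)

`Cohomology V K`: a cohomology theory with Kuenneth formula and Poincare duality on a
category `V` with finite products (for instance the category of smooth projective varieties
over an algebraically closed field), with coefficients in a field `K`.

`WeilTheory V K`: such a theory together with the `K`-spans `C X i` of the classes of
algebraic cycles of codimension `i`.
-/

open CategoryTheory MonoidalCategory CartesianMonoidalCategory
open scoped TensorProduct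

universe u v w x

namespace Pool.KC

/-- A cohomology theory with values in graded-commutative algebras over the field `K`, with
Kuenneth formula and Poincare duality, on a category with finite products. -/
structure Cohomology (V : Type u) [Category.{v} V] [CartesianMonoidalCategory V]
    (K : Type x) [Field K] where
  /-- the dimension of an object -/
  dim : V → ℕ
  /-- the cohomology algebra -/
  H : V → Type w
  [ringH : ∀ X, Ring (H X)]
  [algH : ∀ X, Algebra K (H X)]
  [finH : ∀ X, FiniteDimensional K (H X)]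
  /-- the classes of degree `i` -/
  deg : ∀ X, ℕ → Submodule K (H X)
  [gradH : ∀ X, GradedAlgebra (deg X)]
  comm : ∀ {X : V} {i j : ℕ} {a b : H X}, a ∈ deg X i → b ∈ deg X j →
    a * b = (-1) ^ (i * j) * (b * a)
  /-- pull-back -/
  pull : ∀ {X Y : V}, (X ⟶ Y) → (H Y →ₐ[K] H X)
  pull_id : ∀ (X : V) (a : H X), pull (𝟙 X) a = a
  pull_comp : ∀ {X Y Z : V} (f : X ⟶ Y) (g : Y ⟶ Z) (a : H Z),
    pull (f ≫ g) a = pull f (pull g a)
  pull_deg : ∀ {X Y : V} (f : X ⟶ Y) {i : ℕ} {a : H Y}, a ∈ deg Y i → pull f a ∈ deg X i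
  /-- the Kuenneth formula -/
  kunneth : ∀ X Y : V, Function.Bijective
    (TensorProduct.lift ((LinearMap.mul K (H (X ⊗ Y))).compl₁₂
      (pull (fst X Y)).toLinearMap (pull (snd X Y)).toLinearMap))
  dim_prod : ∀ X Y : V, dim (X ⊗ Y) = dim X + dim Y
  /-- the trace (orientation) -/
  tr : ∀ X : V, H X →ₗ[K] K
  tr_deg : ∀ {X : V} {i : ℕ} {a : H X}, a ∈ deg X i → i ≠ 2 * dim X → tr X a = 0
  /-- Poincare duality -/
  nondeg : ∀ {X : V} {a : H X}, (∀ b, tr X (b * a) = 0) → a = 0
  tr_prod : ∀ {X Y : V} (a : H X) (b : H Y),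
    tr (X ⊗ Y) (pull (fst X Y) a * pull (snd X Y) b) = tr X a * tr Y b
  tr_iso : ∀ {X Y : V} (f : X ≅ Y) (a : H Y), tr X (pull f.hom a) = tr Y a

attribute [instance] Cohomology.ringH Cohomology.algH Cohomology.finH Cohomology.gradH

namespace Cohomology

variable {V : Type u} [Category.{v} V] [CartesianMonoidalCategory V] {K : Type x} [Field K]
variable (T : Cohomology.{u, v, w, x} V K)

/-- The Kuenneth isomorphism, `a ⊗ b ↦ pr₁^* a * pr₂^* b`. -/
noncomputable def kun (X Y : V) : (T.H X ⊗[K] T.H Y) ≃ₗ[K] T.H (X ⊗ Y) :=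
  LinearEquiv.ofBijective _ (T.kunneth X Y)

/-- Push-forward along the second projection `X × Y → Y`, i.e.
`pr₁^* a * pr₂^* b ↦ tr(a) b`. -/
noncomputable def push (X Y : V) : T.H (X ⊗ Y) →ₗ[K] T.H Y :=
  (TensorProduct.lid K (T.H Y)).toLinearMap ∘ₗ (T.tr X).rTensor (T.H Y) ∘ₗ
    (T.kun X Y).symm.toLinearMap

/-- The action `a ↦ pr₂_* (pr₁^* a * z)` of a class on `X × Y` as a correspondence from
`X` to `Y`. -/
noncomputable def act {X Y : V} (z : T.H (X ⊗ Y)) : T.H X →ₗ[K] T.H Y :=
  T.push X Y ∘ₗ LinearMap.mulRight K z ∘ₗ (T.pull (fst X Y)).toLinearMap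

/-- The component of a class on `X × Y` in `H^i(X) ⊗ H^j(Y)`. -/
noncomputable def component (X Y : V) (i j : ℕ) : T.H (X ⊗ Y) →ₗ[K] T.H (X ⊗ Y) :=
  (T.kun X Y).toLinearMap ∘ₗ
    TensorProduct.map (GradedAlgebra.proj (T.deg X) i) (GradedAlgebra.proj (T.deg Y) j) ∘ₗ
      (T.kun X Y).symm.toLinearMap

end Cohomology

/-- A Weil cohomology theory: a cohomology theory as above together with, for every `X` and
`i`, the `K`-span `C X i` of the classes of algebraic cycles of codimension `i`, stable under
products, pull-backs and push-forwards along projections, and containing the class of the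
diagonal. -/
structure WeilTheory (V : Type u) [Category.{v} V] [CartesianMonoidalCategory V]
    (K : Type x) [Field K] extends Cohomology.{u, v, w, x} V K where
  /-- the span of the classes of algebraic cycles of codimension `i` -/
  C : ∀ X, ℕ → Submodule K (H X)
  C_deg : ∀ X i, C X i ≤ deg X (2 * i)
  C_one : ∀ X, 1 ∈ C X 0
  C_mul : ∀ {X : V} {i j : ℕ} {a b : H X}, a ∈ C X i → b ∈ C X j → a * b ∈ C X (i + j)
  C_pull : ∀ {X Y : V} (f : X ⟶ Y) {i : ℕ} {a : H Y}, a ∈ C Y i → pull f a ∈ C X i
  C_push : ∀ {X Y : V} {i : ℕ} {a : H (X ⊗ Y)}, a ∈ C (X ⊗ Y) (dim X + i) →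
    toCohomology.push X Y a ∈ C Y i
  /-- the class of the diagonal -/
  diag : ∀ X : V, H (X ⊗ X)
  diag_spec : ∀ (X : V) (z : H (X ⊗ X)),
    tr (X ⊗ X) (z * diag X) = tr X (pull (lift (𝟙 X) (𝟙 X)) z)
  C_diag : ∀ X : V, diag X ∈ C (X ⊗ X) (dim X)

namespace WeilTheory

variable {V : Type u} [Category.{v} V] [CartesianMonoidalCategory V] {K : Type x} [Field K]
variable (T : WeilTheory.{u, v, w, x} V K)

/-- The Kuenneth component `π^i` of the diagonal of `X`, of degree `(2 dim X - i, i)`. -/
noncomputable def kunnethComponent (X : V) (i : ℕ) : T.H (X ⊗ X) :=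
  T.component X X (2 * T.dim X - i) i (T.diag X)

/-- The Kuenneth standard conjecture `C(X)`: all Kuenneth components of the diagonal of `X`
are algebraic. -/
def ConjC (X : V) : Prop :=
  ∀ i ≤ 2 * T.dim X, T.kunnethComponent X i ∈ T.C (X ⊗ X) (T.dim X)

end WeilTheory

end Pool.KC
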