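import Pool.Agent.Work.MP_a60482_kc.Num

open CategoryTheory MonoidalCategory CartesianMonoidalCategory

universe u v w x

namespace Pool.KC

theorem mix_aux {K R : Type*} [Field K] [Ring R] [Algebra K R] (a y z c q : R) (s : K)
    (hz : ∀ t, z * t = t * z) (h : q * c = s • (c * q)) :
    a * (z * (y * q)) * c = s • (a * y * z * (c * q)) := by
  rw [hz (y * q)]
  simp only [mul_assoc]
  rw [hz c, ← mul_assoc q c z, h, hz (c * q)]
  simp only [smul_mul_assoc, mul_smul_comm, mul_assoc]

namespace Cohomology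

variable {V : Type u} [Category.{v} V] [CartesianMonoidalCategory V] {K : Type x} [Field K]
variable (T : Cohomology.{u, v, w, x} V K)

/-- the exchange `(P × P) × (X × X) ≅ (X × P) × (X × P)` -/
def mix (P X : V) : (P ⊗ P) ⊗ (X ⊗ X) ≅ (X ⊗ P) ⊗ (X ⊗ P) where
  hom := lift (lift (snd (P ⊗ P) (X ⊗ X) ≫ fst X X) (fst (P ⊗ P) (X ⊗ X) ≫ fst P P))
    (lift (snd (P ⊗ P) (X ⊗ X) ≫ snd X X) (fst (P ⊗ P) (X ⊗ X) ≫ snd P P))
  inv := lift (lift (fst (X ⊗ P) (X ⊗ P) ≫ snd X P) (snd (X ⊗ P) (X ⊗ P) ≫ snd X P))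
    (lift (fst (X ⊗ P) (X ⊗ P) ≫ fst X P) (snd (X ⊗ P) (X ⊗ P) ≫ fst X P))
  hom_inv_id := by ext <;> simp
  inv_hom_id := by ext <;> simp

theorem component_pure {X Y : V} (i j : ℕ) (p : T.H X) (q : T.H Y) :
    T.component X Y i j (T.pull (fst X Y) p * T.pull (snd X Y) q) =
      T.pull (fst X Y) (T.proj X i p) * T.pull (snd X Y) (T.proj Y j q) := by
  rw [← T.kun_tmul, ← T.kun_tmul]
  simp [component, proj]

theorem neg_pow_smul {X : V} (k : ℕ) (a : T.H X) :
    (-1 : T.H X) ^ k * a = (-1 : K) ^ k • a := by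
  rw [Algebra.smul_def, map_pow, map_neg, map_one]

theorem pow_sign_aux {i j n m : ℕ} (hj : j ≤ 2 * m) :
    (-1 : K) ^ ((2 * m - j) * (2 * n - i)) * (-1) ^ (j * (2 * n - i)) = 1 := by
  rw [← pow_add, ← add_mul, Nat.sub_add_cancel hj, mul_assoc, pow_mul]
  simp

/-- Partial trace: if `z` acts on `H(X × P)` as the projector of degree `i + j`, and `b` is a
class in `H^j(P) ⊗ H^{2 dim P - j}(P)`, then contracting `z` with `b` gives a multiple of the
projector of degree `i` on `H(X)`. -/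
theorem act_contract {X P : V} {i j : ℕ} (hi : i ≤ 2 * T.dim X) (hj : j ≤ 2 * T.dim P)
    {z : T.H ((X ⊗ P) ⊗ (X ⊗ P))} (hz : z ∈ T.deg _ (2 * T.dim (X ⊗ P)))
    (hact : T.act z = T.proj (X ⊗ P) (i + j)) (b : T.H (P ⊗ P)) :
    T.act (T.push (P ⊗ P) (X ⊗ X) (T.pull (mix P X).hom z *
      T.pull (fst (P ⊗ P) (X ⊗ X)) (T.component P P j (2 * T.dim P - j) b))) =
    T.tr P (T.pull (lift (𝟙 P) (𝟙 P)) (T.component P P j (2 * T.dim P - j) b)) •
      T.proj X i := by
  refine T.kind (P := fun b => T.act (T.push (P ⊗ P) (X ⊗ X) (T.pull (mix P X).hom z *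
      T.pull (fst (P ⊗ P) (X ⊗ X)) (T.component P P j (2 * T.dim P - j) b))) =
    T.tr P (T.pull (lift (𝟙 P) (𝟙 P)) (T.component P P j (2 * T.dim P - j) b)) •
      T.proj X i) (by simp [act_zero]) ?_ ?_ b
  · intro y0 q0
    rw [T.component_pure]
    have hy := T.proj_mem (X := P) j y0
    have hq := T.proj_mem (X := P) (2 * T.dim P - j) q0
    generalize T.proj P j y0 = y at hy
    generalize T.proj P (2 * T.dim P - j) q0 = q at hq
    have hzc : ∀ t, T.pull (mix P X).hom z * t = t * T.pull (mix P X).hom z := fun t =>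
      T.even_comm (T.pull_deg _ hz) t
    have hzc' : ∀ t, z * t = t * z := fun t => T.even_comm hz t
    -- value on a homogeneous class, paired with a homogeneous class
    have key : ∀ (k l : ℕ) (a c : T.H X), a ∈ T.deg X k → c ∈ T.deg X l →
        T.tr X (T.act (T.push (P ⊗ P) (X ⊗ X) (T.pull (mix P X).hom z *
          T.pull (fst (P ⊗ P) (X ⊗ X)) (T.pull (fst P P) y * T.pull (snd P P) q))) a * c) =
        (-1) ^ ((2 * T.dim P - j) * l) *
          T.tr (X ⊗ P) (T.proj (X ⊗ P) (i + j) (T.pull (fst X P) a * T.pull (snd X P) y) *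
            (T.pull (fst X P) c * T.pull (snd X P) q)) := by
      intro k l a c ha hc
      rw [T.tr_act, ← T.push_snd_mul, ← T.push_mul_snd, T.tr_push, ← hact, T.tr_act,
        ← T.tr_iso (mix P X)]
      simp only [map_mul, T.pull_comp']
      have e1 : (mix P X).hom ≫ fst (X ⊗ P) (X ⊗ P) ≫ fst X P =
          snd (P ⊗ P) (X ⊗ X) ≫ fst X X := by simp [mix]
      have e2 : (mix P X).hom ≫ fst (X ⊗ P) (X ⊗ P) ≫ snd X P =
          fst (P ⊗ P) (X ⊗ X) ≫ fst P P := by simp [mix]
      have e3 : (mix P X).hom ≫ snd (X ⊗ P) (X ⊗ P) ≫ fst X P =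
          snd (P ⊗ P) (X ⊗ X) ≫ snd X X := by simp [mix]
      have e4 : (mix P X).hom ≫ snd (X ⊗ P) (X ⊗ P) ≫ snd X P =
          fst (P ⊗ P) (X ⊗ X) ≫ snd P P := by simp [mix]
      rw [e1, e2, e3, e4]
      have h1 := T.comm (T.pull_deg (fst (P ⊗ P) (X ⊗ X) ≫ snd P P) hq)
        (T.pull_deg (snd (P ⊗ P) (X ⊗ X) ≫ snd X X) hc)
      rw [T.neg_pow_smul] at h1
      have h2 : T.pull (snd (P ⊗ P) (X ⊗ X) ≫ fst X X) a * (T.pull (mix P X).hom z *
          (T.pull (fst (P ⊗ P) (X ⊗ X) ≫ fst P P) y *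
            T.pull (fst (P ⊗ P) (X ⊗ X) ≫ snd P P) q)) *
          T.pull (snd (P ⊗ P) (X ⊗ X) ≫ snd X X) c =
          (-1 : K) ^ ((2 * T.dim P - j) * l) •
          (T.pull (snd (P ⊗ P) (X ⊗ X) ≫ fst X X) a *
            T.pull (fst (P ⊗ P) (X ⊗ X) ≫ fst P P) y * T.pull (mix P X).hom z *
            (T.pull (snd (P ⊗ P) (X ⊗ X) ≫ snd X X) c *
              T.pull (fst (P ⊗ P) (X ⊗ X) ≫ snd P P) q)) := by
        exact mix_aux _ _ _ _ _ _ hzc h1
      rw [h2, map_smul, smul_eq_mul]
    apply LinearMap.ext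
    intro a
    rw [LinearMap.smul_apply]
    refine T.hind (P := fun a => T.act (T.push (P ⊗ P) (X ⊗ X) (T.pull (mix P X).hom z *
      T.pull (fst (P ⊗ P) (X ⊗ X)) (T.pull (fst P P) y * T.pull (snd P P) q))) a =
      T.tr P (T.pull (lift (𝟙 P) (𝟙 P)) (T.pull (fst P P) y * T.pull (snd P P) q)) •
      T.proj X i a) (by simp) ?_ ?_ a
    · intro k a ha
      rw [← sub_eq_zero]
      -- use the duality
      have hdual : ∀ d : T.H X, (∀ (l : ℕ) (c : T.H X), c ∈ T.deg X l → T.tr X (d * c) = 0) →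
          d = 0 := by
        intro d hd
        apply T.ext_proj
        intro m
        rw [map_zero]
        apply T.eq_zero_of_deg (T.proj_mem m d)
        intro l hl c hc
        have h3 : T.tr X (T.proj X m d * c) = 0 := by
          rw [T.tr_mul_proj d hc hl]
          exact hd l c hc
        rw [T.comm hc (T.proj_mem m d), T.neg_pow_smul, map_smul, h3, smul_zero]
      apply hdual
      intro l c hc
      rw [sub_mul, map_sub, key k l a c ha hc, smul_mul_assoc, map_smul, smul_eq_mul,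
        map_mul (T.pull (lift (𝟙 P) (𝟙 P))),
        T.pull_comp', T.pull_comp', lift_fst, lift_snd, T.pull_id, T.pull_id, sub_eq_zero]
      have hay : T.pull (fst X P) a * T.pull (snd X P) y ∈ T.deg (X ⊗ P) (k + j) :=
        T.mul_deg (T.fst_deg ha) (T.snd_deg hy)
      by_cases hk : k = i
      · subst hk
        rw [T.proj_same hay, T.proj_same ha]
        by_cases hl : k + l = 2 * T.dim X
        · have h3 := T.comm (T.snd_deg (X := X) hy) (T.fst_deg (Y := P) hc)
          rw [T.neg_pow_smul] at h3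
          have h4 : T.pull (fst X P) a * T.pull (snd X P) y *
              (T.pull (fst X P) c * T.pull (snd X P) q) =
              (-1 : K) ^ (j * l) • (T.pull (fst X P) (a * c) * T.pull (snd X P) (y * q)) := by
            rw [mul_assoc, ← mul_assoc (T.pull (snd X P) y), h3, map_mul, map_mul]
            simp only [smul_mul_assoc, mul_smul_comm, mul_assoc]
          rw [h4, map_smul, T.tr_prod, smul_eq_mul]
          have hl' : l = 2 * T.dim X - k := by omega
          rw [hl']
          have := pow_sign_aux (K := K) (i := k) (n := T.dim X) hj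
          linear_combination (T.tr X (a * c) * T.tr P (y * q)) * this
        · rw [T.tr_mul_ne ha hc hl, mul_zero]
          have : T.pull (fst X P) a * T.pull (snd X P) y *
              (T.pull (fst X P) c * T.pull (snd X P) q) ∈
              T.deg (X ⊗ P) (k + j + (l + (2 * T.dim P - j))) :=
            T.mul_deg hay (T.mul_deg (T.fst_deg hc) (T.snd_deg hq))
          rw [T.tr_deg this (by rw [T.dim_prod]; omega), mul_zero]
      · rw [T.proj_ne hay (by omega), T.proj_ne ha hk]
        simp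
    · intro a c h1 h2
      simp only [map_add, h1, h2, smul_add]
  · intro b c h1 h2
    simp only [map_add, mul_add, T.act_add, h1, h2, add_smul]

end Cohomology

namespace WeilTheory

variable {V : Type u} [Category.{v} V] [CartesianMonoidalCategory V] {K : Type x} [Field K]
variable (T : WeilTheory.{u, v, w, x} V K)

theorem swap_diag (X : V) : T.pull (Cohomology.swap X) (T.diag X) = T.diag X := by
  rw [← sub_eq_zero]
  apply T.nondeg
  intro b
  rw [mul_sub, map_sub, sub_eq_zero, T.diag_spec]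
  let e : X ⊗ X ≅ X ⊗ X :=
    { hom := Cohomology.swap X
      inv := Cohomology.swap X
      hom_inv_id := by ext <;> simp [Cohomology.swap]
      inv_hom_id := by ext <;> simp [Cohomology.swap] }
  have h1 : T.tr (X ⊗ X) (b * T.pull (Cohomology.swap X) (T.diag X)) =
      T.tr (X ⊗ X) (T.pull e.hom (T.pull (Cohomology.swap X) b * T.diag X)) := by
    rw [map_mul (T.pull e.hom)]
    change _ = T.tr (X ⊗ X) (T.pull (Cohomology.swap X) (T.pull (Cohomology.swap X) b) *
      T.pull (Cohomology.swap X) (T.diag X))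
    rw [T.swap_swap]
  rw [h1, T.tr_iso, T.diag_spec, T.pull_comp']
  congr 2
  simp [Cohomology.swap]

theorem tr_kunneth_diag [CharZero K] {X : V} {i : ℕ} (hi : i ≤ 2 * T.dim X)
    (h : T.proj X i ≠ 0) :
    T.tr X (T.pull (lift (𝟙 X) (𝟙 X)) (T.kunnethComponent X i)) ≠ 0 := by
  rw [← T.diag_spec, T.tr_mul_eq_str, T.swap_diag, T.act_diag, T.act_kunneth hi]
  have h1 : (LinearMap.id : Module.End K (T.H X)) * T.proj X i = T.proj X i := rfl
  rw [h1, str_apply, Finset.sum_eq_single i]
  · rw [(T.projs X).idem]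
    intro h2
    rcases mul_eq_zero.mp h2 with h3 | h3
    · exact absurd h3 (pow_ne_zero _ (by simp))
    · exact h (LinearMap.IsIdempotentElem.eq_zero_of_trace_eq_zero ((T.projs X).idem i) h3)
  · intro k _ hk
    rw [(T.projs X).orth i k (Ne.symm hk), map_zero, mul_zero]
  · intro h2
    exact absurd (Finset.mem_range.mpr (by omega)) h2

/-- from `X × P` to `X` -/
theorem descend [CharZero K] {X P : V} {i j : ℕ} (hi : i ≤ 2 * T.dim X)
    (hj : j ≤ 2 * T.dim P) (hP : T.ConjC P) (hne : T.proj P (2 * T.dim P - j) ≠ 0)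
    (h : T.proj (X ⊗ P) (i + j) ∈ T.ops (X ⊗ P)) : T.proj X i ∈ T.ops X := by
  obtain ⟨z, hz, hact⟩ := h
  have hb : T.kunnethComponent P (2 * T.dim P - j) =
      T.component P P j (2 * T.dim P - j) (T.diag P) := by
    unfold kunnethComponent
    rw [show 2 * T.dim P - (2 * T.dim P - j) = j by omega]
  have h1 := T.act_contract hi hj (T.C_deg _ _ hz) hact (T.diag P)
  rw [← hb] at h1
  have h2 := T.tr_kunneth_diag (i := 2 * T.dim P - j) (by omega) hne
  set ρ := T.tr P (T.pull (lift (𝟙 P) (𝟙 P)) (T.kunnethComponent P (2 * T.dim P - j)))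
  have h3 : T.push (P ⊗ P) (X ⊗ X) (T.pull (Cohomology.mix P X).hom z *
      T.pull (fst (P ⊗ P) (X ⊗ X)) (T.kunnethComponent P (2 * T.dim P - j))) ∈
      T.C (X ⊗ X) (T.dim X) := by
    apply T.C_push
    have := T.C_mul (T.C_pull (Cohomology.mix P X).hom hz)
      (T.C_pull (fst (P ⊗ P) (X ⊗ X)) (hP (2 * T.dim P - j) (by omega)))
    convert this using 2
    rw [T.dim_prod, T.dim_prod]
    omega
  have h4 : ρ • T.proj X i ∈ T.ops X := by
    rw [← h1]
    exact T.act_mem_ops.mpr h3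
  have h5 := Subalgebra.smul_mem (T.ops X) h4 ρ⁻¹
  rwa [smul_smul, inv_mul_cancel₀ h2, one_smul] at h5

end WeilTheory

end Pool.KC
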