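import Pool.Agent.Work.MP_a60482_kc.DetDefs
import Pool.Agent.Work.MP_a60482_kc.Descend

open CategoryTheory MonoidalCategory CartesianMonoidalCategory

universe u v w x

namespace Pool.KC

section

variable {V : Type u} [Category.{v} V] [CartesianMonoidalCategory V]

theorem pr_zero (X : V) (m : ℕ) : pr X (m + 1) 0 = fst X (pw X m) := rfl

theorem pr_succ (X : V) (m : ℕ) (j : Fin m) :
    pr X (m + 1) j.succ = snd X (pw X m) ≫ pr X m j := rfl

theorem perm_ext_succ {c : ℕ} {s t : Equiv.Perm (Fin (c + 1))}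
    (h : ∀ j : Fin c, s j.succ = t j.succ) : s = t := by
  have h0 : s 0 = t 0 := by
    by_contra hne
    obtain ⟨i, hi⟩ := t.surjective (s 0)
    rcases Fin.eq_zero_or_eq_succ i with rfl | ⟨j, rfl⟩
    · exact hne hi.symm
    · rw [← h j] at hi
      have := s.injective hi
      exact absurd this (Fin.succ_ne_zero j)
  ext i
  rcases Fin.eq_zero_or_eq_succ i with rfl | ⟨j, rfl⟩
  · rw [h0]
  · rw [h j]

end

namespace Cohomology

variable {V : Type u} [Category.{v} V] [CartesianMonoidalCategory V] {K : Type x} [Field K]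
variable (T : Cohomology.{u, v, w, x} V K)

/-- even classes -/
def even (X : V) : Submodule K (T.H X) := ⨆ k, T.deg X (2 * k)

theorem even_of_deg {X : V} {n : ℕ} (hn : Even n) {a : T.H X} (ha : a ∈ T.deg X n) :
    a ∈ T.even X := by
  obtain ⟨k, rfl⟩ := hn
  rw [← two_mul] at ha
  exact Submodule.mem_iSup_of_mem k ha

theorem even_central {X : V} {a : T.H X} (ha : a ∈ T.even X) (b : T.H X) : a * b = b * a := by
  refine Submodule.iSup_induction (fun k => T.deg X (2 * k))
    (motive := fun a => a * b = b * a) ha ?_ ?_ ?_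
  · intro k a ha
    exact T.even_comm ha b
  · simp
  · intro a c h1 h2
    rw [add_mul, mul_add, h1, h2]

theorem even_mul {X : V} {a b : T.H X} (ha : a ∈ T.even X) (hb : b ∈ T.even X) :
    a * b ∈ T.even X := by
  refine Submodule.iSup_induction (fun k => T.deg X (2 * k))
    (motive := fun a => a * b ∈ T.even X) ha ?_ ?_ ?_
  · intro k a ha
    refine Submodule.iSup_induction (fun k => T.deg X (2 * k))
      (motive := fun b => a * b ∈ T.even X) hb ?_ ?_ ?_
    · intro l b hb
      exact T.even_of_deg (by rw [← mul_add]; exact even_two_mul _) (T.mul_deg ha hb)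
    · rw [mul_zero]; exact zero_mem _
    · intro b c h1 h2
      rw [mul_add]
      exact add_mem h1 h2
  · rw [zero_mul]; exact zero_mem _
  · intro a c h1 h2
    rw [add_mul]
    exact add_mem h1 h2

theorem even_one {X : V} : (1 : T.H X) ∈ T.even X :=
  T.even_of_deg (n := 0) Even.zero T.one_deg

theorem even_pull {X Y : V} (f : X ⟶ Y) {a : T.H Y} (ha : a ∈ T.even Y) :
    T.pull f a ∈ T.even X := by
  refine Submodule.iSup_induction (fun k => T.deg Y (2 * k))
    (motive := fun a => T.pull f a ∈ T.even X) ha ?_ ?_ ?_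
  · intro k a ha
    exact T.even_of_deg (even_two_mul k) (T.pull_deg f ha)
  · rw [map_zero]; exact zero_mem _
  · intro a c h1 h2
    rw [map_add]
    exact add_mem h1 h2

theorem tens_zero {X : V} (a : Fin 0 → T.H X) : T.tens a = 1 := by
  simp [tens]

/-- `tens` with values in `H(X × X^m)` -/
def tensS {X : V} {m : ℕ} (a : Fin (m + 1) → T.H X) : T.H (X ⊗ pw X m) := T.tens a

/-- `wedge` with values in `H(X × X^m)` -/
def wedgeS {X : V} {m : ℕ} (a : Fin (m + 1) → T.H X) : T.H (X ⊗ pw X m) := T.wedge a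

theorem tens_succ {X : V} {m : ℕ} (a : Fin (m + 1) → T.H X) :
    T.tensS a = T.pull (fst X (pw X m)) (a 0) *
      T.pull (snd X (pw X m)) (T.tens fun j => a j.succ) := by
  have h1 : T.tensS a =
      (List.ofFn fun j : Fin (m + 1) => T.pull (pr X (m + 1) j : X ⊗ pw X m ⟶ X) (a j)).prod := rfl
  rw [h1, List.ofFn_succ, List.prod_cons]
  have h2 : ∀ j : Fin m, T.pull (pr X (m + 1) j.succ : X ⊗ pw X m ⟶ X) (a j.succ) =
      T.pull (snd X (pw X m)) (T.pull (pr X m j) (a j.succ)) := fun j => T.pull_comp _ _ _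
  have h3 : T.pull (pr X (m + 1) 0 : X ⊗ pw X m ⟶ X) (a 0) = T.pull (fst X (pw X m)) (a 0) := rfl
  rw [h3]
  simp only [h2]
  unfold tens
  rw [map_list_prod, List.map_ofFn]
  rfl

theorem tens_even {X : V} {m : ℕ} (a : Fin m → T.H X) (ha : ∀ j, a j ∈ T.even X) :
    T.tens a ∈ T.even (pw X m) := by
  induction m with
  | zero => rw [T.tens_zero]; exact T.even_one
  | succ m ih =>
    have h := T.even_mul (T.even_pull (fst X (pw X m)) (ha 0))
      (T.even_pull (snd X (pw X m)) (ih _ fun j => ha j.succ))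
    rw [← T.tens_succ a] at h
    exact h

theorem wedge_even {X : V} {m : ℕ} (a : Fin m → T.H X) (ha : ∀ j, a j ∈ T.even X) :
    T.wedge a ∈ T.even (pw X m) := by
  unfold wedge
  apply sum_mem
  intro σ _
  exact zsmul_mem (T.tens_even _ fun j => ha (σ j)) _

/-- trace of a product of exterior products, even classes -/
theorem tr_tens_mul {X : V} (hu : T.tr (𝟙_ V) 1 = 1) {m : ℕ} (a b : Fin m → T.H X)
    (ha : ∀ j, a j ∈ T.even X) (hb : ∀ j, b j ∈ T.even X) :
    T.tr (pw X m) (T.tens a * T.tens b) = ∏ j, T.tr X (a j * b j) := by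
  induction m with
  | zero =>
    rw [T.tens_zero, T.tens_zero, mul_one, Finset.univ_eq_empty, Finset.prod_empty]
    exact hu
  | succ m ih =>
    change T.tr (X ⊗ pw X m) (T.tensS a * T.tensS b) = _
    rw [T.tens_succ, T.tens_succ, Fin.prod_univ_succ]
    have h1 : T.pull (fst X (pw X m)) (a 0) *
        T.pull (snd X (pw X m)) (T.tens fun j => a j.succ) *
        (T.pull (fst X (pw X m)) (b 0) * T.pull (snd X (pw X m)) (T.tens fun j => b j.succ)) =
        T.pull (fst X (pw X m)) (a 0 * b 0) * T.pull (snd X (pw X m))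
          ((T.tens fun j => a j.succ) * T.tens fun j => b j.succ) := by
      rw [map_mul, map_mul]
      have h2 := T.even_central (T.even_pull (fst X (pw X m)) (hb 0))
        (T.pull (snd X (pw X m)) (T.tens fun j => a j.succ))
      simp only [mul_assoc]
      rw [← mul_assoc (T.pull (snd X (pw X m)) (T.tens fun j => a j.succ)), ← h2]
      simp only [mul_assoc]
    rw [h1, T.tr_prod, ih _ _ (fun j => ha j.succ) (fun j => hb j.succ)]

/-- the partial wedge -/
def dk {X : V} {c : ℕ} (a : Fin (c + 1) → T.H X) (k : Fin (c + 1)) : T.H (pw X c) :=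
  ∑ τ : Equiv.Perm (Fin c), (Equiv.Perm.sign (Equiv.Perm.decomposeFin.symm (k, τ)) : ℤ) •
    T.tens fun j => a (Equiv.Perm.decomposeFin.symm (k, τ) j.succ)

theorem dk_even {X : V} {c : ℕ} (a : Fin (c + 1) → T.H X) (ha : ∀ j, a j ∈ T.even X)
    (k : Fin (c + 1)) : T.dk a k ∈ T.even (pw X c) := by
  unfold dk
  apply sum_mem
  intro σ _
  exact zsmul_mem (T.tens_even _ fun j => ha _) _

theorem wedge_succ {X : V} {c : ℕ} (a : Fin (c + 1) → T.H X) :
    T.wedgeS a =
      ∑ k, T.pull (fst X (pw X c)) (a k) * T.pull (snd X (pw X c)) (T.dk a k) := by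
  have h1 : T.wedgeS a =
      ∑ σ : Equiv.Perm (Fin (c + 1)), (Equiv.Perm.sign σ : ℤ) • T.tensS (fun j => a (σ j)) := rfl
  rw [h1]
  unfold dk
  rw [← Equiv.sum_comp Equiv.Perm.decomposeFin.symm, Fintype.sum_prod_type]
  apply Finset.sum_congr rfl
  intro k _
  rw [map_sum, Finset.mul_sum]
  apply Finset.sum_congr rfl
  intro τ _
  rw [T.tens_succ, Equiv.Perm.decomposeFin_symm_apply_zero, map_zsmul, mul_smul_comm]

section orth

variable {X : V} {c : ℕ} {e : Fin (c + 1) → T.H X} (he : ∀ j, e j ∈ T.even X)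
  (hort : ∀ i j, i ≠ j → T.tr X (e i * e j) = 0) (hu : T.tr (𝟙_ V) 1 = 1)

include he hort hu

theorem tr_dk_ne {k l : Fin (c + 1)} (hkl : k ≠ l) :
    T.tr (pw X c) (T.dk e k * T.dk e l) = 0 := by
  unfold dk
  rw [Finset.sum_mul, map_sum]
  apply Finset.sum_eq_zero
  intro τ _
  rw [Finset.mul_sum, map_sum]
  apply Finset.sum_eq_zero
  intro τ' _
  rw [smul_mul_assoc, mul_smul_comm, map_zsmul, map_zsmul,
    T.tr_tens_mul hu _ _ (fun j => he _) (fun j => he _)]
  have : ∃ j : Fin c, Equiv.Perm.decomposeFin.symm (k, τ) j.succ ≠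
      Equiv.Perm.decomposeFin.symm (l, τ') j.succ := by
    by_contra h
    push Not at h
    have h1 := perm_ext_succ h
    have h2 := congrArg (fun s : Equiv.Perm (Fin (c + 1)) => s 0) h1
    simp only [Equiv.Perm.decomposeFin_symm_apply_zero] at h2
    exact hkl h2
  obtain ⟨j, hj⟩ := this
  rw [Finset.prod_eq_zero (Finset.mem_univ j) (hort _ _ hj), smul_zero, smul_zero]

theorem tr_dk_self (k : Fin (c + 1)) :
    T.tr X (e k * e k) * T.tr (pw X c) (T.dk e k * T.dk e k) =
      (Nat.factorial c : K) * ∏ i, T.tr X (e i * e i) := by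
  have h1 : T.tr (pw X c) (T.dk e k * T.dk e k) = ∑ τ : Equiv.Perm (Fin c), ∏ j : Fin c,
      T.tr X (e (Equiv.Perm.decomposeFin.symm (k, τ) j.succ) *
        e (Equiv.Perm.decomposeFin.symm (k, τ) j.succ)) := by
    conv_lhs => unfold dk
    rw [Finset.sum_mul, map_sum]
    apply Finset.sum_congr rfl
    intro τ _
    rw [Finset.mul_sum, map_sum, Finset.sum_eq_single τ]
    · rw [smul_mul_assoc, mul_smul_comm, map_zsmul, map_zsmul,
        T.tr_tens_mul hu _ _ (fun j => he _) (fun j => he _), smul_smul]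
      have : ((Equiv.Perm.sign (Equiv.Perm.decomposeFin.symm (k, τ)) : ℤ) *
          (Equiv.Perm.sign (Equiv.Perm.decomposeFin.symm (k, τ)) : ℤ)) = 1 := by
        rw [← Units.val_mul, Int.units_mul_self, Units.val_one]
      rw [this, one_smul]
    · intro τ' _ hτ
      rw [smul_mul_assoc, mul_smul_comm, map_zsmul, map_zsmul,
        T.tr_tens_mul hu _ _ (fun j => he _) (fun j => he _)]
      have : ∃ j : Fin c, Equiv.Perm.decomposeFin.symm (k, τ) j.succ ≠
          Equiv.Perm.decomposeFin.symm (k, τ') j.succ := by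
        by_contra h
        push Not at h
        have h1 := perm_ext_succ h
        have h2 := Equiv.Perm.decomposeFin.symm.injective h1
        exact hτ (congrArg Prod.snd h2).symm
      obtain ⟨j, hj⟩ := this
      rw [Finset.prod_eq_zero (Finset.mem_univ j) (hort _ _ hj), smul_zero, smul_zero]
    · intro h
      exact absurd (Finset.mem_univ τ) h
  rw [h1, Finset.mul_sum]
  have h2 : ∀ τ : Equiv.Perm (Fin c), T.tr X (e k * e k) * ∏ j : Fin c,
      T.tr X (e (Equiv.Perm.decomposeFin.symm (k, τ) j.succ) *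
        e (Equiv.Perm.decomposeFin.symm (k, τ) j.succ)) = ∏ i, T.tr X (e i * e i) := by
    intro τ
    rw [← Equiv.prod_comp (Equiv.Perm.decomposeFin.symm (k, τ)), Fin.prod_univ_succ,
      Equiv.Perm.decomposeFin_symm_apply_zero]
  rw [Finset.sum_congr rfl fun τ _ => h2 τ, Finset.sum_const, Finset.card_univ,
    Fintype.card_perm, Fintype.card_fin, nsmul_eq_mul]

theorem tr_wedge_sq : T.tr (pw X (c + 1)) (T.wedge e * T.wedge e) =
    ((c + 1 : ℕ) : K) * ((Nat.factorial c : K) * ∏ i, T.tr X (e i * e i)) := by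
  change T.tr (X ⊗ pw X c) (T.wedgeS e * T.wedgeS e) = _
  rw [T.wedge_succ, Finset.sum_mul, map_sum]
  have h1 : ∀ k, T.tr (X ⊗ pw X c) (T.pull (fst X (pw X c)) (e k) *
      T.pull (snd X (pw X c)) (T.dk e k) * ∑ l, T.pull (fst X (pw X c)) (e l) *
        T.pull (snd X (pw X c)) (T.dk e l)) =
      (Nat.factorial c : K) * ∏ i, T.tr X (e i * e i) := by
    intro k
    rw [← T.tr_dk_self he hort hu k, Finset.mul_sum, map_sum, Finset.sum_eq_single k]
    · have h2 := T.even_central (T.even_pull (fst X (pw X c)) (he k))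
        (T.pull (snd X (pw X c)) (T.dk e k))
      have h3 : T.pull (fst X (pw X c)) (e k) * T.pull (snd X (pw X c)) (T.dk e k) *
          (T.pull (fst X (pw X c)) (e k) * T.pull (snd X (pw X c)) (T.dk e k)) =
          T.pull (fst X (pw X c)) (e k * e k) *
            T.pull (snd X (pw X c)) (T.dk e k * T.dk e k) := by
        rw [map_mul, map_mul]
        simp only [mul_assoc]
        rw [← mul_assoc (T.pull (snd X (pw X c)) (T.dk e k)), ← h2]
        simp only [mul_assoc]
      rw [h3]
      exact T.tr_prod _ _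
    · intro l _ hl
      have h2 := T.even_central (T.even_pull (fst X (pw X c)) (he l))
        (T.pull (snd X (pw X c)) (T.dk e k))
      have h3 : T.pull (fst X (pw X c)) (e k) * T.pull (snd X (pw X c)) (T.dk e k) *
          (T.pull (fst X (pw X c)) (e l) * T.pull (snd X (pw X c)) (T.dk e l)) =
          T.pull (fst X (pw X c)) (e k * e l) *
            T.pull (snd X (pw X c)) (T.dk e k * T.dk e l) := by
        rw [map_mul, map_mul]
        simp only [mul_assoc]
        rw [← mul_assoc (T.pull (snd X (pw X c)) (T.dk e k)), ← h2]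
        simp only [mul_assoc]
      rw [h3]
      have := T.tr_prod (X := X) (Y := pw X c) (e k * e l) (T.dk e k * T.dk e l)
      rw [T.tr_dk_ne he hort hu (Ne.symm hl), mul_zero] at this
      exact this
    · intro h
      exact absurd (Finset.mem_univ k) h
  rw [Finset.sum_congr rfl fun k _ => h1 k, Finset.sum_const, Finset.card_univ,
    Fintype.card_fin, nsmul_eq_mul]

end orth

/-- multilinearity of the exterior product -/
noncomputable def tensM (X : V) (m : ℕ) : MultilinearMap K (fun _ : Fin m => T.H X) (T.H (pw X m)) :=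
  (MultilinearMap.mkPiAlgebraFin K m (T.H (pw X m))).compLinearMap
    (fun j => (T.pull (pr X m j)).toLinearMap)

theorem tensM_apply {X : V} {m : ℕ} (a : Fin m → T.H X) : T.tensM X m a = T.tens a := by
  simp [tensM, tens, MultilinearMap.compLinearMap_apply, MultilinearMap.mkPiAlgebraFin_apply]

/-- the wedge of classes of degree `n`, as an alternating map -/
noncomputable def wedgeA (X : V) (n m : ℕ) : (T.deg X n) [⋀^Fin m]→ₗ[K] (T.H (pw X m)) :=
  MultilinearMap.alternatization ((T.tensM X m).compLinearMap fun _ => (T.deg X n).subtype)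

theorem wedgeA_apply {X : V} {n m : ℕ} (a : Fin m → T.deg X n) :
    T.wedgeA X n m a = T.wedge fun j => (a j : T.H X) := by
  unfold wedgeA wedge
  rw [MultilinearMap.alternatization_apply]
  apply Finset.sum_congr rfl
  intro σ _
  rw [Units.smul_def]
  congr 1

theorem wedge_basis {X : V} {n m : ℕ} (e : Module.Basis (Fin m) K (T.deg X n))
    (a : Fin m → T.deg X n) :
    T.wedge (fun j => (a j : T.H X)) = e.det a • T.wedge fun j => (e j : T.H X) := by
  rw [← T.wedgeA_apply, ← T.wedgeA_apply]
  rw [← sub_eq_zero, ← Module.forall_dual_apply_eq_zero_iff K]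
  intro φ
  have h1 := AlternatingMap.eq_smul_basis_det e (φ.compAlternatingMap (T.wedgeA X n m))
  have h2 := congrArg (fun f => f a) h1
  simp only [LinearMap.compAlternatingMap_apply, AlternatingMap.smul_apply] at h2
  rw [map_sub, h2, map_smul, smul_eq_mul, smul_eq_mul, mul_comm, sub_self]

end Cohomology

end Pool.KC
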