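import Pool.Agent.Work.MP_a60482_kc.Det

open CategoryTheory MonoidalCategory CartesianMonoidalCategory

universe u v w x

namespace Pool.KC

namespace Cohomology

variable {V : Type u} [Category.{v} V] [CartesianMonoidalCategory V] {K : Type x} [Field K]
variable (T : Cohomology.{u, v, w, x} V K)

/-- the cup product form on the middle cohomology -/
noncomputable def midForm (X : V) (n : ℕ) : LinearMap.BilinForm K (T.deg X n) :=
  LinearMap.mk₂ K (fun x y => T.tr X ((x : T.H X) * (y : T.H X)))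
    (fun x y z => by simp [add_mul]) (fun c x y => by simp) (fun x y z => by simp [mul_add])
    (fun c x y => by simp)

theorem midForm_apply {X : V} {n : ℕ} (x y : T.deg X n) :
    T.midForm X n x y = T.tr X ((x : T.H X) * (y : T.H X)) := rfl

/-- an orthogonal basis of the middle cohomology -/
theorem exists_orth [CharZero K] (X : V) {n : ℕ} (hn : n = T.dim X) (he : Even n) :
    ∃ e : Module.Basis (Fin (Module.finrank K (T.deg X n))) K (T.deg X n),
      (∀ i j, i ≠ j → T.tr X ((e i : T.H X) * (e j : T.H X)) = 0) ∧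
      ∀ i, T.tr X ((e i : T.H X) * (e i : T.H X)) ≠ 0 := by
  have : Invertible (2 : K) := invertibleOfNonzero two_ne_zero
  have hsymm : LinearMap.IsSymm (T.midForm X n) := ⟨fun x y => by
    rw [RingHom.id_apply, T.midForm_apply, T.midForm_apply,
      T.even_central (T.even_of_deg he x.2)]⟩
  obtain ⟨e, he'⟩ := LinearMap.BilinForm.exists_orthogonal_basis hsymm
  have hort : ∀ i j, i ≠ j → T.tr X ((e i : T.H X) * (e j : T.H X)) = 0 := by
    intro i j hij
    exact he' hij
  refine ⟨e, hort, ?_⟩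
  intro i h0
  have h1 : (e i : T.H X) = 0 := by
    apply T.eq_zero_of_deg (e i).2
    intro j hj b hb
    have hjn : j = n := by omega
    subst hjn
    have h2 : T.midForm X j ⟨b, hb⟩ (e i) = 0 := by
      have h3 : T.midForm X j (e i) = 0 := by
        apply e.ext
        intro k
        by_cases hk : i = k
        · subst hk
          exact h0
        · exact hort i k hk
      have h4 := hsymm.eq ⟨b, hb⟩ (e i)
      rw [RingHom.id_apply] at h4
      rw [h4, h3]
      rfl
    exact h2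
  exact e.ne_zero i (Subtype.ext h1)

theorem push_eq_zero {X Y : V} {k : ℕ} {z : T.H (X ⊗ Y)} (hz : z ∈ T.deg (X ⊗ Y) k)
    (h : k < 2 * T.dim X) : T.push X Y z = 0 := by
  apply T.nondeg
  intro b
  refine T.hind (P := fun b => T.tr Y (b * T.push X Y z) = 0) (by simp) ?_ ?_ b
  · intro j b hb
    by_cases hj : j ≤ 2 * T.dim Y
    · rw [← T.push_snd_mul, T.tr_push]
      exact T.tr_mul_ne (T.snd_deg hb) hz (by rw [T.dim_prod]; omega)
    · rw [T.deg_eq_zero hb (by omega)]
      simp
  · intro b c h1 h2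
    rw [add_mul, map_add, h1, h2, add_zero]

/-- first embedding for the contraction of the determinant class -/
def be1 (X Z R : V) : (Z ⊗ R) ⊗ (X ⊗ X) ⟶ (X ⊗ Z) ⊗ R :=
  lift (lift (snd (Z ⊗ R) (X ⊗ X) ≫ fst X X) (fst (Z ⊗ R) (X ⊗ X) ≫ fst Z R))
    (fst (Z ⊗ R) (X ⊗ X) ≫ snd Z R)

/-- second embedding for the contraction of the determinant class -/
def be2 (X Z R : V) : (Z ⊗ R) ⊗ (X ⊗ X) ⟶ (X ⊗ Z) ⊗ R :=
  lift (lift (snd (Z ⊗ R) (X ⊗ X) ≫ snd X X) (fst (Z ⊗ R) (X ⊗ X) ≫ fst Z R))
    (fst (Z ⊗ R) (X ⊗ X) ≫ snd Z R)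

theorem comm_aux {R : Type*} [Ring R] {a z r a' z' : R} (ha : a ∈ Subring.center R)
    (hz : z ∈ Subring.center R) (hr : r ∈ Subring.center R) (ha' : a' ∈ Subring.center R)
    (hz' : z' ∈ Subring.center R) :
    a * z * r * (a' * z' * r) = z * z' * (r * r) * (a * a') := by
  have h : ∀ a z r a' z' : Subring.center R,
      a * z * r * (a' * z' * r) = z * z' * (r * r) * (a * a') := by
    intros
    ring
  exact congrArg Subtype.val (h ⟨a, ha⟩ ⟨z, hz⟩ ⟨r, hr⟩ ⟨a', ha'⟩ ⟨z', hz'⟩)

theorem even_center {X : V} {a : T.H X} (ha : a ∈ T.even X) : a ∈ Subring.center (T.H X) := by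
  rw [Subring.mem_center_iff]
  intro b
  exact (T.even_central ha b).symm

theorem contract_eq {X Z R : V} {ι : Type*} [Fintype ι] (e : ι → T.H X) (d : ι → T.H Z)
    (r : T.H R) (he : ∀ k, e k ∈ T.even X) (hd : ∀ k, d k ∈ T.even Z) (hr : r ∈ T.even R) :
    T.push (Z ⊗ R) (X ⊗ X)
      (T.pull (be1 X Z R) (T.pull (fst (X ⊗ Z) R) (∑ k, T.pull (fst X Z) (e k) *
          T.pull (snd X Z) (d k)) * T.pull (snd (X ⊗ Z) R) r) *
        T.pull (be2 X Z R) (T.pull (fst (X ⊗ Z) R) (∑ k, T.pull (fst X Z) (e k) *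
          T.pull (snd X Z) (d k)) * T.pull (snd (X ⊗ Z) R) r)) =
      ∑ k, ∑ l, (T.tr Z (d k * d l) * T.tr R (r * r)) •
        (T.pull (fst X X) (e k) * T.pull (snd X X) (e l)) := by
  have h1 : T.pull (be1 X Z R) (T.pull (fst (X ⊗ Z) R) (∑ k, T.pull (fst X Z) (e k) *
          T.pull (snd X Z) (d k)) * T.pull (snd (X ⊗ Z) R) r) =
      ∑ k, T.pull (snd (Z ⊗ R) (X ⊗ X) ≫ fst X X) (e k) *
        T.pull (fst (Z ⊗ R) (X ⊗ X) ≫ fst Z R) (d k) *
        T.pull (fst (Z ⊗ R) (X ⊗ X) ≫ snd Z R) r := by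
    simp only [map_mul, map_sum, T.pull_comp', Finset.sum_mul]
    simp only [be1, lift_fst_assoc, lift_fst, lift_snd]
  have h2 : T.pull (be2 X Z R) (T.pull (fst (X ⊗ Z) R) (∑ k, T.pull (fst X Z) (e k) *
          T.pull (snd X Z) (d k)) * T.pull (snd (X ⊗ Z) R) r) =
      ∑ k, T.pull (snd (Z ⊗ R) (X ⊗ X) ≫ snd X X) (e k) *
        T.pull (fst (Z ⊗ R) (X ⊗ X) ≫ fst Z R) (d k) *
        T.pull (fst (Z ⊗ R) (X ⊗ X) ≫ snd Z R) r := by
    simp only [map_mul, map_sum, T.pull_comp', Finset.sum_mul]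
    simp only [be2, lift_fst_assoc, lift_fst, lift_snd]
  rw [h1, h2, Finset.sum_mul, map_sum]
  apply Finset.sum_congr rfl
  intro k _
  rw [Finset.mul_sum, map_sum]
  apply Finset.sum_congr rfl
  intro l _
  rw [comm_aux (T.even_center (T.even_pull _ (he k))) (T.even_center (T.even_pull _ (hd k)))
    (T.even_center (T.even_pull _ hr)) (T.even_center (T.even_pull _ (he l)))
    (T.even_center (T.even_pull _ (hd l)))]
  have h3 : T.pull (fst (Z ⊗ R) (X ⊗ X) ≫ fst Z R) (d k) *
      T.pull (fst (Z ⊗ R) (X ⊗ X) ≫ fst Z R) (d l) *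
      (T.pull (fst (Z ⊗ R) (X ⊗ X) ≫ snd Z R) r * T.pull (fst (Z ⊗ R) (X ⊗ X) ≫ snd Z R) r) *
      (T.pull (snd (Z ⊗ R) (X ⊗ X) ≫ fst X X) (e k) *
        T.pull (snd (Z ⊗ R) (X ⊗ X) ≫ snd X X) (e l)) =
      T.pull (fst (Z ⊗ R) (X ⊗ X)) (T.pull (fst Z R) (d k * d l) *
        T.pull (snd Z R) (r * r)) *
      T.pull (snd (Z ⊗ R) (X ⊗ X)) (T.pull (fst X X) (e k) * T.pull (snd X X) (e l)) := by
    simp only [map_mul, T.pull_comp']
  rw [h3, T.push_pure, T.tr_prod]

end Cohomology

namespace WeilTheory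

variable {V : Type u} [Category.{v} V] [CartesianMonoidalCategory V] {K : Type x} [Field K]
variable (T : WeilTheory.{u, v, w, x} V K)

/-- the trace of the unit of the point is `1` -/
theorem tr_unit {X : V} {a : T.H X} (ha : T.tr X a ≠ 0) : T.tr (𝟙_ V) 1 = 1 := by
  have h1 := T.tr_prod (X := X) (Y := 𝟙_ V) a 1
  rw [map_one, mul_one] at h1
  let e : X ⊗ 𝟙_ V ≅ X :=
    { hom := fst X (𝟙_ V)
      inv := lift (𝟙 X) (toUnit X)
      hom_inv_id := by ext <;> simp
      inv_hom_id := by simp }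
  have h2 := T.tr_iso e a
  change T.tr (X ⊗ 𝟙_ V) (T.pull (fst X (𝟙_ V)) a) = T.tr X a at h2
  rw [h2] at h1
  have h3 : T.tr X a * (T.tr (𝟙_ V) 1 - 1) = 0 := by rw [mul_sub, mul_one, ← h1, sub_self]
  rcases mul_eq_zero.mp h3 with h | h
  · exact absurd h ha
  · exact sub_eq_zero.mp h

theorem exists_tr_ne {X : V} {a : T.H X} (ha : a ≠ 0) : ∃ b : T.H X, T.tr X b ≠ 0 := by
  by_contra h
  push Not at h
  exact ha (T.nondeg fun b => h _)

/-- If some power of the determinant line of the middle cohomology is algebraic, then so is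
the middle Kuenneth component. -/
theorem proj_mem_of_det [CharZero K] (hu : T.tr (𝟙_ V) 1 = 1) {X : V} {n : ℕ}
    (hn : n = T.dim X) (hev : Even n) (h : T.DetPowerAlgebraic X n) : T.proj X n ∈ T.ops X := by
  classical
  obtain ⟨m, hm, a, ha, hwa, k, hk⟩ := h
  obtain ⟨e, hort, hself⟩ := T.exists_orth X hn hev
  -- change of basis
  obtain ⟨δ, hδ0, h1⟩ : ∃ δ : K, δ ≠ 0 ∧
      T.wedge a = δ • T.wedge fun j => (e j : T.H X) := by
    have h1 := T.wedge_basis e (fun j => ⟨a j, ha j⟩)
    refine ⟨_, ?_, h1⟩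
    intro h0
    rw [h0, zero_smul] at h1
    exact hwa h1
  have hk' : T.tens (fun _ : Fin m => T.wedge fun j => (e j : T.H X)) ∈
      T.C (pw (pw X (Module.finrank K (T.deg X n))) m) k := by
    rw [h1, ← T.tensM_apply] at hk
    have h2 := (T.tensM (pw X (Module.finrank K (T.deg X n))) m).map_smul_univ
      (fun _ => δ) (fun _ => T.wedge fun j => (e j : T.H X))
    rw [h2, T.tensM_apply] at hk
    have h3 := Submodule.smul_mem _ (∏ _i : Fin m, δ)⁻¹ hk
    rwa [smul_smul, inv_mul_cancel₀ (Finset.prod_ne_zero_iff.mpr fun _ _ => hδ0),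
      one_smul] at h3
  clear hk h1 hwa hδ0 δ ha a
  -- dimension
  generalize hb : Module.finrank K (T.deg X n) = b at e hk' hort hself
  obtain ⟨m, rfl⟩ : ∃ m', m = m' + 1 := ⟨m - 1, by omega⟩
  rcases Nat.eq_zero_or_eq_succ_pred b with hb0 | hb1
  · have h4 : T.proj X n = 0 := by
      have : T.deg X n = ⊥ := by
        rw [← Submodule.finrank_eq_zero (R := K), hb, hb0]
      ext y
      have h5 := T.proj_mem n y
      rw [this, Submodule.mem_bot] at h5
      exact h5
    rw [h4]
    exact zero_mem _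
  generalize b.pred = c at hb1
  subst hb1
  set E : Fin (c + 1) → T.H X := fun j => (e j : T.H X) with hE
  have hEe : ∀ j, E j ∈ T.even X := fun j => T.even_of_deg hev (e j).2
  have hED : ∀ j, E j ∈ T.deg X n := fun j => (e j).2
  have hDe : T.wedge E ∈ T.even (pw X (c + 1)) := T.wedge_even E hEe
  set r : T.H (pw (pw X (c + 1)) m) := T.tens (fun _ : Fin m => T.wedge E) with hr
  have hre : r ∈ T.even (pw (pw X (c + 1)) m) := T.tens_even _ fun _ => hDe
  -- the class
  have hΩ : T.tens (fun _ : Fin (m + 1) => T.wedge E) =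
      T.pull (fst (X ⊗ pw X c) (pw (pw X (c + 1)) m)) (∑ k, T.pull (fst X (pw X c)) (E k) *
        T.pull (snd X (pw X c)) (T.dk E k)) *
      T.pull (snd (X ⊗ pw X c) (pw (pw X (c + 1)) m)) r := by
    rw [← T.wedge_succ]
    exact T.tens_succ (X := pw X (c + 1)) (fun _ : Fin (m + 1) => T.wedge E)
  have hk2 : T.pull (fst (X ⊗ pw X c) (pw (pw X (c + 1)) m))
        (∑ k, T.pull (fst X (pw X c)) (E k) * T.pull (snd X (pw X c)) (T.dk E k)) *
      T.pull (snd (X ⊗ pw X c) (pw (pw X (c + 1)) m)) r ∈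
      T.C ((X ⊗ pw X c) ⊗ pw (pw X (c + 1)) m) k := by
    rw [← hΩ]
    exact hk'
  -- contraction
  set w := T.push (pw X c ⊗ pw (pw X (c + 1)) m) (X ⊗ X)
      (T.pull (Cohomology.be1 X (pw X c) (pw (pw X (c + 1)) m))
        (T.pull (fst (X ⊗ pw X c) (pw (pw X (c + 1)) m)) (∑ k, T.pull (fst X (pw X c)) (E k) *
          T.pull (snd X (pw X c)) (T.dk E k)) *
          T.pull (snd (X ⊗ pw X c) (pw (pw X (c + 1)) m)) r) *
        T.pull (Cohomology.be2 X (pw X c) (pw (pw X (c + 1)) m))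
        (T.pull (fst (X ⊗ pw X c) (pw (pw X (c + 1)) m)) (∑ k, T.pull (fst X (pw X c)) (E k) *
          T.pull (snd X (pw X c)) (T.dk E k)) *
          T.pull (snd (X ⊗ pw X c) (pw (pw X (c + 1)) m)) r)) with hw
  have hw2 : w = ∑ k, ∑ l, (T.tr (pw X c) (T.dk E k * T.dk E l) *
      T.tr (pw (pw X (c + 1)) m) (r * r)) •
        (T.pull (fst X X) (E k) * T.pull (snd X X) (E l)) :=
    T.contract_eq E (T.dk E) r hEe (T.dk_even E hEe) hre
  -- constants
  set ρ := T.tr (pw (pw X (c + 1)) m) (r * r) with hρ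
  set g : K := (Nat.factorial c : K) * ∏ i, T.tr X (E i * E i) with hg
  have hg0 : g ≠ 0 := mul_ne_zero (Nat.cast_ne_zero.mpr (Nat.factorial_ne_zero c))
    (Finset.prod_ne_zero_iff.mpr fun i _ => hself i)
  have hρ0 : ρ ≠ 0 := by
    rw [hρ, hr, T.tr_tens_mul hu _ _ (fun _ => hDe) (fun _ => hDe)]
    apply Finset.prod_ne_zero_iff.mpr
    intro _ _
    rw [T.tr_wedge_sq hEe hort hu]
    exact mul_ne_zero (Nat.cast_ne_zero.mpr (Nat.succ_ne_zero c)) hg0
  -- action of the contraction
  have hact : T.act w = (g * ρ) • T.proj X n := by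
    have h5 : ∀ y : T.H X, T.act w y = ∑ k, (T.tr (pw X c) (T.dk E k * T.dk E k) * ρ *
        T.tr X (y * E k)) • E k := by
      intro y
      have h6 : T.act w y = ∑ k, ∑ l, (T.tr (pw X c) (T.dk E k * T.dk E l) * ρ *
          T.tr X (y * E k)) • E l := by
        rw [hw2, T.act_apply, Finset.mul_sum, map_sum]
        apply Finset.sum_congr rfl
        intro k _
        rw [Finset.mul_sum, map_sum]
        apply Finset.sum_congr rfl
        intro l _
        rw [mul_smul_comm, map_smul, ← T.act_apply, T.act_pure, smul_smul]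
      rw [h6]
      apply Finset.sum_congr rfl
      intro k _
      rw [Finset.sum_eq_single k]
      · intro l _ hl
        rw [T.tr_dk_ne hEe hort hu (Ne.symm hl)]
        simp
      · intro h
        exact absurd (Finset.mem_univ k) h
    ext y
    refine T.hind (P := fun y => T.act w y = ((g * ρ) • T.proj X n) y) (by simp) ?_ ?_ y
    · intro i y hy
      rw [h5, LinearMap.smul_apply]
      by_cases hi : i = n
      · subst hi
        rw [T.proj_same hy]
        -- expand in the basis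
        have h7 : (⟨y, hy⟩ : T.deg X i) = ∑ j, e.repr ⟨y, hy⟩ j • e j := (e.sum_repr _).symm
        have h8 : y = ∑ j, e.repr ⟨y, hy⟩ j • E j := by
          have h := congrArg Subtype.val h7
          rw [AddSubmonoidClass.coe_finset_sum] at h
          exact h
        have h9 : ∀ k, T.tr X (y * E k) = e.repr ⟨y, hy⟩ k * T.tr X (E k * E k) := by
          intro k
          conv_lhs => rw [h8]
          rw [Finset.sum_mul, map_sum, Finset.sum_eq_single k]
          · rw [smul_mul_assoc, map_smul, smul_eq_mul]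
          · intro j _ hj
            rw [smul_mul_assoc, map_smul, hort j k hj, smul_zero]
          · intro h
            exact absurd (Finset.mem_univ k) h
        conv_rhs => rw [h8, Finset.smul_sum]
        apply Finset.sum_congr rfl
        intro k _
        rw [h9, smul_smul]
        congr 1
        have h10 := T.tr_dk_self hEe hort hu k
        rw [← hg] at h10
        rw [← h10]
        ring
      · rw [T.proj_ne hy hi, smul_zero]
        apply Finset.sum_eq_zero
        intro k _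
        rw [T.tr_mul_ne hy (hED k) (by omega)]
        simp
    · intro y z h6 h7
      rw [map_add, map_add, h6, h7]
  -- `w` is algebraic
  have hw0 : w ≠ 0 := by
    intro h0
    rw [h0, T.act_zero] at hact
    have h6 : T.proj X n (E 0) = 0 := by
      have := congrArg (fun f : T.H X →ₗ[K] T.H X => f (E 0)) hact
      simp only [LinearMap.zero_apply, LinearMap.smul_apply] at this
      rcases smul_eq_zero.mp this.symm with h | h
      · exact absurd h (mul_ne_zero hg0 hρ0)
      · exact h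
    rw [T.proj_same (hED 0)] at h6
    exact hself 0 (by rw [show (e 0 : T.H X) = 0 from h6]; simp)
  have hwdeg : w ∈ T.deg (X ⊗ X) (2 * n) := by
    rw [hw2]
    apply sum_mem
    intro k _
    apply sum_mem
    intro l _
    apply Submodule.smul_mem
    rw [two_mul]
    exact T.mul_deg (T.fst_deg (hED k)) (T.snd_deg (hED l))
  have hprod := T.C_mul (T.C_pull (Cohomology.be1 X (pw X c) (pw (pw X (c + 1)) m)) hk2)
    (T.C_pull (Cohomology.be2 X (pw X c) (pw (pw X (c + 1)) m)) hk2)
  have hpd := T.C_deg _ _ hprod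
  have hle : T.dim (pw X c ⊗ pw (pw X (c + 1)) m) ≤ k + k := by
    by_contra hlt
    apply hw0
    rw [hw]
    exact T.push_eq_zero hpd (by omega)
  obtain ⟨i, hi⟩ := Nat.exists_eq_add_of_le hle
  rw [hi] at hprod
  have hwC : w ∈ T.C (X ⊗ X) i := T.C_push hprod
  have hin : i = n := by
    have h6 := T.C_deg _ _ hwC
    have := DirectSum.degree_eq_of_mem_mem (T.deg (X ⊗ X)) h6 hwdeg hw0
    omega
  rw [hin, hn] at hwC
  have h7 : T.act w ∈ T.ops X := T.act_mem_ops.mpr hwC
  rw [hact] at h7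
  have h8 := Subalgebra.smul_mem (T.ops X) h7 (g * ρ)⁻¹
  rwa [smul_smul, inv_mul_cancel₀ (mul_ne_zero hg0 hρ0), one_smul] at h8

end WeilTheory

end Pool.KC
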