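import Pool.Agent.Work.MP_a60482_kc.Det2
import Pool.Agent.Work.MP_a60482_kc.Descend

open CategoryTheory MonoidalCategory CartesianMonoidalCategory

universe u v w x

namespace Pool.KC

namespace Cohomology

variable {V : Type u} [Category.{v} V] [CartesianMonoidalCategory V] {K : Type x} [Field K]
variable (T : Cohomology.{u, v, w, x} V K)

theorem tens_two {X : V} (D : T.H X) :
    T.tens (fun _ : Fin 2 => D) = T.pull (pr X 2 0) D * T.pull (pr X 2 1) D := by
  simp [tens, List.ofFn_succ]

theorem even_mem_center {X : V} {a : T.H X} (ha : a ∈ T.even X) :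
    a ∈ Subalgebra.center K (T.H X) := by
  rw [Subalgebra.mem_center_iff]
  intro b
  exact (T.even_central ha b).symm

/-- pull-backs of exterior products as determinants -/
theorem pull_wedge {X Y : V} {b : ℕ} (f : Y ⟶ pw X b) (a : Fin b → T.H X)
    (U : Matrix (Fin b) (Fin b) (Subalgebra.center K (T.H Y)))
    (hU : ∀ j k, (U j k : T.H Y) = T.pull (f ≫ pr X b j) (a k)) :
    T.pull f (T.wedge a) = (Subalgebra.center K (T.H Y)).val U.det := by
  unfold wedge
  rw [map_sum, ← Matrix.det_transpose, Matrix.det_apply', map_sum]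
  apply Finset.sum_congr rfl
  intro σ _
  rw [map_zsmul, map_mul, map_intCast, zsmul_eq_mul]
  congr 1
  unfold tens
  rw [← List.prod_ofFn, map_list_prod, map_list_prod, List.map_ofFn, List.map_ofFn]
  congr 2
  funext j
  simp only [Function.comp_apply, Matrix.transpose_apply]
  rw [T.pull_comp']
  exact (hU j (σ j)).symm

end Cohomology

namespace WeilTheory

variable {V : Type u} [Category.{v} V] [CartesianMonoidalCategory V] {K : Type x} [Field K]
variable (T : WeilTheory.{u, v, w, x} V K)

theorem det_mem {Y : V} {n b : ℕ}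
    (M : Matrix (Fin b) (Fin b) (Subalgebra.center K (T.H Y)))
    (hM : ∀ i j, (M i j : T.H Y) ∈ T.C Y n) :
    (Subalgebra.center K (T.H Y)).val M.det ∈ T.C Y (b * n) := by
  classical
  rw [Matrix.det_apply', map_sum]
  apply sum_mem
  intro σ _
  rw [map_mul, map_intCast, ← zsmul_eq_mul]
  apply zsmul_mem
  have h : ∀ s : Finset (Fin b), (Subalgebra.center K (T.H Y)).val (∏ i ∈ s, M (σ i) i) ∈
      T.C Y (s.card * n) := by
    intro s
    induction s using Finset.induction_on with
    | empty => simpa using T.C_one Y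
    | insert i s hi ih =>
      rw [Finset.prod_insert hi, map_mul, Finset.card_insert_of_notMem hi]
      have := T.C_mul (hM (σ i) i) ih
      rw [show (s.card + 1) * n = n + s.card * n by ring]
      exact this
  have := h Finset.univ
  rwa [Finset.card_univ, Fintype.card_fin] at this

theorem kunneth_orth {X : V} {n b : ℕ} (hn : n = T.dim X)
    (e : Module.Basis (Fin b) K (T.deg X n))
    (hort : ∀ i j, i ≠ j → T.tr X ((e i : T.H X) * (e j : T.H X)) = 0)
    (hself : ∀ i, T.tr X ((e i : T.H X) * (e i : T.H X)) ≠ 0) :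
    T.kunnethComponent X n = ∑ k, (T.tr X ((e k : T.H X) * (e k : T.H X)))⁻¹ •
      (T.pull (fst X X) (e k : T.H X) * T.pull (snd X X) (e k : T.H X)) := by
  apply T.act_injective
  rw [T.act_kunneth (by omega)]
  have h5 : ∀ y : T.H X, T.act (∑ k, (T.tr X ((e k : T.H X) * (e k : T.H X)))⁻¹ •
      (T.pull (fst X X) (e k : T.H X) * T.pull (snd X X) (e k : T.H X))) y =
      ∑ k, ((T.tr X ((e k : T.H X) * (e k : T.H X)))⁻¹ * T.tr X (y * (e k : T.H X))) •
        (e k : T.H X) := by
    intro y
    rw [T.act_apply, Finset.mul_sum, map_sum]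
    apply Finset.sum_congr rfl
    intro k _
    rw [mul_smul_comm, map_smul, ← T.act_apply, T.act_pure, smul_smul]
  ext y
  rw [h5]
  refine T.hind (P := fun y => T.proj X n y =
    ∑ k, ((T.tr X ((e k : T.H X) * (e k : T.H X)))⁻¹ * T.tr X (y * (e k : T.H X))) •
        (e k : T.H X)) (by simp) ?_ ?_ y
  · intro i y hy
    by_cases hi : i = n
    · subst hi
      rw [T.proj_same hy]
      have h7 : (⟨y, hy⟩ : T.deg X i) = ∑ j, e.repr ⟨y, hy⟩ j • e j := (e.sum_repr _).symm
      have h8 : y = ∑ j, e.repr ⟨y, hy⟩ j • (e j : T.H X) := by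
        have h := congrArg Subtype.val h7
        rw [AddSubmonoidClass.coe_finsetSum] at h
        exact h
      have h9 : ∀ k, T.tr X (y * (e k : T.H X)) =
          e.repr ⟨y, hy⟩ k * T.tr X ((e k : T.H X) * (e k : T.H X)) := by
        intro k
        conv_lhs => rw [h8]
        rw [Finset.sum_mul, map_sum, Finset.sum_eq_single k]
        · rw [smul_mul_assoc, map_smul, smul_eq_mul]
        · intro j _ hj
          rw [smul_mul_assoc, map_smul, hort j k hj, smul_zero]
        · intro h
          exact absurd (Finset.mem_univ k) h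
      conv_lhs => rw [h8]
      apply Finset.sum_congr rfl
      intro k _
      rw [h9]
      congr 1
      have := hself k
      field_simp
    · rw [T.proj_ne hy hi]
      symm
      apply Finset.sum_eq_zero
      intro k _
      rw [T.tr_mul_ne hy (e k).2 (by omega)]
      simp
  · intro y z h6 h7
    rw [map_add, h6, h7, ← Finset.sum_add_distrib]
    apply Finset.sum_congr rfl
    intro k _
    rw [add_mul, map_add, mul_add, add_smul]

/-- the determinant line: from the Kuenneth component to the square of the determinant -/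
theorem det_of_conjC [CharZero K] (hu : T.tr (𝟙_ V) 1 = 1) {X : V} {n : ℕ}
    (hn : n = T.dim X) (hev : Even n) (h : T.kunnethComponent X n ∈ T.C (X ⊗ X) n) :
    T.DetPowerAlgebraic X n := by
  classical
  obtain ⟨e, hort, hself⟩ := T.exists_orth X hn hev
  have hκ := T.kunneth_orth hn e hort hself
  have hEe : ∀ j, (e j : T.H X) ∈ T.even X := fun j => T.even_of_deg hev (e j).2
  refine ⟨2, by norm_num, fun j => (e j : T.H X), fun j => (e j).2, ?_, ?_⟩
  · -- nonzero
    intro h0
    generalize hb : Module.finrank K (T.deg X n) = b at e hort hself hκ hEe h0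
    rcases Nat.eq_zero_or_eq_succ_pred b with hb0 | hb1
    · subst hb0
      have h1 : T.wedge (fun j => (e j : T.H X)) = 1 := by
        unfold Cohomology.wedge
        rw [Finset.univ_unique, Finset.sum_singleton, T.tens_zero]
        simp
      rw [h1] at h0
      have h2 : T.tr (pw X 0) 1 = 1 := hu
      rw [h0, map_zero] at h2
      exact zero_ne_one h2
    · generalize b.pred = c at hb1
      subst hb1
      have h1 := T.tr_wedge_sq (e := fun j => (e j : T.H X)) hEe hort hu
      rw [h0, zero_mul, map_zero] at h1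
      exact (mul_ne_zero (Nat.cast_ne_zero.mpr (Nat.succ_ne_zero c))
        (mul_ne_zero (Nat.cast_ne_zero.mpr (Nat.factorial_ne_zero c))
        (Finset.prod_ne_zero_iff.mpr fun i _ => hself i))) h1.symm
  · -- algebraic
    generalize Module.finrank K (T.deg X n) = b at e hort hself hκ hEe
    refine ⟨b * n, ?_⟩
    rw [T.tens_two]
    set Y := pw (pw X b) 2 with hY
    let U : Matrix (Fin b) (Fin b) (Subalgebra.center K (T.H Y)) := fun j k =>
      ⟨T.pull (pr (pw X b) 2 0 ≫ pr X b j) (e k : T.H X),
        T.even_mem_center (T.even_pull _ (hEe k))⟩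
    let W : Matrix (Fin b) (Fin b) (Subalgebra.center K (T.H Y)) := fun j k =>
      ⟨T.pull (pr (pw X b) 2 1 ≫ pr X b j) (e k : T.H X),
        T.even_mem_center (T.even_pull _ (hEe k))⟩
    rw [T.pull_wedge (pr (pw X b) 2 0) (fun j => (e j : T.H X)) U (fun _ _ => rfl),
      T.pull_wedge (pr (pw X b) 2 1) (fun j => (e j : T.H X)) W (fun _ _ => rfl)]
    set d : Fin b → K := fun k => T.tr X ((e k : T.H X) * (e k : T.H X)) with hd
    set M : Matrix (Fin b) (Fin b) (Subalgebra.center K (T.H Y)) :=
      U * Matrix.diagonal (fun k => algebraMap K (Subalgebra.center K (T.H Y)) (d k)⁻¹) *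
        W.transpose with hM
    have h1 : ∀ i j, (M i j : T.H Y) ∈ T.C Y n := by
      intro i j
      have h2 : (M i j : T.H Y) =
          T.pull (lift (pr (pw X b) 2 0 ≫ pr X b i) (pr (pw X b) 2 1 ≫ pr X b j))
            (T.kunnethComponent X n) := by
        rw [hκ, map_sum, hM, Matrix.mul_apply]
        change (Subalgebra.center K (T.H Y)).val _ = _
        rw [map_sum]
        apply Finset.sum_congr rfl
        intro k _
        rw [Matrix.mul_diagonal, Matrix.transpose_apply, map_smul]
        have h7 : T.pull (lift (pr (pw X b) 2 0 ≫ pr X b i) (pr (pw X b) 2 1 ≫ pr X b j))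
            (T.pull (fst X X) (e k : T.H X) * T.pull (snd X X) (e k : T.H X)) =
            T.pull (pr (pw X b) 2 0 ≫ pr X b i) (e k : T.H X) *
              T.pull (pr (pw X b) 2 1 ≫ pr X b j) (e k : T.H X) := by
          rw [map_mul, T.pull_comp', T.pull_comp', lift_fst, lift_snd]
        rw [h7]
        change T.pull (pr (pw X b) 2 0 ≫ pr X b i) (e k : T.H X) *
          algebraMap K (T.H Y) (d k)⁻¹ * T.pull (pr (pw X b) 2 1 ≫ pr X b j) (e k : T.H X) = _
        rw [← Algebra.commutes, mul_assoc, ← Algebra.smul_def]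
      rw [h2]
      exact T.C_pull _ h
    have h3 := T.det_mem M h1
    have h4 : M.det = U.det * W.det * algebraMap K (Subalgebra.center K (T.H Y))
        (∏ k, (d k)⁻¹) := by
      rw [hM, Matrix.det_mul, Matrix.det_mul, Matrix.det_transpose, Matrix.det_diagonal,
        map_prod]
      ring
    have h5 : (Subalgebra.center K (T.H Y)).val M.det = (∏ k, (d k)⁻¹) •
        ((Subalgebra.center K (T.H Y)).val U.det * (Subalgebra.center K (T.H Y)).val W.det) := by
      rw [h4, map_mul, map_mul]
      change _ * algebraMap K (T.H Y) (∏ k, (d k)⁻¹) = _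
      rw [← Algebra.commutes, ← Algebra.smul_def]
    rw [h5] at h3
    have h6 := Submodule.smul_mem _ (∏ k, (d k)⁻¹)⁻¹ h3
    rwa [smul_smul, inv_mul_cancel₀ (Finset.prod_ne_zero_iff.mpr fun k _ =>
      inv_ne_zero (hself k)), one_smul] at h6

end WeilTheory

end Pool.KC
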