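import Pool.Agent.Work.MP_a60482_kc.Api
import Pool.Agent.Work.MP_a60482_kc.Defs

/-!
# Exterior products of classes and determinant lines
-/

open CategoryTheory MonoidalCategory CartesianMonoidalCategory

universe u v w x

namespace Pool.KC

namespace Cohomology

variable {V : Type u} [Category.{v} V] [CartesianMonoidalCategory V] {K : Type x} [Field K]
variable (T : Cohomology.{u, v, w, x} V K)

/-- The class `a_1 ⊠ ... ⊠ a_m = pr_1^* a_1 * ... * pr_m^* a_m` on `X^m`. -/
def tens {X : V} {m : ℕ} (a : Fin m → T.H X) : T.H (pw X m) :=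
  (List.ofFn fun j => T.pull (pr X m j) (a j)).prod

/-- The class `a_1 ∧ ... ∧ a_m = ∑ sign(σ) a_σ(1) ⊠ ... ⊠ a_σ(m)` on `X^m`. -/
def wedge {X : V} {m : ℕ} (a : Fin m → T.H X) : T.H (pw X m) :=
  ∑ σ : Equiv.Perm (Fin m), (Equiv.Perm.sign σ : ℤ) • T.tens fun j => a (σ j)

end Cohomology

namespace WeilTheory

variable {V : Type u} [Category.{v} V] [CartesianMonoidalCategory V] {K : Type x} [Field K]
variable (T : WeilTheory.{u, v, w, x} V K)

/-- Some power `(det H^n(X))^{⊗ m}`, `m ≥ 1`, of the determinant line of `H^n(X)` is spanned by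
an algebraic class: with `b = dim H^n(X)`, there are classes `a_1, ..., a_b` in `H^n(X)` such
that `a_1 ∧ ... ∧ a_b` is a nonzero class on `X^b` whose `m`-th exterior tensor power is an
algebraic class on `(X^b)^m`. -/
def DetPowerAlgebraic (X : V) (n : ℕ) : Prop :=
  ∃ m ≥ 1, ∃ a : Fin (Module.finrank K (T.deg X n)) → T.H X,
    (∀ j, a j ∈ T.deg X n) ∧ T.wedge a ≠ 0 ∧
      ∃ k, T.tens (fun _ : Fin m => T.wedge a) ∈
        T.C (pw (pw X (Module.finrank K (T.deg X n))) m) k

end WeilTheory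

end Pool.KC
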