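import Pool.Agent.Work.MP_a60482_kc.Det3

open CategoryTheory MonoidalCategory CartesianMonoidalCategory

universe u v w x

namespace Pool.KC

/-- `X × E × ... × E` -/
def ex {V : Type u} [Category.{v} V] [CartesianMonoidalCategory V] (X E : V) : ℕ → V
  | 0 => X
  | r + 1 => ex X E r ⊗ E

namespace WeilTheory

variable {V : Type u} [Category.{v} V] [CartesianMonoidalCategory V] {K : Type x} [Field K]
variable (T : WeilTheory.{u, v, w, x} V K)

theorem dim_ex {X E : V} (hE : T.dim E = 1) (r : ℕ) : T.dim (ex X E r) = T.dim X + r := by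
  induction r with
  | zero => rfl
  | succ r ih =>
    have : T.dim (ex X E r ⊗ E) = _ := T.dim_prod (ex X E r) E
    change T.dim (ex X E r ⊗ E) = _
    rw [this, ih, hE]
    ring

theorem descend_ex [CharZero K] {X E : V} (hE : T.dim E = 1) (hC : T.ConjC E)
    (h0 : ∀ j ≤ 2, T.proj E j ≠ 0) {i : ℕ} (hi : i ≤ 2 * T.dim X) (r : ℕ) :
    ∀ k, i ≤ k → k ≤ i + 2 * r → T.proj (ex X E r) k ∈ T.ops (ex X E r) →
      T.proj X i ∈ T.ops X := by
  induction r with
  | zero =>
    intro k h1 h2 h
    have : k = i := by omega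
    subst this
    exact h
  | succ r ih =>
    intro k h1 h2 h
    obtain ⟨j, k', hj, hk, h3, h4⟩ : ∃ j k', j ≤ 2 ∧ k = k' + j ∧ i ≤ k' ∧ k' ≤ i + 2 * r := by
      by_cases hr : k ≤ i + 2 * r
      · exact ⟨0, k, by omega, by omega, h1, hr⟩
      · by_cases hr' : k ≤ i + 2 * r + 1
        · exact ⟨1, k - 1, by omega, by omega, by omega, by omega⟩
        · exact ⟨2, k - 2, by omega, by omega, by omega, by omega⟩
    subst hk
    apply ih k' h3 h4
    have h5 : T.proj (ex X E r ⊗ E) (k' + j) ∈ T.ops (ex X E r ⊗ E) := h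
    refine T.descend (X := ex X E r) (P := E) (j := j) ?_ (by omega) hC (h0 _ ?_) h5
    · rw [T.dim_ex hE]
      omega
    · rw [hE]
      omega

/-- `C` for all objects, in terms of determinant lines -/
theorem forall_conjC_iff_det [CharZero K] (E : V) (hE : T.dim E = 1) (hC : T.ConjC E)
    (hd : T.deg E 1 ≠ ⊥) (N : Set ℕ) (hev : ∀ n ∈ N, Even n) (hinf : N.Infinite) :
    (∀ X, T.ConjC X) ↔ ∀ X, T.dim X ∈ N → T.DetPowerAlgebraic X (T.dim X) := by
  obtain ⟨a, ha, ha0⟩ := Submodule.exists_mem_ne_zero_of_ne_bot hd
  obtain ⟨b, hb⟩ := T.exists_tr_ne ha0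
  have hu := T.tr_unit hb
  constructor
  · intro h X hX
    refine T.det_of_conjC hu rfl (hev _ hX) ?_
    exact h X _ (by omega)
  · intro h X
    rw [T.conjC_iff]
    intro i
    by_cases hi : i ≤ 2 * T.dim X
    · obtain ⟨n, hn, hlt⟩ := hinf.exists_gt (2 * T.dim X)
      have hdim : T.dim (ex X E (n - T.dim X)) = n := by
        rw [T.dim_ex hE]
        omega
      refine T.descend_ex hE hC ?_ hi (n - T.dim X) n (by omega) (by omega) ?_
      · have h1 : (1 : T.H E) ≠ 0 := by
          intro h1
          apply ha0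
          rw [← mul_one a, h1, mul_zero]
        intro j hj
        interval_cases j
        · intro h2
          apply h1
          rw [← T.proj_same (T.one_deg (X := E)), h2]
          rfl
        · intro h2
          apply ha0
          rw [← T.proj_same ha, h2]
          rfl
        · intro h2
          apply hb
          have h3 := T.tr_mul_proj (i := 2) b (T.one_deg (X := E)) (by omega)
          rw [mul_one, mul_one] at h3
          rw [← h3, h2]
          simp
      · refine T.proj_mem_of_det hu hdim.symm (hev _ hn) ?_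
        have h2 := h (ex X E (n - T.dim X)) (by rw [hdim]; exact hn)
        rwa [hdim] at h2
    · rw [T.proj_eq_zero (by omega)]
      exact zero_mem _

/-- `C(E)` for a curve `E` -/
theorem conjC_curve {E : V} (hE : T.dim E = 1)
    (h0 : ∀ a ∈ T.deg E 0, ∃ c : K, a = c • (1 : T.H E))
    (hp : ∃ p ∈ T.C E 1, T.tr E p ≠ 0) : T.ConjC E := by
  obtain ⟨p, hp, htr⟩ := hp
  have hpd : p ∈ T.deg E 2 := T.C_deg _ _ hp
  have hc0 : T.proj E 0 ∈ T.ops E := by
    have h1 : T.act (T.pull (fst E E) p * T.pull (snd E E) 1) ∈ T.ops E := by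
      rw [T.act_mem_ops, hE]
      exact T.C_mul (T.C_pull (fst E E) hp) (T.C_pull (snd E E) (T.C_one E))
    have h2 : T.act (T.pull (fst E E) p * T.pull (snd E E) 1) = T.tr E p • T.proj E 0 := by
      ext a
      rw [T.act_pure, LinearMap.smul_apply]
      refine T.hind (P := fun a => T.tr E (a * p) • (1 : T.H E) = T.tr E p • T.proj E 0 a)
        (by simp) ?_ ?_ a
      · intro i a ha
        by_cases hi : i = 0
        · subst hi
          rw [T.proj_same ha]
          obtain ⟨c, rfl⟩ := h0 a ha
          rw [smul_mul_assoc, one_mul, map_smul, smul_smul, smul_eq_mul, mul_comm]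
        · rw [T.tr_mul_ne ha hpd (by omega), T.proj_ne ha hi, zero_smul, smul_zero]
      · intro a b h3 h4
        rw [add_mul, map_add, add_smul, h3, h4, map_add, smul_add]
    rw [h2] at h1
    have h3 := Subalgebra.smul_mem (T.ops E) h1 (T.tr E p)⁻¹
    rwa [smul_smul, inv_mul_cancel₀ htr, one_smul] at h3
  have hc2 : T.proj E 2 ∈ T.ops E := by
    have h1 : T.act (T.pull (fst E E) 1 * T.pull (snd E E) p) ∈ T.ops E := by
      rw [T.act_mem_ops, hE]
      exact T.C_mul (T.C_pull (fst E E) (T.C_one E)) (T.C_pull (snd E E) hp)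
    have h2 : T.act (T.pull (fst E E) 1 * T.pull (snd E E) p) = T.tr E p • T.proj E 2 := by
      ext a
      rw [T.act_pure, LinearMap.smul_apply, mul_one]
      refine T.hind (P := fun a => T.tr E a • p = T.tr E p • T.proj E 2 a)
        (by simp) ?_ ?_ a
      · intro i a ha
        by_cases hi : i = 2
        · subst hi
          rw [T.proj_same ha, ← sub_eq_zero]
          apply T.eq_zero_of_deg (sub_mem (Submodule.smul_mem _ _ hpd) (Submodule.smul_mem _ _ ha))
          intro j hj b hb
          have hj0 : j = 0 := by omega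
          subst hj0
          obtain ⟨c, rfl⟩ := h0 b hb
          rw [smul_mul_assoc, one_mul, map_smul, map_sub, map_smul, map_smul]
          simp only [smul_eq_mul]
          ring
        · rw [T.tr_deg ha (by omega), T.proj_ne ha hi, zero_smul, smul_zero]
      · intro a b h3 h4
        rw [map_add, add_smul, h3, h4, map_add, smul_add]
    rw [h2] at h1
    have h3 := Subalgebra.smul_mem (T.ops E) h1 (T.tr E p)⁻¹
    rwa [smul_smul, inv_mul_cancel₀ htr, one_smul] at h3
  rw [T.conjC_iff]
  intro i
  by_cases hi : i ≤ 2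
  · interval_cases i
    · exact hc0
    · have h1 : T.proj E 1 = 1 - T.proj E 0 - T.proj E 2 := by
        ext a
        refine T.hind (P := fun a => T.proj E 1 a = (1 - T.proj E 0 - T.proj E 2) a)
          (by simp) ?_ ?_ a
        · intro i a ha
          by_cases hi : i ≤ 2
          · interval_cases i
            · simp [T.proj_same ha, T.proj_ne ha (show 0 ≠ 1 by omega),
                T.proj_ne ha (show 0 ≠ 2 by omega)]
            · simp [T.proj_same ha, T.proj_ne ha (show 1 ≠ 0 by omega),
                T.proj_ne ha (show 1 ≠ 2 by omega)]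
            · simp [T.proj_same ha, T.proj_ne ha (show 2 ≠ 1 by omega),
                T.proj_ne ha (show 2 ≠ 0 by omega)]
          · rw [T.deg_eq_zero ha (by omega)]
            simp
        · intro a b h3 h4
          rw [map_add, map_add, h3, h4]
      rw [h1]
      exact sub_mem (sub_mem (one_mem _) hc0) hc2
    · exact hc2
  · rw [T.proj_eq_zero (by omega)]
    exact zero_mem _

end WeilTheory

end Pool.KC
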