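import Pool.Agent.Work.MP_a60482_kc.Alg
import Pool.Agent.Work.MP_a60482_kc.Base

open CategoryTheory MonoidalCategory CartesianMonoidalCategory

universe u v w x

namespace Pool.KC

theorem neg_one_aux {K : Type*} [Field K] {a b c d n : ℕ} (h1 : a + c = 2 * n)
    (h2 : b + d = 2 * n) :
    (-1 : K) ^ (b * c) = (-1) ^ (c * d) * ((-1) ^ c * (-1) ^ (c * a)) := by
  rcases Nat.even_or_odd c with hc | hc
  · rw [(hc.mul_left b).neg_one_pow, (hc.mul_right d).neg_one_pow, hc.neg_one_pow,
      (hc.mul_right a).neg_one_pow]
    simp
  · have ha : Odd a := by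
      rw [← Nat.not_even_iff_odd] at hc ⊢
      intro h
      apply hc
      have : Even (a + c) := by rw [h1]; exact even_two_mul n
      exact (Nat.even_add.mp this).mp h
    rcases Nat.even_or_odd d with hd | hd
    · have hb : Even b := by
        have : Even (b + d) := by rw [h2]; exact even_two_mul n
        exact (Nat.even_add.mp this).mpr hd
      rw [(hb.mul_right c).neg_one_pow, (hd.mul_left c).neg_one_pow, hc.neg_one_pow,
        (hc.mul ha).neg_one_pow]
      simp
    · have hb : Odd b := by
        rw [← Nat.not_even_iff_odd] at hd ⊢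
        intro h
        apply hd
        have : Even (b + d) := by rw [h2]; exact even_two_mul n
        exact (Nat.even_add.mp this).mp h
      rw [(hb.mul hc).neg_one_pow, (hc.mul hd).neg_one_pow, hc.neg_one_pow,
        (hc.mul ha).neg_one_pow]
      simp

namespace Cohomology

variable {V : Type u} [Category.{v} V] [CartesianMonoidalCategory V] {K : Type x} [Field K]
variable (T : Cohomology.{u, v, w, x} V K)

theorem projs (X : V) : Projs (T.proj X) (2 * T.dim X + 1) where
  idem i := by
    ext a
    exact T.proj_same (T.proj_mem _ _)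
  orth i j hij := by
    ext a
    exact T.proj_ne (T.proj_mem _ _) (Ne.symm hij)
  sum := by
    ext a
    rw [LinearMap.sum_apply, Module.End.one_apply]
    refine T.hind (P := fun a => ∑ i ∈ Finset.range (2 * T.dim X + 1), T.proj X i a = a)
      (by simp) ?_ ?_ a
    · intro i a ha
      by_cases hi : i < 2 * T.dim X + 1
      · rw [Finset.sum_eq_single i]
        · exact T.proj_same ha
        · intro j _ hj
          exact T.proj_ne ha (Ne.symm hj)
        · intro h
          exact absurd (Finset.mem_range.mpr hi) h
      · rw [T.deg_eq_zero ha (by omega)]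
        simp
    · intro a b h1 h2
      simp only [map_add, Finset.sum_add_distrib, h1, h2]

/-- exchange of the two factors -/
abbrev swap (X : V) : X ⊗ X ⟶ X ⊗ X := lift (snd X X) (fst X X)

theorem swap_swap (X : V) (z : T.H (X ⊗ X)) : T.pull (swap X) (T.pull (swap X) z) = z := by
  rw [T.pull_comp']
  have : swap X ≫ swap X = 𝟙 (X ⊗ X) := by
    ext <;> simp [swap]
  rw [this, T.pull_id]

/-- The intersection number of two classes on `X × X` is the supertrace of the composition. -/
theorem tr_mul_eq_str (X : V) (z y : T.H (X ⊗ X)) :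
    T.tr (X ⊗ X) (z * y) =
      str (T.proj X) (2 * T.dim X + 1) (T.act (T.pull (swap X) y) * T.act z) := by
  refine T.kind' (P := fun z => T.tr (X ⊗ X) (z * y) =
      str (T.proj X) (2 * T.dim X + 1) (T.act (T.pull (swap X) y) * T.act z))
    (by simp [act_zero]) ?_ ?_ z
  · intro a b p q hp hq
    refine T.kind' (P := fun y =>
      T.tr (X ⊗ X) (T.pull (fst X X) p * T.pull (snd X X) q * y) =
      str (T.proj X) (2 * T.dim X + 1) (T.act (T.pull (swap X) y) *
        T.act (T.pull (fst X X) p * T.pull (snd X X) q))) (by simp [act_zero]) ?_ ?_ y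
    · intro c d r s hr hs
      -- left side
      have hL : T.tr (X ⊗ X) (T.pull (fst X X) p * T.pull (snd X X) q *
          (T.pull (fst X X) r * T.pull (snd X X) s)) =
          (-1) ^ (b * c) * (T.tr X (p * r) * T.tr X (q * s)) := by
        have h1 := T.comm (T.snd_deg (X := X) hq) (T.fst_deg (Y := X) hr)
        have h2 : T.pull (fst X X) p * T.pull (snd X X) q *
            (T.pull (fst X X) r * T.pull (snd X X) s) =
            (-1) ^ (b * c) * (T.pull (fst X X) (p * r) * T.pull (snd X X) (q * s)) := by
          rw [mul_assoc, ← mul_assoc (T.pull (snd X X) q), h1, map_mul, map_mul]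
          have h3 : ∀ t : T.H (X ⊗ X), Commute ((-1 : T.H (X ⊗ X)) ^ (b * c)) t := fun t =>
            (Commute.neg_one_left t).pow_left _
          have := (h3 (T.pull (fst X X) p)).eq
          simp only [mul_assoc]
          rw [← mul_assoc (T.pull (fst X X) p), ← this]
          simp only [mul_assoc]
        rw [h2, ← Int.cast_one, ← Int.cast_neg, ← Int.cast_pow, ← zsmul_eq_mul, map_zsmul,
          T.tr_prod, zsmul_eq_mul]
        simp
      -- right side
      have hsw : T.pull (swap X) (T.pull (fst X X) r * T.pull (snd X X) s) =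
          (-1 : K) ^ (c * d) • (T.pull (fst X X) s * T.pull (snd X X) r) := by
        rw [map_mul, T.pull_comp', T.pull_comp', lift_fst, lift_snd,
          T.comm (T.snd_deg (X := X) hr) (T.fst_deg (Y := X) hs)]
        rw [Algebra.smul_def, map_pow, map_neg, map_one]
      have hop : T.act (T.pull (swap X) (T.pull (fst X X) r * T.pull (snd X X) s)) *
          T.act (T.pull (fst X X) p * T.pull (snd X X) q) =
          ((-1 : K) ^ (c * d) * T.tr X (q * s)) • (T.dualMap X p).smulRight r := by
        ext t
        rw [hsw, T.act_smul]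
        simp only [Module.End.mul_apply, LinearMap.smul_apply, LinearMap.smulRight_apply]
        rw [T.act_pure, T.act_pure, T.dualMap_apply, smul_mul_assoc, map_smul, smul_smul,
          smul_smul]
        congr 1
        rw [smul_eq_mul]
        ring
      have hR : str (T.proj X) (2 * T.dim X + 1)
          (T.act (T.pull (swap X) (T.pull (fst X X) r * T.pull (snd X X) s)) *
          T.act (T.pull (fst X X) p * T.pull (snd X X) q)) =
          (-1) ^ (c * d) * T.tr X (q * s) * ((-1) ^ c * T.tr X (r * p)) := by
        rw [hop, map_smul, smul_eq_mul]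
        congr 1
        rw [str_apply]
        have h1 : ∀ i, LinearMap.trace K (T.H X) ((T.dualMap X p).smulRight r * T.proj X i) =
            T.tr X (T.proj X i r * p) := by
          intro i
          have : (T.dualMap X p).smulRight r * T.proj X i =
              ((T.dualMap X p) ∘ₗ T.proj X i).smulRight r := by
            ext t
            rfl
          rw [this, LinearMap.trace_smulRight]
          rfl
        simp only [h1]
        by_cases hc : c < 2 * T.dim X + 1
        · rw [Finset.sum_eq_single c]
          · rw [T.proj_same hr]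
          · intro j _ hj
            rw [T.proj_ne hr (Ne.symm hj), zero_mul, map_zero, mul_zero]
          · intro h
            exact absurd (Finset.mem_range.mpr hc) h
        · rw [T.deg_eq_zero hr (by omega)]
          simp
      rw [hL, hR]
      by_cases h1 : a + c = 2 * T.dim X
      · by_cases h2 : b + d = 2 * T.dim X
        · have h3 : T.tr X (r * p) = (-1) ^ (c * a) * T.tr X (p * r) := by
            rw [T.comm hr hp, ← Int.cast_one, ← Int.cast_neg, ← Int.cast_pow, ← zsmul_eq_mul,
              map_zsmul, zsmul_eq_mul]
            simp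
          rw [h3, neg_one_aux h1 h2]
          ring
        · rw [T.tr_mul_ne hq hs h2]
          ring
      · rw [T.tr_mul_ne hp hr h1, T.tr_mul_ne hr hp (by omega)]
        ring
    · intro y y' h1 h2
      rw [mul_add, map_add, h1, h2, map_add, T.act_add, add_mul, map_add]
  · intro z z' h1 h2
    rw [add_mul, map_add, h1, h2, T.act_add, mul_add, map_add]

end Cohomology

namespace WeilTheory

variable {V : Type u} [Category.{v} V] [CartesianMonoidalCategory V] {K : Type x} [Field K]
variable (T : WeilTheory.{u, v, w, x} V K)

theorem ops_mul_proj {X : V} {f : Module.End K (T.H X)} (hf : f ∈ T.ops X) (i : ℕ) :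
    f * T.proj X i = T.proj X i * f := by
  ext a
  change f (T.proj X i a) = T.proj X i (f a)
  refine T.hind (P := fun a => f (T.proj X i a) = T.proj X i (f a)) (by simp) ?_ ?_ a
  · intro j a ha
    by_cases hj : j = i
    · subst hj
      rw [T.proj_same ha, T.proj_same (T.ops_deg hf ha)]
    · rw [T.proj_ne ha hj, T.proj_ne (T.ops_deg hf ha) hj, map_zero]
  · intro a b h1 h2
    simp only [map_add, h1, h2]

/-- **`C(X)` may be tested up to numerical equivalence.** -/
theorem conjC_iff_num [CharZero K] (X : V) :
    T.ConjC X ↔ ∃ z : ℕ → T.H (X ⊗ X), ∀ i ≤ 2 * T.dim X,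
      z i ∈ T.C (X ⊗ X) (T.dim X) ∧
      (∀ y ∈ T.C (X ⊗ X) (T.dim X),
        T.tr (X ⊗ X) (z i * y) = T.tr (X ⊗ X) (T.kunnethComponent X i * y)) ∧
      (∀ y ∈ T.C (X ⊗ X) (T.dim X),
        T.tr (X ⊗ X) (T.comp (z i) (z i) * y) = T.tr (X ⊗ X) (z i * y)) := by
  constructor
  · intro h
    refine ⟨T.kunnethComponent X, fun i hi => ⟨h i hi, fun y _ => rfl, fun y _ => ?_⟩⟩
    have : T.comp (T.kunnethComponent X i) (T.kunnethComponent X i) =
        T.kunnethComponent X i := by
      apply T.act_injective
      rw [T.act_comp, T.act_kunneth hi]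
      ext a
      exact T.proj_same (T.proj_mem _ _)
    rw [this]
  · rintro ⟨z, hz⟩
    rw [T.conjC_iff]
    have hc : ∀ f ∈ T.ops X, ∀ i, f * T.proj X i = T.proj X i * f := fun f hf i =>
      T.ops_mul_proj hf i
    have hmain : ∀ j < 2 * T.dim X + 1, T.proj X j ∈ T.ops X := by
      refine proj_mem_of_str (T.projs X) (T.ops X) hc (fun i => T.act (z i)) ?_ ?_ ?_
      · intro i hi
        exact T.act_mem_ops.mpr (hz i (by omega)).1
      · rintro i hi f ⟨y, hy, rfl⟩
        have h1 := (hz i (by omega)).2.1 (T.pull (Cohomology.swap X) y) (T.C_pull _ hy)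
        rw [T.tr_mul_eq_str, T.tr_mul_eq_str, T.swap_swap, T.act_kunneth (by omega)] at h1
        rw [str_comm (T.ops X) hc (T.act_mem_ops.mpr (hz i (by omega)).1) (T.act_mem_ops.mpr hy),
          h1, str_apply, Finset.sum_eq_single i]
        · rw [mul_assoc, (T.projs X).idem]
        · intro k _ hk
          rw [mul_assoc, (T.projs X).orth i k (Ne.symm hk), mul_zero, map_zero, mul_zero]
        · intro h
          exact absurd (Finset.mem_range.mpr hi) h
      · rintro i hi f ⟨y, hy, rfl⟩
        have h1 := (hz i (by omega)).2.2 (T.pull (Cohomology.swap X) y) (T.C_pull _ hy)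
        rw [T.tr_mul_eq_str, T.tr_mul_eq_str, T.swap_swap, T.act_comp] at h1
        have hzo : T.act (z i) ∈ T.ops X := T.act_mem_ops.mpr (hz i (by omega)).1
        have hyo : T.act y ∈ T.ops X := T.act_mem_ops.mpr hy
        rw [str_comm (T.ops X) hc hzo hyo, str_comm (T.ops X) hc (mul_mem hzo hzo) hyo]
        exact h1
    intro i
    by_cases hi : i < 2 * T.dim X + 1
    · exact hmain i hi
    · rw [T.proj_eq_zero (by omega)]
      exact zero_mem _

end WeilTheory

end Pool.KC
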