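import Pool.Agent.Work.MP_a60482_kc.IndepDefs
import Pool.Agent.Work.MP_a60482_kc.Num

open CategoryTheory MonoidalCategory CartesianMonoidalCategory

universe u v w x y w' x'

namespace Pool.KC

section Alg

variable {K H K' H' : Type*} [Field K] [AddCommGroup H] [Module K H] [FiniteDimensional K H]
  [Field K'] [AddCommGroup H'] [Module K' H'] [FiniteDimensional K' H'] [CharZero K]
  [CharZero K']

/-- the span of a multiplicatively closed set containing `1` -/
def spanAlg {K E : Type*} [Field K] [Ring E] [Algebra K E] (S : Set E) (h1 : 1 ∈ S)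
    (hm : ∀ a ∈ S, ∀ b ∈ S, a * b ∈ S) : Subalgebra K E :=
  (Submodule.span K S).toSubalgebra (Submodule.subset_span h1) (by
    intro a b ha hb
    induction ha using Submodule.span_induction with
    | mem a ha =>
      induction hb using Submodule.span_induction with
      | mem b hb => exact Submodule.subset_span (hm a ha b hb)
      | zero => rw [mul_zero]; exact zero_mem _
      | add b c _ _ h1 h2 => rw [mul_add]; exact add_mem h1 h2
      | smul k b _ h => rw [mul_smul_comm]; exact Submodule.smul_mem _ _ h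
    | zero => rw [zero_mul]; exact zero_mem _
    | add b c _ _ h1 h2 => rw [add_mul]; exact add_mem h1 h2
    | smul k b _ h => rw [smul_mul_assoc]; exact Submodule.smul_mem _ _ h)

theorem mem_spanAlg {K E : Type*} [Field K] [Ring E] [Algebra K E] (S : Set E) (h1 : 1 ∈ S)
    (hm : ∀ a ∈ S, ∀ b ∈ S, a * b ∈ S) (a : E) :
    a ∈ spanAlg (K := K) S h1 hm ↔ a ∈ Submodule.span K S := Iff.rfl

/-- for one of the two sides -/
theorem pow_of_pair {p : ℕ → Module.End K H} {M : ℕ} (hp : Projs p M)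
    (S : Set (Module.End K H)) (h1 : 1 ∈ S) (hm : ∀ a ∈ S, ∀ b ∈ S, a * b ∈ S)
    (hc : ∀ r ∈ S, ∀ i, r * p i = p i * r) {z : Module.End K H} (hz : z ∈ S) (j : ℕ)
    (hj : j < M) (h : ∀ i < M, ∀ f ∈ S, LinearMap.trace K H (z * f * p i) =
      if i = j then LinearMap.trace K H (f * p i) else 0) :
    ∃ d0, ∀ d, d0 ≤ d → 1 - (1 - z ^ d) ^ d = p j := by
  apply exists_pow_eq hp (spanAlg (K := K) S h1 hm) _ _ j _ hj
  · intro f hf i
    rw [mem_spanAlg] at hf
    induction hf using Submodule.span_induction with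
    | mem f hf => exact hc f hf i
    | zero => simp
    | add b c _ _ h1 h2 => rw [add_mul, mul_add, h1, h2]
    | smul k b _ h => rw [smul_mul_assoc, mul_smul_comm, h]
  · exact Submodule.subset_span hz
  · intro i hi f hf
    rw [mem_spanAlg] at hf
    induction hf using Submodule.span_induction with
    | mem f hf => exact h i hi f hf
    | zero => simp
    | add b c _ _ h1 h2 =>
      rw [mul_add, add_mul, map_add, h1, h2, add_mul, map_add]
      split_ifs <;> simp
    | smul k b _ h =>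
      rw [mul_smul_comm, smul_mul_assoc, map_smul, h, smul_mul_assoc, map_smul]
      split_ifs <;> simp

/-- a `ℚ`-linear retraction `K → ℚ` -/
theorem exists_retraction (K : Type*) [Field K] [CharZero K] :
    ∃ ρ : K →ₗ[ℚ] ℚ, ∀ q : ℚ, ρ (q : K) = q := by
  obtain ⟨ρ, hρ⟩ := LinearMap.exists_leftInverse_of_injective
    (Algebra.linearMap ℚ K) (LinearMap.ker_eq_bot.mpr (algebraMap ℚ K).injective)
  refine ⟨ρ, fun q => ?_⟩
  have := LinearMap.congr_fun hρ q
  simpa using this

/-- Let `R` be a set of pairs of endomorphisms closed under the `ℚ`-algebra operations, with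
equal rational traces on the pieces of the two gradings.  If the projectors `p j` lie in the
`K`-span of the first components, then the pairs `(p j, p' j)` lie in `R`. -/
theorem pair_mem {p : ℕ → Module.End K H} {p' : ℕ → Module.End K' H'} {M : ℕ}
    (hp : Projs p M) (hp' : Projs p' M)
    (R : Subring (Module.End K H × Module.End K' H'))
    (hRq : ∀ (q : ℚ), ∀ r ∈ R, ((q : K) • r.1, (q : K') • r.2) ∈ R)
    (hc : ∀ r ∈ R, ∀ i, r.1 * p i = p i * r.1) (hc' : ∀ r ∈ R, ∀ i, r.2 * p' i = p' i * r.2)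
    (htr : ∀ r ∈ R, ∀ i < M, ∃ q : ℚ, LinearMap.trace K H (r.1 * p i) = (q : K) ∧
      LinearMap.trace K' H' (r.2 * p' i) = (q : K'))
    (j : ℕ) (hj : j < M) (h : p j ∈ Submodule.span K
      (Prod.fst '' (R : Set (Module.End K H × Module.End K' H')))) :
    (p j, p' j) ∈ R := by
  classical
  obtain ⟨ρ, hρ⟩ := exists_retraction K
  have hρm : ∀ (k : K) (q : ℚ), ρ (k * (q : K)) = ρ k * q := by
    intro k q
    have : k * (q : K) = q • k := by
      rw [Rat.smul_def, mul_comm]
    rw [this, map_smul, smul_eq_mul, mul_comm]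
  -- write `p j` as a combination of elements of `R`
  rw [Finsupp.mem_span_image_iff_linearCombination] at h
  obtain ⟨l, hl, hlp⟩ := h
  have hlR : ∀ m ∈ l.support, m ∈ R := fun m hm => hl hm
  -- the rational element
  set x : Module.End K H × Module.End K' H' :=
    ∑ m ∈ l.support, (((ρ (l m) : ℚ) : K) • m.1, ((ρ (l m) : ℚ) : K') • m.2) with hx
  have hxR : x ∈ R := sum_mem fun m hm => hRq _ m (hlR m hm)
  have hx1 : x.1 = ∑ m ∈ l.support, ((ρ (l m) : ℚ) : K) • m.1 := by
    rw [hx, Prod.fst_sum]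
  have hx2 : x.2 = ∑ m ∈ l.support, ((ρ (l m) : ℚ) : K') • m.2 := by
    rw [hx, Prod.snd_sum]
  have hpj : p j = ∑ m ∈ l.support, l m • m.1 := by
    rw [← hlp, Finsupp.linearCombination_apply]
    rfl
  have hkey : ∀ i < M, ∀ s ∈ R, ∃ q : ℚ, LinearMap.trace K H (s.1 * p i) = (q : K) ∧
      LinearMap.trace K' H' (s.2 * p' i) = (q : K') ∧
      LinearMap.trace K H (x.1 * s.1 * p i) = (if i = j then (q : K) else 0) ∧
      LinearMap.trace K' H' (x.2 * s.2 * p' i) = (if i = j then (q : K') else 0) := by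
    intro i hi s hs
    obtain ⟨q, hq, hq'⟩ := htr s hs i hi
    have hex : ∀ m : Module.End K H × Module.End K' H', ∃ t : ℚ, m ∈ l.support →
        LinearMap.trace K H (m.1 * s.1 * p i) = (t : K) ∧
        LinearMap.trace K' H' (m.2 * s.2 * p' i) = (t : K') := by
      intro m
      by_cases hm : m ∈ l.support
      · obtain ⟨t, ht⟩ := htr (m * s) (mul_mem (hlR m hm) hs) i hi
        exact ⟨t, fun _ => ht⟩
      · exact ⟨0, fun h => absurd h hm⟩
    choose t ht using hex
    have h1 : ∑ m ∈ l.support, l m * (t m : K) = if i = j then (q : K) else 0 := by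
      have h2 : LinearMap.trace K H (p j * s.1 * p i) = if i = j then (q : K) else 0 := by
        rw [mul_assoc, hc s hs i, ← mul_assoc]
        by_cases hij : i = j
        · subst hij
          rw [hp.idem, ← hc s hs i, hq, if_pos rfl]
        · rw [hp.orth j i (Ne.symm hij), zero_mul, map_zero, if_neg hij]
      rw [← h2, hpj, Finset.sum_mul, Finset.sum_mul, map_sum]
      apply Finset.sum_congr rfl
      intro m hm
      rw [smul_mul_assoc, smul_mul_assoc, map_smul, (ht m hm).1, smul_eq_mul]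
    have h3 : ∑ m ∈ l.support, ρ (l m) * t m = if i = j then q else 0 := by
      have := congrArg ρ h1
      rw [map_sum] at this
      rw [Finset.sum_congr rfl fun m _ => (hρm (l m) (t m)).symm, this]
      split_ifs
      · exact hρ q
      · exact map_zero ρ
    refine ⟨q, hq, hq', ?_, ?_⟩
    · rw [hx1, Finset.sum_mul, Finset.sum_mul, map_sum]
      have : ∀ m ∈ l.support, LinearMap.trace K H (((ρ (l m) : ℚ) : K) • m.1 * s.1 * p i) =
          ((ρ (l m) * t m : ℚ) : K) := by
        intro m hm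
        rw [smul_mul_assoc, smul_mul_assoc, map_smul, (ht m hm).1, smul_eq_mul]
        push_cast
        rfl
      rw [Finset.sum_congr rfl this, ← Rat.cast_sum, h3]
      split_ifs <;> simp
    · rw [hx2, Finset.sum_mul, Finset.sum_mul, map_sum]
      have : ∀ m ∈ l.support, LinearMap.trace K' H' (((ρ (l m) : ℚ) : K') • m.2 * s.2 * p' i) =
          ((ρ (l m) * t m : ℚ) : K') := by
        intro m hm
        rw [smul_mul_assoc, smul_mul_assoc, map_smul, (ht m hm).2, smul_eq_mul]
        push_cast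
        rfl
      rw [Finset.sum_congr rfl this, ← Rat.cast_sum, h3]
      split_ifs <;> simp
  obtain ⟨d1, hd1⟩ := pow_of_pair hp (Prod.fst '' (R : Set (Module.End K H × Module.End K' H'))) ⟨1, one_mem R, rfl⟩
    (by
      rintro _ ⟨a, ha, rfl⟩ _ ⟨b, hb, rfl⟩
      exact ⟨a * b, mul_mem ha hb, rfl⟩)
    (by
      rintro _ ⟨a, ha, rfl⟩ i
      exact hc a ha i) ⟨x, hxR, rfl⟩ j hj (by
      rintro i hi _ ⟨s, hs, rfl⟩
      obtain ⟨q, h1, _, h2, _⟩ := hkey i hi s hs
      rw [h2, h1])
  obtain ⟨d2, hd2⟩ := pow_of_pair hp' (Prod.snd '' (R : Set (Module.End K H × Module.End K' H'))) ⟨1, one_mem R, rfl⟩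
    (by
      rintro _ ⟨a, ha, rfl⟩ _ ⟨b, hb, rfl⟩
      exact ⟨a * b, mul_mem ha hb, rfl⟩)
    (by
      rintro _ ⟨a, ha, rfl⟩ i
      exact hc' a ha i) ⟨x, hxR, rfl⟩ j hj (by
      rintro i hi _ ⟨s, hs, rfl⟩
      obtain ⟨q, _, h1, _, h2⟩ := hkey i hi s hs
      rw [h2, h1])
  have hF : 1 - (1 - x ^ (max d1 d2)) ^ (max d1 d2) ∈ R :=
    sub_mem (one_mem _) (pow_mem (sub_mem (one_mem _) (pow_mem hxR _)) _)
  have : 1 - (1 - x ^ (max d1 d2)) ^ (max d1 d2) = (p j, p' j) := by
    apply Prod.ext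
    · exact hd1 _ (le_max_left _ _)
    · exact hd2 _ (le_max_right _ _)
  rwa [this] at hF

end Alg

section

variable {V : Type u} [Category.{v} V] [CartesianMonoidalCategory V] {Z : CycleTheory.{u, v, y} V}
  {K : Type x} [Field K] {T : WeilTheory.{u, v, w, x} V K} (c : CycleClass Z T)
  {K' : Type x'} [Field K'] {T' : WeilTheory.{u, v, w', x'} V K'} (c' : CycleClass Z T')

/-- composition of cycles -/
def CycleTheory.comp (Z : CycleTheory.{u, v, y} V) {X : V} (a b : Z.Z (X ⊗ X) (Z.dim X)) :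
    Z.Z (X ⊗ X) (Z.dim X) :=
  Z.push X (X ⊗ X) (Z.dim X)
    (Z.mul (Z.pull (lift (snd X (X ⊗ X) ≫ fst X X) (fst X (X ⊗ X))) a)
      (Z.pull (lift (fst X (X ⊗ X)) (snd X (X ⊗ X) ≫ snd X X)) b))

theorem CycleClass.cl_comp {X : V} (a b : Z.Z (X ⊗ X) (Z.dim X)) :
    c.cl _ _ (Z.comp a b) = T.comp (c.cl _ _ a) (c.cl _ _ b) := by
  unfold CycleTheory.comp Cohomology.comp
  rw [c.cl_push, c.cl_mul, c.cl_pull, c.cl_pull]

/-- pairs of actions of cycles -/
def pairs (X : V) : Subring (Module.End K (T.H X) × Module.End K' (T'.H X)) where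
  carrier := {r | ∃ a : Z.Z (X ⊗ X) (Z.dim X), r = (T.act (c.cl _ _ a), T'.act (c'.cl _ _ a))}
  mul_mem' := by
    rintro _ _ ⟨a, rfl⟩ ⟨b, rfl⟩
    refine ⟨Z.comp b a, ?_⟩
    rw [c.cl_comp, c'.cl_comp, T.act_comp, T'.act_comp]
    rfl
  one_mem' := by
    refine ⟨Z.diag X, ?_⟩
    rw [c.cl_diag, c'.cl_diag, T.act_diag, T'.act_diag]
    rfl
  add_mem' := by
    rintro _ _ ⟨a, rfl⟩ ⟨b, rfl⟩
    refine ⟨a + b, ?_⟩
    rw [map_add, map_add, T.act_add, T'.act_add]
    rfl
  zero_mem' := by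
    refine ⟨0, ?_⟩
    rw [map_zero, map_zero, T.act_zero, T'.act_zero]
    rfl
  neg_mem' := by
    rintro _ ⟨a, rfl⟩
    refine ⟨-a, ?_⟩
    rw [map_neg, map_neg]
    apply Prod.ext
    · ext b
      simp [Cohomology.act_apply]
    · ext b
      simp [Cohomology.act_apply]

theorem CycleClass.mem_C {X : V} (a : Z.Z (X ⊗ X) (Z.dim X)) :
    c.cl _ _ a ∈ T.C (X ⊗ X) (T.dim X) := by
  have := c.span_cl (X ⊗ X) (Z.dim X)
  rw [← c.dim_eq X, ← this]
  exact Submodule.subset_span ⟨a, rfl⟩

/-- **Independence of the cohomology theory and of the coefficients.** -/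
theorem conjC_iff_of_traces [CharZero K] [CharZero K'] (X : V)
    (h : ∀ (a : Z.Z (X ⊗ X) (Z.dim X)) (i : ℕ), ∃ q : ℚ,
      T.traceOn i (c.cl _ _ a) = (q : K) ∧ T'.traceOn i (c'.cl _ _ a) = (q : K')) :
    T.ConjC X ↔ ∀ i ≤ 2 * T'.dim X, ∃ a : Z.Z (X ⊗ X) (Z.dim X),
      c'.cl _ _ a = T'.kunnethComponent X i := by
  have hdim : T.dim X = T'.dim X := (c.dim_eq X).symm.trans (c'.dim_eq X)
  constructor
  · intro hC i hi
    have hmem : (T.proj X i, T'.proj X i) ∈ pairs c c' X := by
      refine pair_mem (M := 2 * T.dim X + 1) (T.projs X) (by rw [hdim]; exact T'.projs X)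
        (pairs c c' X) ?_ ?_ ?_ ?_ i (by omega) ?_
      · rintro q _ ⟨a, rfl⟩
        refine ⟨q • a, ?_⟩
        rw [c.cl_smul, c'.cl_smul, T.act_smul, T'.act_smul]
      · rintro _ ⟨a, rfl⟩ i
        exact T.ops_mul_proj (T.act_mem_ops.mpr (c.mem_C a)) i
      · rintro _ ⟨a, rfl⟩ i
        exact T'.ops_mul_proj (T'.act_mem_ops.mpr (c'.mem_C a)) i
      · rintro _ ⟨a, rfl⟩ i _
        exact h a i
      · have h1 := hC i (by omega)
        rw [← T.act_kunneth (by omega)]
        rw [← c.dim_eq X, ← c.span_cl] at h1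
        generalize T.kunnethComponent X i = t at h1
        induction h1 using Submodule.span_induction with
        | mem z hz =>
          obtain ⟨a, rfl⟩ := hz
          exact Submodule.subset_span ⟨_, ⟨a, rfl⟩, rfl⟩
        | zero => rw [T.act_zero]; exact zero_mem _
        | add z z' _ _ h1 h2 => rw [T.act_add]; exact add_mem h1 h2
        | smul k z _ h => rw [T.act_smul]; exact Submodule.smul_mem _ _ h
    obtain ⟨a, ha⟩ := hmem
    refine ⟨a, ?_⟩
    apply T'.act_injective
    rw [T'.act_kunneth hi]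
    exact (congrArg Prod.snd ha).symm
  · intro hC i hi
    have hmem : (T'.proj X i, T.proj X i) ∈ pairs c' c X := by
      refine pair_mem (M := 2 * T'.dim X + 1) (T'.projs X) (by rw [← hdim]; exact T.projs X)
        (pairs c' c X) ?_ ?_ ?_ ?_ i (by omega) ?_
      · rintro q _ ⟨a, rfl⟩
        refine ⟨q • a, ?_⟩
        rw [c.cl_smul, c'.cl_smul, T.act_smul, T'.act_smul]
      · rintro _ ⟨a, rfl⟩ i
        exact T'.ops_mul_proj (T'.act_mem_ops.mpr (c'.mem_C a)) i
      · rintro _ ⟨a, rfl⟩ i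
        exact T.ops_mul_proj (T.act_mem_ops.mpr (c.mem_C a)) i
      · rintro _ ⟨a, rfl⟩ i _
        obtain ⟨q, h1, h2⟩ := h a i
        exact ⟨q, h2, h1⟩
      · obtain ⟨a, ha⟩ := hC i (by omega)
        apply Submodule.subset_span
        refine ⟨_, ⟨a, rfl⟩, ?_⟩
        change T'.act (c'.cl _ _ a) = _
        rw [ha, T'.act_kunneth (by omega)]
    obtain ⟨a, ha⟩ := hmem
    have h1 : T.act (c.cl _ _ a) = T.proj X i := (congrArg Prod.snd ha).symm
    have h2 : T.kunnethComponent X i = c.cl _ _ a := by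
      apply T.act_injective
      rw [T.act_kunneth hi, h1]
    rw [h2]
    exact c.mem_C a

end

end Pool.KC
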