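import Pool.Agent.Work.MP_a60482_kc.Base

open CategoryTheory MonoidalCategory CartesianMonoidalCategory

universe u v w x

namespace Pool.KC

section Algebra

variable {K H : Type*} [Field K] [AddCommGroup H] [Module K H] [FiniteDimensional K H]

/-- from a maximal left ideal containing the annihilator of a submodule -/
theorem exists_section (A : Subalgebra K (Module.End K H)) (m : Ideal A) (hm : m ≠ ⊤)
    (s : Finset H) (h : ∀ a : A, (∀ v ∈ s, a.1 v = 0) → a ∈ m) :
    ∃ L : Ideal A, ∃ v ∈ s, (¬ L ≤ m) ∧ ∀ a ∈ L, a.1 v = 0 → a ∈ m := by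
  classical
  induction s using Finset.induction_on with
  | empty =>
    exfalso
    apply hm
    rw [Ideal.eq_top_iff_one]
    exact h 1 (by simp)
  | insert v s hv ih =>
    by_cases h2 : ∀ a : A, (∀ v ∈ s, a.1 v = 0) → a ∈ m
    · obtain ⟨L, v', hv', h3⟩ := ih h2
      exact ⟨L, v', Finset.mem_insert_of_mem hv', h3⟩
    · let L : Ideal A :=
        { carrier := {a | ∀ v ∈ s, a.1 v = 0}
          add_mem' := by
            intro a b ha hb v hv
            have := ha v hv
            have := hb v hv
            simp_all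
          zero_mem' := by intro v _; simp
          smul_mem' := by
            intro c a ha v hv
            have := ha v hv
            simp_all }
      refine ⟨L, v, Finset.mem_insert_self _ _, ?_, ?_⟩
      · intro h3
        exact h2 fun a ha => h3 ha
      · intro a ha hav
        apply h a
        intro w hw
        rcases Finset.mem_insert.mp hw with rfl | hw
        · exact hav
        · exact ha w hw

/-- A projector commuting with an algebra `A` of endomorphisms of a finite-dimensional space
lies in `A` as soon as it preserves all `A`-stable subspaces. -/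
theorem projector_mem (A : Subalgebra K (Module.End K H)) (p : Module.End K H)
    (hp : ∀ x, p (p x) = p x) (hc : ∀ f ∈ A, ∀ x, f (p x) = p (f x))
    (hU : ∀ U : Submodule K H, (∀ f ∈ A, ∀ u ∈ U, f u ∈ U) → ∀ u ∈ U, p u ∈ U) : p ∈ A := by
  classical
  by_contra hpA
  -- the annihilators of the image and of the kernel
  let I : Ideal A :=
    { carrier := {a | ∀ x, a.1 (p x) = 0}
      add_mem' := by
        intro a b ha hb x
        have := ha x
        have := hb x
        simp_all
      zero_mem' := by intro x; simp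
      smul_mem' := by
        intro c a ha x
        have := ha x
        simp_all }
  let J : Ideal A :=
    { carrier := {a | ∀ x, a.1 (x - p x) = 0}
      add_mem' := by
        intro a b ha hb x
        have h1 := ha x
        have h2 := hb x
        have : (a + b).1 (x - p x) = a.1 (x - p x) + b.1 (x - p x) := rfl
        rw [this, h1, h2, add_zero]
      zero_mem' := by intro x; rfl
      smul_mem' := by
        intro c a ha x
        have h1 := ha x
        have : (c • a).1 (x - p x) = c.1 (a.1 (x - p x)) := rfl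
        rw [this, h1, map_zero] }
  have hIJ : I ⊔ J ≠ ⊤ := by
    intro htop
    have h1 : (1 : A) ∈ I ⊔ J := htop ▸ Submodule.mem_top
    obtain ⟨a, ha, b, hb, hab⟩ := Submodule.mem_sup.mp h1
    apply hpA
    have : b.1 = p := by
      ext y
      have h2 : b.1 (y - p y) = 0 := hb y
      have h3 : a.1 (p y) = 0 := ha y
      have h4 : a.1 (p y) + b.1 (p y) = p y := by
        have := congrArg (fun c : A => c.1 (p y)) hab
        simpa using this
      rw [h3, zero_add] at h4
      rw [map_sub, h4] at h2
      exact sub_eq_zero.mp h2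
    rw [← this]
    exact b.2
  obtain ⟨m, hm, hle⟩ := Ideal.exists_le_maximal _ hIJ
  have hIm : I ≤ m := le_sup_left.trans hle
  have hJm : J ≤ m := le_sup_right.trans hle
  -- finite spanning sets
  obtain ⟨B, hB⟩ : ∃ B : Finset H, Submodule.span K (B : Set H) = ⊤ := Module.finite_def.mp ‹_›
  have hBspan : ∀ f : Module.End K H, (∀ x ∈ B, f x = 0) → ∀ x, f x = 0 := by
    intro f hf x
    have hx : x ∈ Submodule.span K (B : Set H) := hB ▸ Submodule.mem_top
    have : Submodule.span K (B : Set H) ≤ LinearMap.ker f := by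
      rw [Submodule.span_le]
      intro y hy
      exact hf y hy
    exact this hx
  obtain ⟨L, v, hv, hL, hLv⟩ := exists_section A m hm.ne_top (B.image p) (by
    intro a ha
    apply hIm
    intro y
    have := hBspan (a.1 ∘ₗ p) (fun x hx => ha (p x) (Finset.mem_image_of_mem _ hx)) y
    exact this)
  obtain ⟨L', w, hw, hL', hLw⟩ := exists_section A m hm.ne_top (B.image (fun x => x - p x)) (by
    intro a ha
    apply hJm
    intro y
    have := hBspan (a.1 ∘ₗ (LinearMap.id - p))
      (fun x hx => ha (x - p x) (Finset.mem_image_of_mem (fun x => x - p x) hx)) y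
    exact this)
  obtain ⟨v0, _, hv0⟩ := Finset.mem_image.mp hv
  obtain ⟨w0, _, hw0⟩ := Finset.mem_image.mp hw
  have hpv : ∀ a : A, p (a.1 v) = a.1 v := by
    intro a
    rw [← hv0, hc _ a.2, hp]
  have hpw : ∀ a : A, p (a.1 w) = 0 := by
    intro a
    rw [← hw0, map_sub, hc _ a.2, map_sub, hp, sub_self]
  -- the subspace
  let U : Submodule K H :=
    { carrier := {u | ∃ a ∈ L, ∃ b ∈ L', a - b ∈ m ∧ u = a.1 v + b.1 w}
      add_mem' := by
        rintro _ _ ⟨a, ha, b, hb, hab, rfl⟩ ⟨a', ha', b', hb', hab', rfl⟩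
        refine ⟨a + a', add_mem ha ha', b + b', add_mem hb hb', ?_, ?_⟩
        · have := add_mem hab hab'
          convert this using 1
          abel
        · have h1 : (a + a').1 v = a.1 v + a'.1 v := rfl
          have h2 : (b + b').1 w = b.1 w + b'.1 w := rfl
          rw [h1, h2]
          abel
      zero_mem' := ⟨0, zero_mem _, 0, zero_mem _, by simp, by simp⟩
      smul_mem' := by
        rintro c _ ⟨a, ha, b, hb, hab, rfl⟩
        refine ⟨algebraMap K A c * a, L.mul_mem_left _ ha, algebraMap K A c * b,
          L'.mul_mem_left _ hb, ?_, ?_⟩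
        · rw [← mul_sub]
          exact m.mul_mem_left _ hab
        · have h1 : (algebraMap K A c * a).1 v = c • a.1 v := rfl
          have h2 : (algebraMap K A c * b).1 w = c • b.1 w := rfl
          rw [h1, h2, smul_add] }
  have hUst : ∀ f ∈ A, ∀ u ∈ U, f u ∈ U := by
    rintro f hf _ ⟨a, ha, b, hb, hab, rfl⟩
    refine ⟨⟨f, hf⟩ * a, L.mul_mem_left _ ha, ⟨f, hf⟩ * b, L'.mul_mem_left _ hb, ?_, ?_⟩
    · rw [← mul_sub]
      exact m.mul_mem_left _ hab
    · rw [map_add]
      rfl
  obtain ⟨a, haL, ham⟩ := SetLike.not_le_iff_exists.mp hL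
  have hsup : L' ⊔ m = ⊤ := by
    by_contra h
    have := hm.eq_of_le h le_sup_right
    exact hL' (this ▸ le_sup_left)
  obtain ⟨b, hb, c, hcm, hbc⟩ := Submodule.mem_sup.mp (hsup ▸ Submodule.mem_top : a ∈ L' ⊔ m)
  have hu : a.1 v + b.1 w ∈ U := ⟨a, haL, b, hb, by rw [← hbc]; simpa using hcm, rfl⟩
  have hpu := hU U hUst _ hu
  rw [map_add, hpv, hpw, add_zero] at hpu
  obtain ⟨a1, ha1, b1, hb1, hab1, h1⟩ := hpu
  have h2 : b1.1 w = 0 := by
    have h3 := congrArg p h1
    rw [map_add, hpv, hpv, hpw, add_zero] at h3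
    rw [h3] at h1
    simpa using h1.symm
  have h3 : b1 ∈ m := hLw b1 hb1 h2
  have h4 : a1 ∈ m := by
    have := add_mem hab1 h3
    simpa using this
  have h5 : a - a1 ∈ m := by
    apply hLv _ (sub_mem haL ha1)
    have : (a - a1).1 v = a.1 v - a1.1 v := rfl
    rw [this, h1, h2]
    simp
  apply ham
  have := add_mem h5 h4
  simpa using this

end Algebra

namespace WeilTheory

variable {V : Type u} [Category.{v} V] [CartesianMonoidalCategory V] {K : Type x} [Field K]
variable (T : WeilTheory.{u, v, w, x} V K)

theorem ops_comm_proj {X : V} {f : Module.End K (T.H X)} (hf : f ∈ T.ops X) (i : ℕ)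
    (a : T.H X) : f (T.proj X i a) = T.proj X i (f a) := by
  refine T.hind (P := fun a => f (T.proj X i a) = T.proj X i (f a)) (by simp) ?_ ?_ a
  · intro j a ha
    by_cases hj : j = i
    · subst hj
      rw [T.proj_same ha, T.proj_same (T.ops_deg hf ha)]
    · rw [T.proj_ne ha hj, T.proj_ne (T.ops_deg hf ha) hj, map_zero]
  · intro a b h1 h2
    simp only [map_add, h1, h2]

/-- `C(X)` holds iff every subspace of `H(X)` which is stable under the algebraic
self-correspondences of degree `0` is homogeneous. -/
theorem conjC_iff_stable (X : V) :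
    T.ConjC X ↔ ∀ U : Submodule K (T.H X),
      (∀ z ∈ T.C (X ⊗ X) (T.dim X), ∀ a ∈ U, T.act z a ∈ U) →
        ∀ (i : ℕ), ∀ a ∈ U, GradedAlgebra.proj (T.deg X) i a ∈ U := by
  rw [T.conjC_iff]
  constructor
  · intro h U hU i a ha
    obtain ⟨z, hz, h1⟩ := h i
    have := hU z hz a ha
    rw [h1] at this
    exact this
  · intro h i
    apply projector_mem
    · intro y
      exact T.proj_same (T.proj_mem _ _)
    · intro f hf y
      exact T.ops_comm_proj hf i y
    · intro U hU u hu
      exact h U (fun z hz a ha => hU _ ⟨z, hz, rfl⟩ a ha) i u hu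

/-- the version for one Kuenneth component -/
theorem kunneth_iff_stable (X : V) (i : ℕ) (hi : i ≤ 2 * T.dim X) :
    T.kunnethComponent X i ∈ T.C (X ⊗ X) (T.dim X) ↔ ∀ U : Submodule K (T.H X),
      (∀ z ∈ T.C (X ⊗ X) (T.dim X), ∀ a ∈ U, T.act z a ∈ U) →
        ∀ a ∈ U, GradedAlgebra.proj (T.deg X) i a ∈ U := by
  rw [← T.act_mem_ops, T.act_kunneth hi]
  constructor
  · intro h U hU a ha
    obtain ⟨z, hz, h1⟩ := h
    have := hU z hz a ha
    rw [h1] at this
    exact this
  · intro h
    apply projector_mem
    · intro y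
      exact T.proj_same (T.proj_mem _ _)
    · intro f hf y
      exact T.ops_comm_proj hf i y
    · intro U hU u hu
      exact h U (fun z hz a ha => hU _ ⟨z, hz, rfl⟩ a ha) u hu

/-- pointwise version -/
theorem kunneth_iff_pointwise (X : V) (i : ℕ) (hi : i ≤ 2 * T.dim X) :
    T.kunnethComponent X i ∈ T.C (X ⊗ X) (T.dim X) ↔
      ∀ a : T.H X, ∃ z ∈ T.C (X ⊗ X) (T.dim X), T.act z a = GradedAlgebra.proj (T.deg X) i a := by
  constructor
  · intro h a
    exact ⟨_, h, by rw [T.act_kunneth hi]; rfl⟩
  · intro h
    rw [T.kunneth_iff_stable X i hi]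
    intro U hU a ha
    obtain ⟨z, hz, h1⟩ := h a
    rw [← h1]
    exact hU z hz a ha

end WeilTheory

end Pool.KC
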