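import Pool.Agent.Work.MP_a60482_kc.Conv
import Pool.Agent.Work.MP_a60482_kc.DetMain
import Pool.Agent.Work.MP_a60482_kc.Stable
import Pool.Agent.Work.MP_a60482_kc.Indep

open CategoryTheory MonoidalCategory CartesianMonoidalCategory

universe u v w w' x x' y

namespace Pool.KC

namespace WeilData

variable {V : Type u} [Category.{v} V] [CartesianMonoidalCategory V] {K : Type x} [Field K]
variable {D : WeilData.{u, v, w, x} V K}

theorem detPower_iff (h : D.IsWeil) (X : V) (n : ℕ) :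
    D.DetPowerAlgebraic X n ↔ (toWeil h).DetPowerAlgebraic X n := Iff.rfl

theorem forall_conjC_iff_det [CharZero K] (h : D.IsWeil) (E : V) (hE : D.dim E = 1)
    (h0 : ∀ a ∈ D.deg E 0, ∃ c : K, a = c • (1 : D.H E)) (h1 : D.deg E 1 ≠ ⊥)
    (hp : ∃ p ∈ D.C E 1, D.int p ≠ 0) (N : Set ℕ) (hN : ∀ n ∈ N, Even n) (hN' : N.Infinite) :
    (∀ X, D.ConjC X) ↔ ∀ X, D.dim X ∈ N → D.DetPowerAlgebraic X (D.dim X) := by
  have h2 : (toWeil h).ConjC E := (toWeil h).conjC_curve hE h0 hp
  have h3 := (toWeil h).forall_conjC_iff_det E hE h2 h1 N hN hN'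
  rw [forall_congr' fun X => conjC_iff' h X]
  exact h3

theorem kunneth_iff_pointwise (h : D.IsWeil) {X : V} {p : ℕ → D.H (X ⊗ X)}
    (hp : D.IsKunneth X p) {i : ℕ} (hi : i ≤ 2 * D.dim X) :
    p i ∈ D.C (X ⊗ X) (D.dim X) ↔
      ∀ a : D.H X, ∃ z ∈ D.C (X ⊗ X) (D.dim X), D.act z a = D.act (p i) a := by
  have h1 := (toWeil h).kunneth_iff_pointwise X i hi
  rw [← hp.eq h hi] at h1
  have h2 : ∀ a : D.H X, GradedAlgebra.proj (D.R X).deg i a = D.act (p i) a := by
    intro a
    rw [← act_eq h, hp.eq h hi, (toWeil h).act_kunneth hi]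
    rfl
  refine h1.trans (forall_congr' fun a => exists_congr fun z => and_congr_right fun _ => ?_)
  rw [← h2 a, ← act_eq h z a]

theorem conjC_iff_num [CharZero K] (h : D.IsWeil) {X : V} {p : ℕ → D.H (X ⊗ X)}
    (hp : D.IsKunneth X p) :
    D.ConjC X ↔ ∃ z : ℕ → D.H (X ⊗ X), ∀ i ≤ 2 * D.dim X,
      z i ∈ D.C (X ⊗ X) (D.dim X) ∧ D.NumEq (D.dim X) (z i) (p i) ∧
        D.NumEq (D.dim X) (D.comp (z i) (z i)) (z i) := by
  rw [conjC_iff' h]
  refine ((toWeil h).conjC_iff_num X).trans (exists_congr fun z => forall_congr' fun i =>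
    forall_congr' fun hi => and_congr_right fun _ => ?_)
  rw [← hp.eq h hi, comp_eq h]
  rfl

end WeilData

variable {V : Type u} [Category.{v} V] [CartesianMonoidalCategory V]
  {Z : CycleTheory.{u, v, y} V}
  {K : Type x} [Field K] {D : WeilData.{u, v, w, x} V K}
  {K' : Type x'} [Field K'] {D' : WeilData.{u, v, w', x'} V K'}

/-- conversion of cycle class maps -/
def CycleClassMap.conv (h : D.IsWeil) (c : CycleClassMap Z D) : CycleClass Z (WeilData.toWeil h) where
  dim_eq := c.span.dim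
  cl := fun X i => AddMonoidHom.mk' (c.cl X i) (c.span.add X i)
  cl_smul := fun q a => c.span.smul _ _ q a
  span_cl := c.span.span
  cl_mul := fun a b => c.compat.mul _ _ _ a b
  cl_pull := fun f _ a => c.compat.pull _ _ f _ a
  cl_push := by
    intro X Y i a
    rw [WeilData.push_eq h]
    exact c.compat.push _ _ _ a
  cl_diag := c.compat.diag

theorem WeilData.traceOn_eq (h : D.IsWeil) {X : V} (i : ℕ) (z : D.H (X ⊗ X)) :
    D.traceOn i z = (WeilData.toWeil h).traceOn i z := by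
  have h1 : D.actHom z = (WeilData.toWeil h).act z := by
    ext a
    exact (WeilData.act_eq h z a).symm
  unfold WeilData.traceOn WeilTheory.traceOn
  rw [h1]

theorem conjC_iff_of_traces' [CharZero K] [CharZero K'] (h : D.IsWeil) (h' : D'.IsWeil)
    (c : CycleClassMap Z D) (c' : CycleClassMap Z D') (X : V)
    (ht : ∀ (a : Z.Z (X ⊗ X) (Z.dim X)) (i : ℕ), ∃ q : ℚ,
      D.traceOn i (c.cl _ _ a) = (q : K) ∧ D'.traceOn i (c'.cl _ _ a) = (q : K')) :
    D.ConjC X ↔ ∃ a : ℕ → Z.Z (X ⊗ X) (Z.dim X), D'.IsKunneth X fun i => c'.cl _ _ (a i) := by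
  rw [WeilData.conjC_iff' h]
  have h1 := conjC_iff_of_traces (c.conv h) (c'.conv h') X (by
    intro a i
    obtain ⟨q, h2, h3⟩ := ht a i
    refine ⟨q, ?_, ?_⟩
    · rw [← h2, WeilData.traceOn_eq h]
      rfl
    · rw [← h3, WeilData.traceOn_eq h']
      rfl)
  rw [h1]
  have hK := WeilData.isKunneth h' X
  constructor
  · intro h2
    choose a ha using h2
    refine ⟨fun i => if hi : i ≤ 2 * D'.dim X then a i hi else 0, ?_, ?_⟩
    · intro i hi
      have h3 : (WeilData.toWeil h').kunnethComponent X i ∈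
          D'.bideg X X (2 * D'.dim X - i) i := hK.1 i hi
      rw [← ha i hi] at h3
      simp only [dif_pos hi]
      exact h3
    · rw [← hK.2]
      apply Finset.sum_congr rfl
      intro i hi
      have hi' : i ≤ 2 * D'.dim X := by
        rw [Finset.mem_range] at hi
        omega
      simp only [dif_pos hi']
      exact ha i hi'
  · rintro ⟨a, ha⟩ i hi
    exact ⟨a i, ha.eq h' hi⟩

end Pool.KC
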