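import Pool.Agent.Work.MP_a60482_kc.Api
import Pool.Agent.Work.MP_a60482_kc.Defs

/-!
# Cycles and their classes in a Weil cohomology theory
-/

open CategoryTheory MonoidalCategory CartesianMonoidalCategory

universe u v w x y

namespace Pool.KC

/-- A cycle class map from a theory of cycles to a Weil cohomology theory `T` with
coefficients in `K`: additive maps `Z^i(X) → H^{2i}(X)`, compatible with products,
pull-backs, push-forwards along projections and diagonals, whose images span the spaces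
`T.C X i` of algebraic classes over `K`. -/
structure CycleClass {V : Type u} [Category.{v} V] [CartesianMonoidalCategory V]
    (Z : CycleTheory.{u, v, y} V) {K : Type x} [Field K] (T : WeilTheory.{u, v, w, x} V K) where
  dim_eq : ∀ X, Z.dim X = T.dim X
  cl : ∀ (X : V) (i : ℕ), Z.Z X i →+ T.H X
  cl_smul : ∀ {X : V} {i : ℕ} (q : ℚ) (a : Z.Z X i), cl X i (q • a) = (q : K) • cl X i a
  span_cl : ∀ (X : V) (i : ℕ), Submodule.span K (Set.range (cl X i)) = T.C X i
  cl_mul : ∀ {X : V} {i j : ℕ} (a : Z.Z X i) (b : Z.Z X j),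
    cl X (i + j) (Z.mul a b) = cl X i a * cl X j b
  cl_pull : ∀ {X Y : V} (f : X ⟶ Y) {i : ℕ} (a : Z.Z Y i),
    cl X i (Z.pull f a) = T.pull f (cl Y i a)
  cl_push : ∀ {X Y : V} {i : ℕ} (a : Z.Z (X ⊗ Y) (Z.dim X + i)),
    cl Y i (Z.push X Y i a) = T.push X Y (cl (X ⊗ Y) (Z.dim X + i) a)
  cl_diag : ∀ X : V, cl (X ⊗ X) (Z.dim X) (Z.diag X) = T.diag X

/-- The trace on `H^i(X)` of a self-correspondence of `X`. -/
noncomputable def WeilTheory.traceOn {V : Type u} [Category.{v} V] [CartesianMonoidalCategory V]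
    {K : Type x} [Field K] (T : WeilTheory.{u, v, w, x} V K) {X : V} (i : ℕ)
    (z : T.H (X ⊗ X)) : K :=
  LinearMap.trace K (T.H X) (T.act z ∘ₗ GradedAlgebra.proj (T.deg X) i)

end Pool.KC
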