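import Pool.Agent.Work.MP_a60482_kc.Final

/-!
# Independence of the Kuenneth standard conjecture of the cohomology theory
-/

open CategoryTheory MonoidalCategory CartesianMonoidalCategory

universe u v w x x' y

namespace Pool.Agent.Results.MP_a60482_ag.IndependenceOfCohomology

open Pool.KC

/-- Let `D`, `D'` be Weil cohomology theories with coefficients in `K`, `K'` and cycle class
maps from the same theory of cycles with rational coefficients.  Suppose that, for every
algebraic self-correspondence of `X` and every `i`, its traces on `H^i(X)` in the two theories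
are the same rational number.  Then the Kuenneth components of `X` for `D` lie in the
`K`-spans of the algebraic classes if and only if those for `D'` are classes of rational
cycles. -/
theorem result {V : Type u} [Category.{v} V] [CartesianMonoidalCategory V]
    (Z : CycleTheory.{u, v, y} V)
    {K : Type x} [Field K] [CharZero K] (D : WeilData.{u, v, w, x} V K) (hD : D.IsWeil)
    (c : CycleClassMap Z D)
    {K' : Type x'} [Field K'] [CharZero K'] (D' : WeilData.{u, v, w, x'} V K') (hD' : D'.IsWeil)
    (c' : CycleClassMap Z D') (X : V)
    (h : ∀ (a : Z.Z (X ⊗ X) (Z.dim X)) (i : ℕ), ∃ q : ℚ,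
      D.traceOn i (c.cl _ _ a) = (q : K) ∧ D'.traceOn i (c'.cl _ _ a) = (q : K')) :
    D.ConjC X ↔ ∃ a : ℕ → Z.Z (X ⊗ X) (Z.dim X), D'.IsKunneth X fun i => c'.cl _ _ (a i) :=
  conjC_iff_of_traces' hD hD' c c' X h

end Pool.Agent.Results.MP_a60482_ag.IndependenceOfCohomology
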