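import Pool.Agent.Work.MP_a60482_kc.Final

/-!
# The Kuenneth standard conjecture up to numerical equivalence
-/

open CategoryTheory MonoidalCategory CartesianMonoidalCategory

universe u v w x

namespace Pool.Agent.Results.MP_a60482_ag.NumericalVersion

open Pool.KC

/-- `C(X)` holds if and only if there are algebraic classes `z i` on `X × X` which have the
same intersection numbers with all algebraic classes as the Kuenneth components `p i`, and
which are idempotent up to numerical equivalence. -/
theorem result {V : Type u} [Category.{v} V] [CartesianMonoidalCategory V]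
    {K : Type x} [Field K] [CharZero K] (D : WeilData.{u, v, w, x} V K) (hD : D.IsWeil)
    (X : V) (p : ℕ → D.H (X ⊗ X)) (hp : D.IsKunneth X p) :
    D.ConjC X ↔ ∃ z : ℕ → D.H (X ⊗ X), ∀ i ≤ 2 * D.dim X,
      z i ∈ D.C (X ⊗ X) (D.dim X) ∧ D.NumEq (D.dim X) (z i) (p i) ∧
        D.NumEq (D.dim X) (D.comp (z i) (z i)) (z i) :=
  WeilData.conjC_iff_num hD hp

end Pool.Agent.Results.MP_a60482_ag.NumericalVersion
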