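import Pool.Agent.Work.MP_a60482_kc.Final

/-!
# The Kuenneth standard conjecture can be tested on single classes
-/

open CategoryTheory MonoidalCategory CartesianMonoidalCategory

universe u v w x

namespace Pool.Agent.Results.MP_a60482_ag.PointwiseCriterion

open Pool.KC

/-- The Kuenneth component `p i` of `X` is algebraic if and only if for every single class `a`
in `H(X)` there is an algebraic self-correspondence `z` of `X`, depending on `a`, which acts
on `a` like `p i`. -/
theorem result {V : Type u} [Category.{v} V] [CartesianMonoidalCategory V]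
    {K : Type x} [Field K] (D : WeilData.{u, v, w, x} V K) (hD : D.IsWeil)
    (X : V) (p : ℕ → D.H (X ⊗ X)) (hp : D.IsKunneth X p) (i : ℕ) (hi : i ≤ 2 * D.dim X) :
    p i ∈ D.C (X ⊗ X) (D.dim X) ↔
      ∀ a : D.H X, ∃ z ∈ D.C (X ⊗ X) (D.dim X), D.act z a = D.act (p i) a :=
  WeilData.kunneth_iff_pointwise hD hp hi

end Pool.Agent.Results.MP_a60482_ag.PointwiseCriterion
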